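import Pool.Agent.W378.REQ2B

set_option autoImplicit false

open Topology Filter Metric Set Polynomial MeasureTheory

namespace Pool.Agent.W378.Q2INJ

open Pool.Agent.W757.QR
open Pool.Agent.W757.Q2 (Ginf StINJ2)
open Pool.Agent.W85.RQINJ
open Pool.Agent.W40.RQAF (af_mem af_ne has_deriv)
open Pool.Agent.H713R5.QJ.INJ (exists_lower exists_upper vol_annulus biUnion_le small)

/-- generic values have `d` preimages -/
lemma card_pre {d : ℕ} {P Q : ℂ[X]} (hT : RM d P Q) {y : ℂ} (hG : Gv d P Q y) :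
    (pre P Q y).card = d := by
  classical
  have hne := af_ne hT y
  have hs : (P - C y * Q).Splits := IsAlgClosed.splits _
  have hnd : (P - C y * Q).roots.Nodup := by
    rw [Multiset.nodup_iff_count_le_one]
    intro ζ
    rw [count_roots]
    by_contra hcon
    push Not at hcon
    rw [one_lt_rootMultiplicity_iff_isRoot hne] at hcon
    obtain ⟨h2, h1⟩ := hcon
    have h3 : ζ ∈ pre P Q y := by
      unfold pre
      rw [Multiset.mem_toFinset, mem_roots hne]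
      exact h2
    have h4 := hG.2 ζ h3
    have h5 := mem_pre h3
    apply h4
    rw [IsRoot.def, derivative_sub, derivative_mul, derivative_C, zero_mul, zero_add, eval_sub,
      eval_mul, eval_C] at h1
    unfold wn
    rw [eval_sub, eval_mul, eval_mul, h5]
    linear_combination (Q.eval ζ) * h1
  unfold pre
  rw [Multiset.toFinset_card_of_nodup hnd, ← hs.natDegree_eq_card_roots]
  exact hG.1

/-- the quotient is real -/
lemma quot_real {P Q : ℂ[X]} {Z : Finset ℂ} {a b : ℂ → ℂ} {y ζ : ℂ}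
    (h1 : ∑ ζ ∈ pre P Q y, qd Z a b ζ / d1 P Q ζ ^ 2 = qd Z a b y)
    (h2 : Gr P Q Z a b y = ‖qd Z a b y‖) (hq : qd Z a b y ≠ 0) (hζ : ζ ∈ pre P Q y) :
    (qd Z a b ζ / (d1 P Q ζ ^ 2 * qd Z a b y)).im = 0 := by
  set W := qd Z a b y with hW
  have hWn : 0 < ‖W‖ := norm_pos_iff.2 hq
  set u : ℂ → ℂ := fun ζ => qd Z a b ζ / (d1 P Q ζ ^ 2 * W) with hu
  have e1 : ∀ ζ, u ζ = qd Z a b ζ / d1 P Q ζ ^ 2 / W := fun ζ => by
    simp only [hu, div_div]
  have s1 : ∑ ζ ∈ pre P Q y, u ζ = 1 := by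
    simp only [e1]
    rw [← Finset.sum_div, h1, div_self hq]
  have s2 : ∑ ζ ∈ pre P Q y, ‖u ζ‖ = 1 := by
    have : ∀ ζ ∈ pre P Q y, ‖u ζ‖ = ‖qd Z a b ζ‖ / ‖d1 P Q ζ‖ ^ 2 / ‖W‖ := by
      intro ζ _
      rw [e1, norm_div, norm_div, norm_pow]
    rw [Finset.sum_congr rfl this, ← Finset.sum_div]
    have h3 : ∑ ζ ∈ pre P Q y, ‖qd Z a b ζ‖ / ‖d1 P Q ζ‖ ^ 2 = ‖W‖ := h2
    rw [h3, div_self hWn.ne']
  have s3 : ∑ ζ ∈ pre P Q y, (u ζ).re = ∑ ζ ∈ pre P Q y, ‖u ζ‖ := by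
    rw [s2, ← Complex.re_sum, s1, Complex.one_re]
  have s4 := (Finset.sum_eq_sum_iff_of_le fun ζ _ => Complex.re_le_norm (u ζ)).1 s3 ζ hζ
  have s5 : ‖u ζ‖ ^ 2 = (u ζ).re ^ 2 + (u ζ).im ^ 2 := by
    rw [Complex.sq_norm, Complex.normSq_apply]
    ring
  rw [← s4] at s5
  have s6 : (u ζ).im ^ 2 = 0 := by linarith
  exact pow_eq_zero_iff (two_ne_zero) |>.1 s6

lemma qd_diff {Z : Finset ℂ} {a b : ℂ → ℂ} {z : ℂ} (hz : z ∉ Z) :
    DifferentiableAt ℂ (qd Z a b) z := by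
  unfold qd
  refine DifferentiableAt.fun_sum fun z' hz' => ?_
  have hne : z - z' ≠ 0 := by
    intro h0
    rw [sub_eq_zero] at h0
    exact hz (h0 ▸ hz')
  have h1 : DifferentiableAt ℂ (fun ζ : ℂ => ζ - z') z := by fun_prop
  exact ((differentiableAt_const _).div (h1.pow 2) (pow_ne_zero 2 hne)).add
    ((differentiableAt_const _).div h1 hne)

/-- the good points -/
def Om (P Q : ℂ[X]) (Z F : Finset ℂ) : Set ℂ :=
  {ζ | Q.eval ζ ≠ 0 ∧ (wn P Q).eval ζ ≠ 0 ∧ ζ ∉ Z ∧ fr P Q ζ ∉ F}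

lemma Om_finite {d : ℕ} {P Q : ℂ[X]} (hT : RM d P Q) (Z F : Finset ℂ) :
    (Om P Q Z F)ᶜ.Finite := by
  classical
  have hQ := Pool.Agent.W40.RQAF.Q_ne hT
  have hW := wn_ne_zero hT
  refine (((Q.roots.toFinset ∪ (wn P Q).roots.toFinset) ∪ (Z ∪ F.biUnion fun w => pre P Q w) :
    Finset ℂ).finite_toSet).subset ?_
  intro ζ hζ
  simp only [Om, mem_compl_iff, mem_ofPred_eq, not_and_or, not_not] at hζ
  simp only [Finset.coe_union, mem_union, Finset.mem_coe, Multiset.mem_toFinset, mem_roots hQ,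
    mem_roots hW, IsRoot.def, Finset.mem_biUnion]
  by_cases h0 : Q.eval ζ = 0
  · exact Or.inl (Or.inl h0)
  rcases hζ with h | h | h | h
  · exact absurd h h0
  · exact Or.inl (Or.inr h)
  · exact Or.inr (Or.inl h)
  · exact Or.inr (Or.inr ⟨_, h, (af_mem hT _ ζ).2 ⟨h0, rfl⟩⟩)

/-- the quotient is constant -/
lemma const_quot {d : ℕ} {P Q : ℂ[X]} {Z F : Finset ℂ} {a b : ℂ → ℂ} (hT : RM d P Q)
    (hF1 : ∀ y, y ∉ F → y ∉ Z) (hF3 : ∀ y, y ∉ F → qd Z a b y ≠ 0)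
    (him : ∀ ζ ∈ Om P Q Z F, (qd Z a b ζ / (d1 P Q ζ ^ 2 * qd Z a b (fr P Q ζ))).im = 0) :
    ∃ c : ℂ, ∀ ζ ∈ Om P Q Z F, qd Z a b ζ = c * (d1 P Q ζ ^ 2 * qd Z a b (fr P Q ζ)) := by
  set Ω := Om P Q Z F with hΩ
  have hfin : Ωᶜ.Finite := Om_finite hT Z F
  have hopen : IsOpen Ω := by
    rw [← isClosed_compl_iff]
    exact hfin.isClosed
  have hconn : IsPreconnected Ω := by
    have := (hfin.countable.isConnected_compl_of_one_lt_rank
      (show 1 < Module.rank ℝ ℂ by rw [Complex.rank_real_complex]; norm_num)).isPreconnected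
    rwa [compl_compl] at this
  set R : ℂ → ℂ := fun ζ => qd Z a b ζ / (d1 P Q ζ ^ 2 * qd Z a b (fr P Q ζ)) with hR
  have hne : ∀ ζ ∈ Ω, d1 P Q ζ ^ 2 * qd Z a b (fr P Q ζ) ≠ 0 := by
    rintro ζ ⟨h1, h2, h3, h4⟩
    exact mul_ne_zero (pow_ne_zero 2 (div_ne_zero h2 (pow_ne_zero 2 h1))) (hF3 _ h4)
  have hdiff : DifferentiableOn ℂ R Ω := by
    rintro ζ hζ
    obtain ⟨h1, h2, h3, h4⟩ := hζ
    refine DifferentiableAt.differentiableWithinAt ?_
    have hd1 : DifferentiableAt ℂ (d1 P Q) ζ := by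
      unfold d1
      exact (wn P Q).differentiable.differentiableAt.div
        (Q.differentiable.differentiableAt.pow 2) (pow_ne_zero 2 h1)
    have hfr : DifferentiableAt ℂ (fr P Q) ζ := (hasDerivAt_fr P Q ζ h1).differentiableAt
    have hqf : DifferentiableAt ℂ (fun ζ => qd Z a b (fr P Q ζ)) ζ :=
      (qd_diff (hF1 _ h4)).comp ζ hfr
    exact (qd_diff h3).div ((hd1.pow 2).mul hqf) (hne ζ ⟨h1, h2, h3, h4⟩)
  have han : AnalyticOnNhd ℂ R Ω := hdiff.analyticOnNhd hopen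
  rcases han.is_constant_or_isOpen hconn with ⟨c, hc⟩ | hop
  · refine ⟨c, fun ζ hζ => ?_⟩
    rw [← hc ζ hζ]
    exact (div_mul_cancel₀ _ (hne ζ hζ)).symm
  · exfalso
    have h1 := hop Ω subset_rfl hopen
    have hne' : Ω.Nonempty := by
      by_contra hcon
      rw [not_nonempty_iff_eq_empty] at hcon
      rw [hcon, compl_empty] at hfin
      exact infinite_univ hfin
    obtain ⟨ζ, hζ⟩ := hne'
    have h2 : R ζ ∈ R '' Ω := ⟨ζ, hζ, rfl⟩
    obtain ⟨ε, hε, hb⟩ := Metric.isOpen_iff.1 h1 (R ζ) h2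
    have h3 : R ζ + (ε / 2 : ℝ) * Complex.I ∈ ball (R ζ) ε := by
      rw [mem_ball, dist_eq_norm, add_sub_cancel_left, norm_mul, Complex.norm_I, mul_one,
        Complex.norm_real, Real.norm_eq_abs, abs_of_pos (by positivity)]
      linarith
    obtain ⟨ζ', hζ', h4⟩ := hb h3
    have h5 := him ζ' hζ'
    have h6 := him ζ hζ
    have h7 : (R ζ').im = (R ζ).im + ε / 2 := by
      rw [h4]
      simp
    have h8 : (R ζ').im = 0 := h5
    have h9 : (R ζ).im = 0 := h6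
    linarith

lemma qd_split {Z : Finset ℂ} {a b : ℂ → ℂ} [DecidableEq ℂ] {z : ℂ} (hz : z ∈ Z) (ζ : ℂ) :
    qd Z a b ζ = a z / (ζ - z) ^ 2 + b z / (ζ - z) + qd (Z.erase z) a b ζ := by
  unfold qd
  rw [Finset.add_sum_erase Z (fun z => a z / (ζ - z) ^ 2 + b z / (ζ - z)) hz]

lemma lim2 {Z : Finset ℂ} {a b : ℂ → ℂ} {z : ℂ} (hz : z ∈ Z) :
    Tendsto (fun ζ => qd Z a b ζ * (ζ - z) ^ 2) (𝓝[≠] z) (𝓝 (a z)) := by
  classical
  have hc : ContinuousAt (fun ζ => a z + b z * (ζ - z) + (ζ - z) ^ 2 * qd (Z.erase z) a b ζ) z := by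
    have h1 : ContinuousAt (qd (Z.erase z) a b) z := qd_contAt (Finset.notMem_erase z Z)
    have h2 : ContinuousAt (fun ζ : ℂ => ζ - z) z := by fun_prop
    exact (continuousAt_const.add (continuousAt_const.mul h2)).add ((h2.pow 2).mul h1)
  have h3 := hc.tendsto.mono_left (nhdsWithin_le_nhds (s := {z}ᶜ))
  simp only [sub_self, mul_zero, add_zero, ne_eq, OfNat.ofNat_ne_zero, not_false_eq_true,
    zero_pow, zero_mul] at h3
  refine h3.congr' ?_
  filter_upwards [self_mem_nhdsWithin] with ζ hζ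
  have hne : ζ - z ≠ 0 := sub_ne_zero.2 hζ
  rw [qd_split hz ζ]
  field_simp

lemma lim1 {Z : Finset ℂ} {a b : ℂ → ℂ} {z : ℂ} (hz : z ∈ Z) (ha : ∀ z ∈ Z, a z = 0) :
    Tendsto (fun ζ => qd Z a b ζ * (ζ - z)) (𝓝[≠] z) (𝓝 (b z)) := by
  classical
  have hc : ContinuousAt (fun ζ => b z + (ζ - z) * qd (Z.erase z) a b ζ) z := by
    have h1 : ContinuousAt (qd (Z.erase z) a b) z := qd_contAt (Finset.notMem_erase z Z)
    have h2 : ContinuousAt (fun ζ : ℂ => ζ - z) z := by fun_prop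
    exact continuousAt_const.add (h2.mul h1)
  have h3 := hc.tendsto.mono_left (nhdsWithin_le_nhds (s := {z}ᶜ))
  simp only [sub_self, add_zero, zero_mul] at h3
  refine h3.congr' ?_
  filter_upwards [self_mem_nhdsWithin] with ζ hζ
  have hne : ζ - z ≠ 0 := sub_ne_zero.2 hζ
  rw [qd_split hz ζ, ha z hz]
  field_simp
  ring

theorem main (hAF : StAF) : StINJ2 := by
  classical
  intro d P Q Z a b wt hT hcyc hGi hwt ha hb hinv
  by_contra hcon
  -- zeros of the differential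
  have hzer : {y : ℂ | y ∉ Z ∧ qd Z a b y = 0}.Finite := by
    by_contra hinf
    exact hcon (Pool.Agent.H713R5.QJ.INJ.qd_zero Z a b _ hinf fun ζ hζ => hζ)
  set F : Finset ℂ := Z ∪ (hzer.toFinset ∪ (gv_finite hT).toFinset) with hFdef
  have hF : ∀ y, y ∉ F → y ∉ Z ∧ qd Z a b y ≠ 0 ∧ Gv d P Q y := by
    intro y hy
    rw [hFdef, Finset.mem_union, Finset.mem_union, Finite.mem_toFinset, Finite.mem_toFinset] at hy
    push Not at hy
    obtain ⟨h1, h2, h3⟩ := hy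
    refine ⟨h1, fun h0 => h2 ⟨h1, h0⟩, ?_⟩
    by_contra h4
    exact h3 h4
  have him : ∀ ζ ∈ Om P Q Z F,
      (qd Z a b ζ / (d1 P Q ζ ^ 2 * qd Z a b (fr P Q ζ))).im = 0 := by
    rintro ζ ⟨h1, h2, h3, h4⟩
    obtain ⟨h5, h6, h7⟩ := hF _ h4
    exact quot_real (hinv _ h5 h7) (tri_eq hAF hT hcyc hGi hwt hinv h5 h7) h6
      ((af_mem hT _ ζ).2 ⟨h1, rfl⟩)
  obtain ⟨c, hc⟩ := const_quot hT (fun y hy => (hF y hy).1) (fun y hy => (hF y hy).2.1) him
  -- the constant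
  have hcd : (d : ℂ) * c = 1 := by
    obtain ⟨y, hy⟩ := Infinite.exists_notMem_finset F
    obtain ⟨h5, h6, h7⟩ := hF y hy
    have h8 := hinv y h5 h7
    have h9 : ∀ ζ ∈ pre P Q y, qd Z a b ζ / d1 P Q ζ ^ 2 = c * qd Z a b y := by
      intro ζ hζ
      obtain ⟨h10, h11⟩ := (af_mem hT y ζ).1 hζ
      have h12 : ζ ∈ Om P Q Z F := by
        refine ⟨h10, h7.2 ζ hζ, fun h => h5 ?_, by rw [h11]; exact hy⟩
        rw [← h11]
        exact (hcyc.1 ζ h).2.2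
      have h13 : d1 P Q ζ ≠ 0 := div_ne_zero (h7.2 ζ hζ) (pow_ne_zero 2 h10)
      rw [hc ζ h12, h11]
      field_simp
    rw [Finset.sum_congr rfl h9, Finset.sum_const, card_pre hT h7, nsmul_eq_mul, ← mul_assoc] at h8
    exact mul_right_cancel₀ h6 (by rw [h8, one_mul])
  have hc1 : c ≠ 1 := by
    rintro rfl
    rw [mul_one] at hcd
    have h2 := hT.1
    have h3 : d = 1 := by exact_mod_cast hcd
    omega
  -- limits
  have hΩ : ∀ z : ℂ, ∀ᶠ ζ in 𝓝[≠] z, ζ ∈ Om P Q Z F := by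
    intro z
    have hfin := (Om_finite hT Z F).subset (sdiff_subset (s := (Om P Q Z F)ᶜ) (t := {z}))
    have h1 : ((Om P Q Z F)ᶜ \ {z})ᶜ ∈ 𝓝 z :=
      hfin.isClosed.isOpen_compl.mem_nhds (by simp)
    filter_upwards [mem_nhdsWithin_of_mem_nhds h1, self_mem_nhdsWithin] with ζ h2 h3
    by_contra h4
    exact h2 ⟨h4, h3⟩
  have hd1 : ∀ z ∈ Z, d1 P Q z ≠ 0 := fun z hz =>
    div_ne_zero (hcyc.1 z hz).2.1 (pow_ne_zero 2 (hcyc.1 z hz).1)
  have hslope : ∀ z ∈ Z, Tendsto (fun ζ => (fr P Q ζ - fr P Q z) / (ζ - z)) (𝓝[≠] z)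
      (𝓝 (d1 P Q z)) := by
    intro z hz
    have h1 := hasDerivAt_iff_tendsto_slope.1 (hasDerivAt_fr P Q z (hcyc.1 z hz).1)
    refine h1.congr fun ζ => ?_
    rw [slope_def_field]
  have hnhds : ∀ z ∈ Z, Tendsto (fr P Q) (𝓝[≠] z) (𝓝[≠] (fr P Q z)) := fun z hz =>
    (hasDerivAt_fr P Q z (hcyc.1 z hz).1).tendsto_nhdsNE (hd1 z hz)
  have hd1c : ∀ z ∈ Z, Tendsto (d1 P Q) (𝓝[≠] z) (𝓝 (d1 P Q z)) := fun z hz =>
    (d1_contAt (hcyc.1 z hz).1).tendsto.mono_left nhdsWithin_le_nhds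
  have ha0 : ∀ z ∈ Z, a z = 0 := by
    intro z hz
    have t1 := lim2 (a := a) (b := b) hz
    have t2 := (lim2 (a := a) (b := b) (hcyc.1 z hz).2.2).comp (hnhds z hz)
    have t3 := (((hd1c z hz).pow 2).mul t2).div ((hslope z hz).pow 2) (pow_ne_zero 2 (hd1 z hz))
    have t4 := t3.const_mul c
    have t5 : Tendsto (fun ζ => qd Z a b ζ * (ζ - z) ^ 2) (𝓝[≠] z)
        (𝓝 (c * (d1 P Q z ^ 2 * a (fr P Q z) / d1 P Q z ^ 2))) := by
      refine t4.congr' ?_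
      filter_upwards [hΩ z, self_mem_nhdsWithin, (hnhds z hz).eventually self_mem_nhdsWithin]
        with ζ h1 h2 h3
      have h4 : ζ - z ≠ 0 := sub_ne_zero.2 h2
      have h5 : fr P Q ζ - fr P Q z ≠ 0 := sub_ne_zero.2 h3
      simp only [Function.comp, Pi.div_apply]
      rw [hc ζ h1]
      field_simp
    have h6 := tendsto_nhds_unique t1 t5
    rw [ha z hz, mul_div_cancel_left₀ _ (pow_ne_zero 2 (hd1 z hz))] at h6
    have h7 : (1 - c) * a z = 0 := by linear_combination h6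
    rcases mul_eq_zero.1 h7 with h8 | h8
    · exact absurd (sub_eq_zero.1 h8).symm hc1
    · exact h8
  refine hcon fun z hz => ⟨ha0 z hz, ?_⟩
  have t1 := lim1 (a := a) (b := b) hz ha0
  have t2 := (lim1 (a := a) (b := b) (hcyc.1 z hz).2.2 ha0).comp (hnhds z hz)
  have t3 := (((hd1c z hz).pow 2).mul t2).div (hslope z hz) (hd1 z hz)
  have t4 := t3.const_mul c
  have t5 : Tendsto (fun ζ => qd Z a b ζ * (ζ - z)) (𝓝[≠] z)
      (𝓝 (c * (d1 P Q z ^ 2 * b (fr P Q z) / d1 P Q z))) := by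
    refine t4.congr' ?_
    filter_upwards [hΩ z, self_mem_nhdsWithin, (hnhds z hz).eventually self_mem_nhdsWithin]
      with ζ h1 h2 h3
    have h4 : ζ - z ≠ 0 := sub_ne_zero.2 h2
    have h5 : fr P Q ζ - fr P Q z ≠ 0 := sub_ne_zero.2 h3
    simp only [Function.comp, Pi.div_apply]
    rw [hc ζ h1]
    field_simp
  have h6 := tendsto_nhds_unique t1 t5
  rw [hb z hz, ha0 z hz] at h6
  have h9 := hd1 z hz
  have h7 : (1 - c) * b z = 0 := by
    have h10 : c * (d1 P Q z ^ 2 * (b z / d1 P Q z - 0 * d2 P Q z / d1 P Q z ^ 2) / d1 P Q z) =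
        c * b z := by
      field_simp
      ring
    rw [h10] at h6
    linear_combination h6
  rcases mul_eq_zero.1 h7 with h8 | h8
  · exact absurd (sub_eq_zero.1 h8).symm hc1
  · exact h8

theorem task : StINJ2 := main Pool.Agent.W40.RQAF.task

end Pool.Agent.W378.Q2INJ
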