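import Pool.Agent.W803.LV.LV3
import Pool.Agent.W257.LStm3

set_option autoImplicit false

/-! LV-7: irreducibility of `P(Y, a/b)` for rational parameters with small denominator
(helper378). -/

namespace Pool.Agent.W378.LV7
open Polynomial Pool.Agent.W803.LV

/-- powers of a small denominator are small -/
theorem big (K : ℝ) (L : ℕ) (a b : ℝ) (ha : K ^ 2 < |a|)
    (hb : |b| ^ (2 * L) ≤ |a|) : K * |b| ^ L < |a| := by
  have h0 : 0 ≤ |b| ^ L := by positivity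
  have h1 : (|b| ^ L) ^ 2 ≤ |a| := by
    rw [← pow_mul, mul_comm]; exact hb
  have hapos : 0 < |a| := lt_of_le_of_lt (sq_nonneg K) ha
  have h2 : (K * |b| ^ L) ^ 2 < |a| ^ 2 := by
    rw [mul_pow, sq |a|]
    calc K ^ 2 * (|b| ^ L) ^ 2 ≤ K ^ 2 * |a| := mul_le_mul_of_nonneg_left h1 (sq_nonneg K)
      _ < |a| * |a| := mul_lt_mul_of_pos_right ha hapos
  exact lt_of_pow_lt_pow_left₀ 2 hapos.le h2

/-- common denominator -/
theorem denom' (R : ℚ[X]) : ∃ (D : ℕ) (N : ℕ), 0 < D ∧ ∀ a b : ℤ, b ≠ 0 →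
    ∃ z : ℤ, (D : ℚ) * (b : ℚ) ^ N * R.eval ((a : ℚ) / (b : ℚ)) = z := by
  induction R using Polynomial.induction_on' with
  | add R R' ih ih' =>
    obtain ⟨D, N, hD, h⟩ := ih
    obtain ⟨D', N', hD', h'⟩ := ih'
    refine ⟨D * D', N + N', Nat.mul_pos hD hD', fun a b hb => ?_⟩
    obtain ⟨z, hz⟩ := h a b hb
    obtain ⟨z', hz'⟩ := h' a b hb
    refine ⟨D' * b ^ N' * z + D * b ^ N * z', ?_⟩
    push_cast
    rw [eval_add, ← hz, ← hz', pow_add]
    ring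
  | monomial n r =>
    refine ⟨r.den, n, r.den_pos, fun a b hb => ⟨r.num * a ^ n, ?_⟩⟩
    have hb' : (b : ℚ) ≠ 0 := by exact_mod_cast hb
    rw [eval_monomial, div_pow]
    push_cast
    rw [← Rat.mul_den_eq_num]
    field_simp

theorem close_eq' (R : ℚ[X]) (B : ℝ) (e : ℕ) : ∃ (A : ℝ) (M : ℕ), 0 ≤ A ∧ ∀ (a b : ℤ) (g : ℚ),
    b ≠ 0 → A ≤ |(a : ℝ)| → |(b : ℝ)| ^ M ≤ |(a : ℝ)| → (∃ z : ℤ, (b : ℚ) ^ e * g = z) →
    ‖(g : ℂ) - aeval (((a : ℚ) / (b : ℚ) : ℚ) : ℂ) R‖ ≤ B / ‖(((a : ℚ) / (b : ℚ) : ℚ) : ℂ)‖ →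
    g = R.eval ((a : ℚ) / (b : ℚ)) := by
  obtain ⟨D, N, hD, hz⟩ := denom' R
  refine ⟨(D * |B|) ^ 2 + 1, 2 * (N + e + 1), by positivity, fun a b g hb ha hba hgz hg => ?_⟩
  obtain ⟨z, hz⟩ := hz a b hb
  obtain ⟨y, hy⟩ := hgz
  set t : ℚ := (a : ℚ) / (b : ℚ) with ht
  have hDpos : (0 : ℝ) < D := by exact_mod_cast hD
  have hbig := big (D * |B|) (N + e + 1) a b (by linarith) hba
  have hapos : 0 < |(a : ℝ)| := by
    have : 0 ≤ ((D : ℝ) * |B|) ^ 2 := by positivity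
    linarith
  have hbR : (b : ℝ) ≠ 0 := by exact_mod_cast hb
  have hbpos : 0 < |(b : ℝ)| := abs_pos.2 hbR
  have htn : ‖((t : ℚ) : ℂ)‖ = |(a : ℝ)| / |(b : ℝ)| := by
    rw [ht]
    push_cast
    rw [norm_div, Complex.norm_intCast, Complex.norm_intCast]
  have h1 : aeval (t : ℂ) R = ((R.eval t : ℚ) : ℂ) := by
    have h2 := Polynomial.eval_map_apply (algebraMap ℚ ℂ) t (p := R)
    rw [Polynomial.eval_map_algebraMap] at h2
    simpa using h2
  have h3 : (D : ℂ) * (b : ℂ) ^ (N + e) * ((g : ℂ) - aeval (t : ℂ) R) =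
      ((D * b ^ N * y - b ^ e * z : ℤ) : ℂ) := by
    rw [h1, mul_sub]
    have h4 : (D : ℂ) * (b : ℂ) ^ N * ((R.eval t : ℚ) : ℂ) = (z : ℂ) := by
      exact_mod_cast congrArg (Rat.cast : ℚ → ℂ) hz
    have h5 : (b : ℂ) ^ e * ((g : ℚ) : ℂ) = (y : ℂ) := by
      exact_mod_cast congrArg (Rat.cast : ℚ → ℂ) hy
    push_cast
    rw [← h4, ← h5, pow_add]
    ring
  have h5 : |((D * b ^ N * y - b ^ e * z : ℤ) : ℝ)| < 1 := by
    rw [← Complex.norm_intCast, ← h3, norm_mul, norm_mul, norm_pow, Complex.norm_natCast,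
      Complex.norm_intCast]
    have hpos : 0 ≤ (D : ℝ) * |(b : ℝ)| ^ (N + e) := by positivity
    calc (D : ℝ) * |(b : ℝ)| ^ (N + e) * ‖(g : ℂ) - aeval (t : ℂ) R‖
        ≤ D * |(b : ℝ)| ^ (N + e) * (B / ‖((t : ℚ) : ℂ)‖) := mul_le_mul_of_nonneg_left hg hpos
      _ ≤ D * |(b : ℝ)| ^ (N + e) * (|B| / ‖((t : ℚ) : ℂ)‖) := by
          refine mul_le_mul_of_nonneg_left ?_ hpos
          exact div_le_div_of_nonneg_right (le_abs_self B) (norm_nonneg _)
      _ = (D * |B| * |(b : ℝ)| ^ (N + e + 1)) / |(a : ℝ)| := by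
          rw [htn, pow_succ]
          field_simp
      _ < 1 := by rw [div_lt_one hapos]; exact hbig
  have h6 : (D * b ^ N * y - b ^ e * z : ℤ) = 0 := by
    rw [← Int.cast_abs] at h5
    have : |(D * b ^ N * y - b ^ e * z : ℤ)| < 1 := by exact_mod_cast h5
    exact Int.abs_lt_one_iff.1 this
  have hD0 : (D : ℚ) ≠ 0 := by exact_mod_cast hD.ne'
  have hb0 : (b : ℚ) ≠ 0 := by exact_mod_cast hb
  have h7 : (D : ℚ) * b ^ (N + e) * g = D * b ^ (N + e) * R.eval t := by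
    have h8 : ((D * b ^ N * y - b ^ e * z : ℤ) : ℚ) = 0 := by rw [h6]; simp
    push_cast at h8
    rw [← hz, ← hy] at h8
    rw [pow_add]
    linear_combination h8
  exact mul_left_cancel₀ (mul_ne_zero hD0 (pow_ne_zero _ hb0)) h7

/-- the coefficients of a product over roots near infinity -/
theorem claim0 {m : ℕ} (Q : Fin m → ℚ[X]) (C0 : ℝ) (hC0 : 0 ≤ C0) (e : ℕ) (he : e < m)
    (f : Fin e → Fin m) : ∃ (G : ℚ[X][X]) (K : ℝ), 0 ≤ K ∧ G.Monic ∧ G.natDegree = e ∧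
    ∀ (t : ℂ), 1 ≤ ‖t‖ → ∀ η : Fin e → ℂ,
      (∀ j, ‖η j / t - aeval (1 / t) (Q (f j))‖ ≤ C0 * (1 / ‖t‖) ^ (m + 1)) →
      ∀ s, s < e → ‖(∏ j, (X - C (η j))).coeff s - aeval t (G.coeff s)‖ ≤ K / ‖t‖ := by
  classical
  set b : Fin e → ℂ → ℂ := fun j a => a * aeval (1 / a) (Q (f j)) with hb
  have hbL : ∀ j, Lau (b j) := fun j => ⟨1, Q (f j), fun a _ => by rw [pow_one]⟩
  have hcL := coeff_lau (Finset.univ : Finset (Fin e)) b hbL
  choose R B hB0 hB using fun s => (hcL s).poly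
  choose BQ hBQ0 hBQ using fun i => bd0 (Q i)
  set M : ℝ := (∑ i, BQ i) + C0 with hM
  have hM0 : 0 ≤ M := by
    have : 0 ≤ ∑ i, BQ i := Finset.sum_nonneg fun i _ => hBQ0 i
    linarith
  have hBQM : ∀ i, BQ i ≤ ∑ i, BQ i := fun i =>
    Finset.single_le_sum (f := BQ) (fun j _ => hBQ0 j) (Finset.mem_univ i)
  set K : ℝ := e * (1 + M) ^ e * C0 with hK
  have hK0 : 0 ≤ K := by positivity
  set G : ℚ[X][X] := X ^ e + ∑ s ∈ Finset.range e, C (R s) * X ^ s with hG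
  have hGd : (∑ s ∈ Finset.range e, C (R s) * X ^ s : ℚ[X][X]).degree < e := by
    refine (degree_sum_le _ _).trans_lt ?_
    rw [Finset.sup_lt_iff (by exact WithBot.bot_lt_coe e)]
    intro s hs
    rw [Finset.mem_range] at hs
    exact (degree_C_mul_X_pow_le _ _).trans_lt (by exact_mod_cast hs)
  have hGm : G.Monic := monic_X_pow_add hGd
  have hGn : G.natDegree = e := by
    rw [hG, natDegree_add_eq_left_of_degree_lt (by rw [degree_X_pow]; exact hGd), natDegree_X_pow]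
  have hGc : ∀ s, s < e → G.coeff s = R s := by
    intro s hs
    rw [hG, coeff_add, coeff_X_pow, if_neg (by omega), zero_add, finsetSum_coeff]
    rw [Finset.sum_eq_single s]
    · rw [coeff_C_mul, coeff_X_pow, if_pos rfl, mul_one]
    · intro i _ hi
      rw [coeff_C_mul, coeff_X_pow, if_neg (Ne.symm hi), mul_zero]
    · intro h
      exact absurd (Finset.mem_range.2 hs) h
  have hBs0 : 0 ≤ ∑ s ∈ Finset.range e, B s := Finset.sum_nonneg fun s _ => hB0 s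
  refine ⟨G, K + ∑ s ∈ Finset.range e, B s, by positivity, hGm, hGn, ?_⟩
  intro a ha1 η hd s hs
  have hapos : 0 < ‖a‖ := by linarith
  have ha0 : a ≠ 0 := norm_pos_iff.1 hapos
  have hu : ‖(1 / a)‖ ≤ 1 := by
    rw [norm_div, norm_one, div_le_one hapos]
    exact ha1
  have hx' : ∀ j ∈ (Finset.univ : Finset (Fin e)), ‖b j a‖ ≤ ‖a‖ * M := by
    intro j _
    rw [hb]
    show ‖a * aeval (1 / a) (Q (f j))‖ ≤ _
    rw [norm_mul]
    refine mul_le_mul_of_nonneg_left ?_ hapos.le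
    have := hBQ (f j) _ hu
    have := hBQM (f j)
    linarith
  have hpow1 : (1 / ‖a‖) ^ (m + 1) ≤ 1 := pow_le_one₀ (by positivity) (by
    rw [div_le_one hapos]; exact ha1)
  have hdd : ∀ j ∈ (Finset.univ : Finset (Fin e)), ‖η j - b j a‖ ≤
      C0 * ‖a‖ * (1 / ‖a‖) ^ (m + 1) := by
    intro j _
    have e1 : η j - b j a = a * (η j / a - aeval (1 / a) (Q (f j))) := by
      rw [hb]
      field_simp
    rw [e1, norm_mul]
    calc ‖a‖ * ‖η j / a - aeval (1 / a) (Q (f j))‖ ≤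
        ‖a‖ * (C0 * (1 / ‖a‖) ^ (m + 1)) := mul_le_mul_of_nonneg_left (hd j) hapos.le
      _ = _ := by ring
  have hx : ∀ j ∈ (Finset.univ : Finset (Fin e)), ‖η j‖ ≤ ‖a‖ * M := by
    intro j hj
    have e1 : η j = b j a + (η j - b j a) := by ring
    rw [e1]
    refine (norm_add_le _ _).trans ?_
    have h1 := hdd j hj
    have h2 : ‖b j a‖ ≤ ‖a‖ * ∑ i, BQ i := by
      rw [hb]
      show ‖a * aeval (1 / a) (Q (f j))‖ ≤ _
      rw [norm_mul]
      refine mul_le_mul_of_nonneg_left ?_ hapos.le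
      exact (hBQ (f j) _ hu).trans (hBQM (f j))
    have h3 : C0 * ‖a‖ * (1 / ‖a‖) ^ (m + 1) ≤ C0 * ‖a‖ * 1 :=
      mul_le_mul_of_nonneg_left hpow1 (by positivity)
    rw [hM]
    linarith
  have hδ0 : 0 ≤ C0 * ‖a‖ * (1 / ‖a‖) ^ (m + 1) := by positivity
  have hdiff := coeff_diff (Finset.univ : Finset (Fin e)) η (fun j => b j a)
    (by positivity : 0 ≤ ‖a‖ * M) hδ0 hx hx' hdd
  rw [Finset.card_univ, Fintype.card_fin] at hdiff
  have hsmall : e * (1 + ‖a‖ * M) ^ e * (C0 * ‖a‖ * (1 / ‖a‖) ^ (m + 1)) ≤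
      K / ‖a‖ := by
    have h1 : (1 + ‖a‖ * M) ^ e ≤ (‖a‖ * (1 + M)) ^ e :=
      pow_le_pow_left₀ (by positivity) (by nlinarith) e
    obtain ⟨d, hd'⟩ : ∃ d, m = e + 1 + d := ⟨m - e - 1, by omega⟩
    have h2 : ‖a‖ ^ e * (1 / ‖a‖) ^ e = 1 := by
      rw [← mul_pow, mul_one_div_cancel hapos.ne', one_pow]
    have h3 : (1 / ‖a‖) ^ d ≤ 1 := pow_le_one₀ (by positivity) (by
      rw [div_le_one hapos]; exact ha1)
    calc e * (1 + ‖a‖ * M) ^ e * (C0 * ‖a‖ * (1 / ‖a‖) ^ (m + 1)) ≤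
        e * (‖a‖ * (1 + M)) ^ e * (C0 * ‖a‖ * (1 / ‖a‖) ^ (m + 1)) := by
          refine mul_le_mul_of_nonneg_right (mul_le_mul_of_nonneg_left h1 (by positivity)) hδ0
      _ = K * (‖a‖ ^ e * (1 / ‖a‖) ^ e) * (‖a‖ * (1 / ‖a‖)) *
          (1 / ‖a‖) * (1 / ‖a‖) ^ d := by
          rw [hK, hd', mul_pow]
          rw [show e + 1 + d + 1 = e + 1 + 1 + d by ring, pow_add, pow_add, pow_add]
          ring
      _ ≤ K * (‖a‖ ^ e * (1 / ‖a‖) ^ e) * (‖a‖ * (1 / ‖a‖)) *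
          (1 / ‖a‖) * 1 := mul_le_mul_of_nonneg_left h3 (by positivity)
      _ = K / ‖a‖ := by
          rw [h2, mul_one_div_cancel hapos.ne']; ring
  rw [hGc s hs]
  have h2 := hdiff s
  have h3 := hB s a ha1
  have hBs : B s ≤ ∑ s ∈ Finset.range e, B s :=
    Finset.single_le_sum (f := B) (fun j _ => hB0 j) (Finset.mem_range.2 hs)
  have e1 : (∏ j, (X - C (η j))).coeff s - aeval a (R s) =
      ((∏ j, (X - C (η j))).coeff s - (∏ j, (X - C (b j a))).coeff s) +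
      ((∏ j, (X - C (b j a))).coeff s - aeval a (R s)) := by ring
  rw [e1, add_div]
  refine (norm_add_le _ _).trans (add_le_add (h2.trans hsmall) (h3.trans ?_))
  exact div_le_div_of_nonneg_right hBs hapos.le

/-- a factor of a large specialisation is a specialisation of a polynomial over `ℚ[T]` -/
theorem claim' {m : ℕ} (Q : Fin m → ℚ[X]) (C0 : ℝ) (hC0 : 0 ≤ C0) (e : ℕ) (he : e < m)
    (f : Fin e → Fin m) : ∃ (G : ℚ[X][X]) (A : ℝ) (M : ℕ), 0 ≤ A ∧ G.Monic ∧ G.natDegree = e ∧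
    ∀ (a b : ℤ), b ≠ 0 → A ≤ |(a : ℝ)| → (∀ L, L ≤ M → |(b : ℝ)| ^ L ≤ |(a : ℝ)|) →
      1 ≤ ‖(((a : ℚ) / (b : ℚ) : ℚ) : ℂ)‖ →
      ∀ (g : ℚ[X]), g.Monic → g.natDegree = e →
      (∀ s, ∃ z : ℤ, (b : ℚ) ^ e * g.coeff s = z) → ∀ η : Fin e → ℂ,
      g.map (algebraMap ℚ ℂ) = ∏ j, (X - C (η j)) →
      (∀ j, ‖η j / (((a : ℚ) / (b : ℚ) : ℚ) : ℂ) -
        aeval (1 / (((a : ℚ) / (b : ℚ) : ℚ) : ℂ)) (Q (f j))‖ ≤
          C0 * (1 / ‖(((a : ℚ) / (b : ℚ) : ℚ) : ℂ)‖) ^ (m + 1)) →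
      g = G.map (evalRingHom ((a : ℚ) / (b : ℚ))) := by
  classical
  obtain ⟨G, K, hK0, hGm, hGn, hG⟩ := claim0 Q C0 hC0 e he f
  choose A M hA0 hA using fun s => close_eq' (G.coeff s) K e
  refine ⟨G, ∑ s ∈ Finset.range e, A s, ∑ s ∈ Finset.range e, M s,
    Finset.sum_nonneg fun s _ => hA0 s, hGm, hGn, ?_⟩
  intro a b hb ha hba ht g hg hgn hgz η hη hd
  have hcoeff : ∀ s, s < e → g.coeff s = (G.coeff s).eval ((a : ℚ) / (b : ℚ)) := by
    intro s hs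
    refine hA s a b (g.coeff s) hb ?_ (hba _ ?_) (hgz s) ?_
    · exact (Finset.single_le_sum (f := A) (fun j _ => hA0 j) (Finset.mem_range.2 hs)).trans ha
    · exact Finset.single_le_sum (f := M) (fun j _ => Nat.zero_le _) (Finset.mem_range.2 hs)
    · have h1 : ((g.coeff s : ℚ) : ℂ) = (∏ j, (X - C (η j))).coeff s := by
        rw [← hη, coeff_map]
        rfl
      rw [h1]
      exact hG _ ht η hd s hs
  ext s
  rw [coeff_map]
  rcases lt_trichotomy s e with hs | hs | hs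
  · exact hcoeff s hs
  · rw [hs]
    have h1 : g.coeff e = 1 := by rw [← hgn]; exact hg
    have h2 : G.coeff e = 1 := by
      have := hGm.coeff_natDegree
      rwa [hGn] at this
    rw [h1, h2]
    simp
  · rw [coeff_eq_zero_of_natDegree_lt (by rw [hgn]; exact hs),
      coeff_eq_zero_of_natDegree_lt (by rw [hGn]; exact hs)]
    simp

/-- non divisibility for large specialisations -/
theorem nondvd' {F G : ℚ[X][X]} (hG : G.Monic) (h : ¬ G ∣ F) : ∃ A : ℝ, ∀ t : ℚ, A ≤ |(t : ℝ)| →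
    ¬ G.map (evalRingHom t) ∣ F.map (evalRingHom t) := by
  have h1 : F %ₘ G ≠ 0 := fun h' => h ((modByMonic_eq_zero_iff_dvd hG).1 h')
  obtain ⟨n, hn⟩ : ∃ n, (F %ₘ G).coeff n ≠ 0 := by
    by_contra hcon
    push Not at hcon
    exact h1 (ext hcon)
  set w := (F %ₘ G).coeff n with hw
  refine ⟨1 + ∑ r ∈ w.roots.toFinset, |(r : ℝ)|, fun a ha hd => ?_⟩
  have h2 : (F %ₘ G).map (evalRingHom a) = 0 := by
    rw [map_modByMonic _ hG]
    exact (modByMonic_eq_zero_iff_dvd (hG.map _)).2 hd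
  have h3 : w.eval a = 0 := by
    have h4 := congrArg (fun P => coeff P n) h2
    simpa [coeff_map] using h4
  have h5 : a ∈ w.roots.toFinset := by
    rw [Multiset.mem_toFinset, mem_roots hn]
    exact h3
  have h6 : |(a : ℝ)| ≤ ∑ r ∈ w.roots.toFinset, |(r : ℝ)| :=
    Finset.single_le_sum (f := fun r : ℚ => |(r : ℝ)|) (fun r _ => abs_nonneg _) h5
  linarith

/-- integrality of the scaled specialisation -/
theorem coeff_int {m : ℕ} (P : MvPolynomial (Fin 2) ℤ) (hdeg : P.totalDegree = m) (a b : ℤ)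
    (hb : b ≠ 0) (i : ℕ) (hi : i ≤ m) : ∃ z : ℤ,
    (MvPolynomial.aeval ![(X : ℚ[X]), C ((a : ℚ) / (b : ℚ))] P).coeff i * (b : ℚ) ^ (m - i) = z := by
  classical
  have hb' : (b : ℚ) ≠ 0 := by exact_mod_cast hb
  rw [MvPolynomial.aeval_def, MvPolynomial.eval₂_eq', finsetSum_coeff, Finset.sum_mul]
  have hterm : ∀ d ∈ P.support, ∃ z : ℤ,
      ((algebraMap ℤ ℚ[X]) (MvPolynomial.coeff d P) *
        ∏ i, (![(X : ℚ[X]), C ((a : ℚ) / (b : ℚ))] : Fin 2 → ℚ[X]) i ^ d i).coeff i *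
          (b : ℚ) ^ (m - i) = z := by
    intro d hd
    have h2 : d 0 + d 1 ≤ m := by
      have h3 := MvPolynomial.le_totalDegree hd
      rw [hdeg, Finsupp.sum_fintype _ _ (by simp)] at h3
      simpa using h3
    rw [Fin.prod_univ_two]
    have e : (algebraMap ℤ ℚ[X]) (MvPolynomial.coeff d P) *
        ((![(X : ℚ[X]), C ((a : ℚ) / (b : ℚ))] : Fin 2 → ℚ[X]) 0 ^ d 0 *
          (![(X : ℚ[X]), C ((a : ℚ) / (b : ℚ))] : Fin 2 → ℚ[X]) 1 ^ d 1) =
        C (((MvPolynomial.coeff d P : ℤ) : ℚ) * ((a : ℚ) / (b : ℚ)) ^ d 1) * X ^ d 0 := by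
      simp
      ring
    rw [e, coeff_C_mul_X_pow]
    by_cases h : i = d 0
    · rw [if_pos h]
      refine ⟨MvPolynomial.coeff d P * a ^ d 1 * b ^ (m - i - d 1), ?_⟩
      have h4 : m - i = (m - i - d 1) + d 1 := by omega
      rw [div_pow]
      push_cast
      rw [h4, pow_add, show m - i - d 1 + d 1 - d 1 = m - i - d 1 by omega]
      field_simp
    · rw [if_neg h]
      exact ⟨0, by simp⟩
  have hz : ∀ d, ∃ z : ℤ, d ∈ P.support → ((algebraMap ℤ ℚ[X]) (MvPolynomial.coeff d P) *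
        ∏ i, (![(X : ℚ[X]), C ((a : ℚ) / (b : ℚ))] : Fin 2 → ℚ[X]) i ^ d i).coeff i *
          (b : ℚ) ^ (m - i) = z := by
    intro d
    by_cases hd : d ∈ P.support
    · obtain ⟨z, hz⟩ := hterm d hd
      exact ⟨z, fun _ => hz⟩
    · exact ⟨0, fun h => absurd h hd⟩
  choose z hz using hz
  refine ⟨∑ d ∈ P.support, z d, ?_⟩
  rw [Int.cast_sum]
  exact Finset.sum_congr rfl fun d hd => hz d hd

/-- integrality of the factors of the specialisation -/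
theorem factor_int {m : ℕ} (ρ : Fin m → ℤ) (P : MvPolynomial (Fin 2) ℤ)
    (hdeg : P.totalDegree = m)
    (htop : MvPolynomial.homogeneousComponent m P
      = ∏ i, (MvPolynomial.X 0 - MvPolynomial.C (ρ i) * MvPolynomial.X 1)) (a b : ℤ)
    (hb : b ≠ 0) (g : ℚ[X]) (hg : g.Monic)
    (hd : g ∣ MvPolynomial.aeval ![(X : ℚ[X]), C ((a : ℚ) / (b : ℚ))] P) (s : ℕ) :
    ∃ z : ℤ, (b : ℚ) ^ g.natDegree * g.coeff s = z := by
  classical
  set q := MvPolynomial.aeval ![(X : ℚ[X]), C ((a : ℚ) / (b : ℚ))] P with hq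
  obtain ⟨hqm, hqd⟩ := monic_spec ρ P hdeg htop ℚ ((a : ℚ) / (b : ℚ))
  rw [← hq] at hqm hqd
  have hlift : q.scaleRoots (b : ℚ) ∈ Polynomial.lifts (algebraMap ℤ ℚ) := by
    rw [lifts_iff_coeff_lifts]
    intro i
    rw [coeff_scaleRoots, hqd]
    rcases le_or_gt i m with hi | hi
    · obtain ⟨z, hz⟩ := coeff_int P hdeg a b hb i hi
      exact ⟨z, by rw [hq, hz]; rfl⟩
    · rw [coeff_eq_zero_of_natDegree_lt (by rw [hqd]; exact hi), zero_mul]
      exact ⟨0, by simp⟩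
  obtain ⟨q', hq', -, hq'm⟩ := lifts_and_natDegree_eq_and_monic hlift
    ((monic_scaleRoots_iff (b : ℚ)).2 hqm)
  have h1 : g.scaleRoots (b : ℚ) ∣ q'.map (algebraMap ℤ ℚ) := by
    rw [hq']
    exact scaleRoots_dvd _ _ hd
  obtain ⟨g', hg'⟩ := IsIntegrallyClosed.eq_map_mul_C_of_dvd ℚ hq'm h1
  have hgm' : (g.scaleRoots (b : ℚ)).Monic := (monic_scaleRoots_iff (b : ℚ)).2 hg
  rw [hgm'.leadingCoeff, C_1, mul_one] at hg'
  rcases le_or_gt s g.natDegree with hs | hs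
  · refine ⟨b ^ s * g'.coeff s, ?_⟩
    have h2 := congrArg (fun p => coeff p s) hg'
    simp only [coeff_map, coeff_scaleRoots] at h2
    have h3 : ((g'.coeff s : ℤ) : ℚ) = g.coeff s * (b : ℚ) ^ (g.natDegree - s) := h2
    push_cast
    rw [h3]
    obtain ⟨d, hd⟩ := Nat.exists_eq_add_of_le hs
    rw [hd, show s + d - s = d by omega, pow_add]
    ring
  · rw [coeff_eq_zero_of_natDegree_lt hs]
    exact ⟨0, by simp⟩

end Pool.Agent.W378.LV7

namespace Pool.Agent.W378.LV7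
open Polynomial Pool.Agent.W803.LV Pool.Agent.W257

theorem main : S_irr2 := by
  classical
  intro m ρ P hm hρ hdeg htop hirr
  obtain ⟨Q, C0, A0, hC0, hA0, hexp⟩ := expand hm ρ hρ P hdeg htop m
  set F : ℚ[X][X] := MvPolynomial.aeval ![(X : ℚ[X][X]), C X] P with hF
  have hFirr : Irreducible F := irr_two P hirr
  have hFd : F.natDegree = m := (monic_spec ρ P hdeg htop ℚ[X] X).2
  have hcl := fun x : (Σ e : Fin m, (Fin e → Fin m)) => claim' Q C0 hC0 x.1 x.1.2 x.2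
  choose G A M hAx0 hGm hGd hGA using hcl
  have hnd : ∀ x : (Σ e : Fin m, (Fin e → Fin m)), ∃ A' : ℝ, 0 < (x.1 : ℕ) → ∀ t : ℚ,
      A' ≤ |(t : ℝ)| → ¬ (G x).map (evalRingHom t) ∣ F.map (evalRingHom t) := by
    intro x
    by_cases hx : 0 < (x.1 : ℕ)
    · have h1 : ¬ G x ∣ F := by
        rintro ⟨H, hH⟩
        rcases hFirr.isUnit_or_isUnit hH with hu | hu
        · have h2 := natDegree_eq_zero_of_isUnit hu
          rw [hGd] at h2
          omega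
        · have h2 := natDegree_eq_zero_of_isUnit hu
          have h3 : F.natDegree = (G x).natDegree + H.natDegree := by
            rw [hH, natDegree_mul (hGm x).ne_zero hu.ne_zero]
          rw [hFd, hGd, h2] at h3
          have := x.1.2
          omega
      obtain ⟨A', hA'⟩ := nondvd' (hGm x) h1
      exact ⟨A', fun _ => hA'⟩
    · exact ⟨0, fun h => absurd h hx⟩
  choose A' hA' using hnd
  -- size of `t`
  set T : ℝ := A0 + ∑ x, |A' x| with hT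
  have hS0' : 0 ≤ ∑ x, |A' x| := Finset.sum_nonneg fun x _ => abs_nonneg _
  have hT0 : 0 ≤ T := by linarith
  set W : ℝ := T ^ 2 + 1 + ∑ x, A x with hW
  have hSA : 0 ≤ ∑ x, A x := Finset.sum_nonneg fun x _ => hAx0 x
  refine ⟨⌈W⌉₊, 2 + ∑ x, M x, fun a b hb ha hba => ?_⟩
  have hna : (a.natAbs : ℝ) = |(a : ℝ)| := by
    rw [← Int.cast_abs, Int.abs_eq_natAbs]
    simp
  have hnb : (b.natAbs : ℝ) = |(b : ℝ)| := by
    rw [← Int.cast_abs, Int.abs_eq_natAbs]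
    simp
  have haW : W ≤ |(a : ℝ)| := by
    have h1 : W ≤ (⌈W⌉₊ : ℝ) := Nat.le_ceil W
    have h2 : ((⌈W⌉₊ : ℕ) : ℝ) ≤ (a.natAbs : ℝ) := by exact_mod_cast ha
    linarith
  have hb1 : 1 ≤ |(b : ℝ)| := by
    rw [← hnb]
    exact_mod_cast Int.natAbs_pos.2 hb
  have hbaR : |(b : ℝ)| ^ (2 + ∑ x, M x) ≤ |(a : ℝ)| := by
    rw [← hna, ← hnb]
    exact_mod_cast hba
  have hbL : ∀ L, L ≤ 2 + ∑ x, M x → |(b : ℝ)| ^ L ≤ |(a : ℝ)| := fun L hL =>
    (pow_le_pow_right₀ hb1 hL).trans hbaR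
  set t : ℚ := (a : ℚ) / (b : ℚ) with ht
  have hbpos : 0 < |(b : ℝ)| := by linarith
  have htabs : |(t : ℝ)| = |(a : ℝ)| / |(b : ℝ)| := by
    rw [ht]
    push_cast
    rw [abs_div]
  have htn : ‖((t : ℚ) : ℂ)‖ = |(t : ℝ)| := by
    rw [htabs, ht]
    push_cast
    rw [norm_div, Complex.norm_intCast, Complex.norm_intCast]
  have htT : T ≤ |(t : ℝ)| := by
    rw [htabs, le_div_iff₀ hbpos]
    have h1 := big T 1 a b (by linarith) (hbL _ (by omega))
    rw [pow_one] at h1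
    exact h1.le
  have htA0 : A0 ≤ |(t : ℝ)| := by linarith
  have ht1 : 1 ≤ |(t : ℝ)| := by linarith
  have haA : ∀ x, A x ≤ |(a : ℝ)| := fun x => by
    have h1 := Finset.single_le_sum (f := A) (fun y _ => hAx0 y) (Finset.mem_univ x)
    have h2 : 0 ≤ T ^ 2 := sq_nonneg T
    linarith
  have hMx : ∀ x, ∀ L, L ≤ M x → |(b : ℝ)| ^ L ≤ |(a : ℝ)| := fun x L hL => by
    have h1 := Finset.single_le_sum (f := M) (fun y _ => Nat.zero_le _) (Finset.mem_univ x)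
    exact hbL L (by omega)
  have htA' : ∀ x, A' x ≤ |(t : ℝ)| := fun x => by
    have h1 : |A' x| ≤ ∑ x, |A' x| := Finset.single_le_sum (f := fun x => |A' x|)
      (fun y _ => abs_nonneg _) (Finset.mem_univ x)
    have := le_abs_self (A' x)
    linarith
  set q : ℚ[X] := MvPolynomial.aeval ![(X : ℚ[X]), C t] P with hq
  obtain ⟨hqm, hqd⟩ := monic_spec ρ P hdeg htop ℚ t
  rw [← hq] at hqm hqd
  have hFQ : F.map (evalRingHom t) = q := by
    have h := map_spec P (evalRingHom t) (X : ℚ[X])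
    rw [coe_evalRingHom, eval_X] at h
    exact h
  have hqC : q.map (algebraMap ℚ ℂ) = MvPolynomial.aeval ![(X : ℂ[X]), C (t : ℂ)] P :=
    map_spec P (algebraMap ℚ ℂ) t
  have hq1 : q ≠ 1 := by
    intro h
    rw [h, natDegree_one] at hqd
    omega
  rw [hqm.irreducible_iff_lt_natDegree_lt hq1]
  intro g hg hgd hgq
  rw [Finset.mem_Ioc, hqd] at hgd
  have hem : g.natDegree < m := by omega
  -- complex roots
  have hgC : (g.map (algebraMap ℚ ℂ)).Monic := hg.map _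
  have hgCd : (g.map (algebraMap ℚ ℂ)).natDegree = g.natDegree := hg.natDegree_map _
  obtain ⟨η, hη⟩ : ∃ η : Fin g.natDegree → ℂ, g.map (algebraMap ℚ ℂ) = ∏ j, (X - C (η j)) := by
    have h := exists_roots _ hgC
    rw [hgCd] at h
    exact h
  have hroot : ∀ j, MvPolynomial.aeval ![η j, (t : ℂ)] P = 0 := by
    intro j
    have h1 : (g.map (algebraMap ℚ ℂ)).eval (η j) = 0 := by
      rw [hη, eval_prod]
      exact Finset.prod_eq_zero (Finset.mem_univ j) (by simp)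
    have h2 : (q.map (algebraMap ℚ ℂ)).eval (η j) = 0 := by
      obtain ⟨h, hh⟩ := hgq
      rw [hh, Polynomial.map_mul, eval_mul, h1, zero_mul]
    rw [hqC] at h2
    have h3 := MvPolynomial.map_aeval (![(X : ℂ[X]), C (t : ℂ)]) (evalRingHom (η j)) P
    rw [coe_evalRingHom, h2] at h3
    rw [h3, MvPolynomial.aeval_def, MvPolynomial.coe_eval₂Hom]
    congr 1
    · exact RingHom.ext_int _ _
    · funext i
      fin_cases i
      · simp
      · simp
  have hf : ∀ j, ∃ i, ‖η j / (t : ℂ) - aeval (1 / (t : ℂ)) (Q i)‖ ≤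
      C0 * (1 / ‖(t : ℂ)‖) ^ (m + 1) := by
    intro j
    exact hexp (η j) (t : ℂ) (by rw [htn]; exact htA0) (hroot j)
  choose f hf using hf
  have h1 := hGA ⟨⟨g.natDegree, hem⟩, f⟩ a b hb (haA _) (hMx _) (by rw [← ht, htn]; exact ht1)
    g hg rfl (factor_int ρ P hdeg htop a b hb g hg hgq) η hη hf
  refine hA' ⟨⟨g.natDegree, hem⟩, f⟩ hgd.1 t (htA' _) ?_
  rw [ht, ← h1, ← ht, hFQ]
  exact hgq

end Pool.Agent.W378.LV7
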