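/-
f4aa65-C (subtask 208): connectedness of the path space, and the fundamental group of a space with
a finite good cover is finitely generated.  Lemmas for MP_f4aa65_ag.
-/
import Mathlib

open Polynomial Topology

namespace Pool.Agent.W378.F4C

theorem path_space_const {Y : Type} [TopologicalSpace Y] {ι : Type} (D : ι → Set Y)
    (hD : ∀ i, IsOpen (D i)) (hcov : ∀ y, ∃ i, y ∈ D i) (y₀ : Y) {β : Type*}
    (Φ : ∀ t : Y, Path.Homotopic.Quotient y₀ t → β)
    (hΦ : ∀ (i : ι) (t t' : Y) (q : Path.Homotopic.Quotient y₀ t) (γ : Path t t'),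
      (∀ τ, γ τ ∈ D i) → Φ t' (q.trans (.mk γ)) = Φ t q)
    (t : Y) (q : Path.Homotopic.Quotient y₀ t) : Φ t q = Φ y₀ (.refl y₀) := by
  induction q using Path.Homotopic.Quotient.ind with
  | mk γ =>
  let F : unitInterval → β := fun τ =>
    Φ (γ τ) (Path.Homotopic.Quotient.mk ((γ.subpath 0 τ).cast γ.source.symm rfl))
  have key : ∀ (i : ι) (a b : unitInterval), (∀ s ∈ Set.uIcc a b, γ s ∈ D i) → F b = F a := by
    intro i a b h
    have h1 := hΦ i (γ a) (γ b)
      (Path.Homotopic.Quotient.mk ((γ.subpath 0 a).cast γ.source.symm rfl)) (γ.subpath a b) (by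
        intro τ
        have : γ.subpath a b τ ∈ Set.range (γ.subpath a b) := ⟨τ, rfl⟩
        rw [Path.range_subpath] at this
        obtain ⟨s, hs, hs'⟩ := this
        rw [← hs']
        exact h s hs)
    show Φ (γ b) _ = Φ (γ a) _
    rw [← h1]
    congr 1
    rw [← Path.Homotopic.Quotient.mk_trans, Path.Homotopic.Quotient.eq]
    have h2 : (((γ.subpath 0 a).trans (γ.subpath a b)).Homotopic (γ.subpath 0 b)) :=
      ⟨Path.Homotopy.subpathTransSubpath γ 0 a b⟩
    have h3 := (h2.pathCast γ.source.symm rfl).symm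
    convert h3 using 1
    ext s
    simp [Path.trans_apply]
  have hloc : IsLocallyConstant F := by
    rw [IsLocallyConstant.iff_eventually_eq]
    intro a
    obtain ⟨i, hi⟩ := hcov (γ a)
    have hnh : γ ⁻¹' (D i) ∈ 𝓝 a := ((hD i).preimage γ.continuous).mem_nhds hi
    obtain ⟨b, c, habc, hnhd, hsub⟩ := exists_Icc_mem_subset_of_mem_nhds hnh
    filter_upwards [hnhd] with b' hb'
    apply key i
    intro s hs
    apply hsub
    exact (Set.uIcc_subset_Icc habc hb') hs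
  have h01 : F 0 = F 1 := hloc.apply_eq_of_preconnectedSpace 0 1
  have h0 : F 0 = Φ y₀ (.refl y₀) := by
    show Φ (γ 0) _ = _
    have : ∀ (y : Y) (h : y₀ = y), Φ y (Path.Homotopic.Quotient.mk ((Path.refl y).cast h rfl))
        = Φ y₀ (.refl y₀) := by
      intro y h
      subst h
      rfl
    rw [← this (γ 0) γ.source.symm, Path.subpath_self]
  have h1 : F 1 = Φ t (.mk γ) := by
    show Φ (γ 1) _ = _
    have : ∀ (y : Y) (h : y = t), Φ y (Path.Homotopic.Quotient.mk (γ.cast rfl h))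
        = Φ t (.mk γ) := by
      intro y h
      subst h
      rfl
    rw [← this (γ 1) γ.target, Path.subpath_zero_one]
    congr 1
  rw [← h1, ← h01, h0]

theorem f4c_symm_trans_cancel {Y : Type} [TopologicalSpace Y] {a b c : Y}
    (p : Path.Homotopic.Quotient a b) (q : Path.Homotopic.Quotient b c) :
    p.symm.trans (p.trans q) = q := by
  rw [← Path.Homotopic.Quotient.trans_assoc, Path.Homotopic.Quotient.symm_trans,
    Path.Homotopic.Quotient.refl_trans]

theorem f4c_trans_symm_cancel {Y : Type} [TopologicalSpace Y] {a b c : Y}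
    (p : Path.Homotopic.Quotient a b) (q : Path.Homotopic.Quotient a c) :
    p.trans (p.symm.trans q) = q := by
  rw [← Path.Homotopic.Quotient.trans_assoc, Path.Homotopic.Quotient.trans_symm,
    Path.Homotopic.Quotient.refl_trans]

theorem f4c_trans_mem {Y : Type} [TopologicalSpace Y] {a b c : Y} {U : Set Y}
    (p : Path a b) (q : Path b c) (hp : ∀ τ, p τ ∈ U) (hq : ∀ τ, q τ ∈ U) :
    ∀ τ, (p.trans q) τ ∈ U := by
  intro τ
  have h : (p.trans q) τ ∈ Set.range (p.trans q) := ⟨τ, rfl⟩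
  rw [Path.trans_range] at h
  rcases h with ⟨s, hs⟩ | ⟨s, hs⟩
  · rw [← hs]; exact hp s
  · rw [← hs]; exact hq s

theorem f4c_symm_mem {Y : Type} [TopologicalSpace Y] {a b : Y} {U : Set Y}
    (p : Path a b) (hp : ∀ τ, p τ ∈ U) : ∀ τ, p.symm τ ∈ U := by
  intro τ
  exact hp _

theorem fundamentalGroup_fg {Y : Type} [TopologicalSpace Y] {ι : Type} [Finite ι] (D : ι → Set Y)
    (hD : ∀ i, IsOpen (D i)) (hcov : ∀ y, ∃ i, y ∈ D i)
    (hsc : ∀ i (t t' : Y) (γ γ' : Path t t'), (∀ τ, γ τ ∈ D i) → (∀ τ, γ' τ ∈ D i) → γ.Homotopic γ')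
    (hint : ∀ i j, ∀ t ∈ D i ∩ D j, ∀ t' ∈ D i ∩ D j, JoinedIn (D i ∩ D j) t t')
    (y₀ : Y) : Group.FG (FundamentalGroup Y y₀) := by
  classical
  have hex : ∀ i, ∃ p : Σ y, Path.Homotopic.Quotient y₀ y,
      ∀ t (_ : Path.Homotopic.Quotient y₀ t), t ∈ D i → p.1 ∈ D i := by
    intro i
    by_cases h : ∃ t ∈ D i, Nonempty (Path.Homotopic.Quotient y₀ t)
    · obtain ⟨t, ht, ⟨q⟩⟩ := h
      exact ⟨⟨t, q⟩, fun _ _ _ => ht⟩
    · refine ⟨⟨y₀, .refl y₀⟩, fun t q ht => ?_⟩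
      exact absurd ⟨t, ht, ⟨q⟩⟩ h
  choose p hp using hex
  let d : ι → Y := fun i => (p i).1
  let T : ∀ i, Path.Homotopic.Quotient y₀ (d i) := fun i => (p i).2
  have hd : ∀ i t (_ : Path.Homotopic.Quotient y₀ t), t ∈ D i → d i ∈ D i := hp
  -- connecting elements
  let S : ι → ι → Set (FundamentalGroup Y y₀) := fun i j =>
    {g | ∃ (x : Y) (γ : Path x (d i)) (γ' : Path x (d j)), (∀ τ, γ τ ∈ D i) ∧ (∀ τ, γ' τ ∈ D j) ∧
      g = (T i).trans ((Path.Homotopic.Quotient.mk γ.symm).trans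
        ((Path.Homotopic.Quotient.mk γ').trans (T j).symm))}
  have hSsub : ∀ i j, (S i j).Subsingleton := by
    rintro i j g ⟨x, γ, γ', hγ, hγ', rfl⟩ g' ⟨x', δ, δ', hδ, hδ', rfl⟩
    have hx : x ∈ D i ∩ D j := ⟨by simpa using hγ 0, by simpa using hγ' 0⟩
    have hx' : x' ∈ D i ∩ D j := ⟨by simpa using hδ 0, by simpa using hδ' 0⟩
    obtain ⟨ε, hε⟩ := hint i j x hx x' hx'
    have e1 : Path.Homotopic.Quotient.mk γ.symm
        = (Path.Homotopic.Quotient.mk δ.symm).trans (Path.Homotopic.Quotient.mk ε.symm) := by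
      rw [← Path.Homotopic.Quotient.mk_trans, Path.Homotopic.Quotient.eq]
      exact hsc i _ _ _ _ (f4c_symm_mem _ hγ)
        (f4c_trans_mem _ _ (f4c_symm_mem _ hδ) (f4c_symm_mem _ fun τ => (hε τ).1))
    have e2 : Path.Homotopic.Quotient.mk γ'
        = (Path.Homotopic.Quotient.mk ε).trans (Path.Homotopic.Quotient.mk δ') := by
      rw [← Path.Homotopic.Quotient.mk_trans, Path.Homotopic.Quotient.eq]
      exact hsc j _ _ _ _ hγ' (f4c_trans_mem _ _ (fun τ => (hε τ).2) hδ')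
    rw [e1, e2, Path.Homotopic.Quotient.mk_symm ε]
    simp only [Path.Homotopic.Quotient.trans_assoc, f4c_symm_trans_cancel]
  obtain ⟨i₀, hi₀⟩ := hcov y₀
  have hd₀ : d i₀ ∈ D i₀ := hd i₀ y₀ (.refl y₀) hi₀
  obtain ⟨γ₀, hγ₀⟩ := hint i₀ i₀ y₀ ⟨hi₀, hi₀⟩ (d i₀) ⟨hd₀, hd₀⟩
  let g₀ : FundamentalGroup Y y₀ := (Path.Homotopic.Quotient.mk γ₀).trans (T i₀).symm
  let A : Set (FundamentalGroup Y y₀) := insert g₀ (⋃ i, ⋃ j, S i j)
  have hA : A.Finite := by
    apply Set.Finite.insert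
    exact Set.finite_iUnion fun i => Set.finite_iUnion fun j => (hSsub i j).finite
  let K : Subgroup (FundamentalGroup Y y₀) := Subgroup.closure A
  have hSK : ∀ i j, S i j ⊆ K := fun i j =>
    ((Set.subset_iUnion_of_subset i (Set.subset_iUnion_of_subset j subset_rfl)).trans
      (Set.subset_insert _ _)).trans Subgroup.subset_closure
  have hgK : g₀ ∈ K := Subgroup.subset_closure (Set.mem_insert _ _)
  let ψ : ∀ (i : ι) (t : Y) (_ : Path.Homotopic.Quotient y₀ t) (_ : Path t (d i)),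
      FundamentalGroup Y y₀ := fun i t q γ =>
        (q.trans (Path.Homotopic.Quotient.mk γ)).trans (T i).symm
  let Φ : ∀ t : Y, Path.Homotopic.Quotient y₀ t → Set (FundamentalGroup Y y₀) := fun t q =>
    {g | ∃ (i : ι) (γ : Path t (d i)), (∀ τ, γ τ ∈ D i) ∧ ∃ k ∈ K, g = k * ψ i t q γ}
  have hΦA : ∀ (i : ι) (t : Y) (q : Path.Homotopic.Quotient y₀ t) (γ : Path t (d i)),
      (∀ τ, γ τ ∈ D i) → Φ t q = {g | ∃ k ∈ K, g = k * ψ i t q γ} := by
    intro i t q γ hγ
    ext g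
    constructor
    · rintro ⟨j, γ', hγ', k, hk, rfl⟩
      let c : FundamentalGroup Y y₀ := (T i).trans ((Path.Homotopic.Quotient.mk γ.symm).trans
        ((Path.Homotopic.Quotient.mk γ').trans (T j).symm))
      have hc : c ∈ K := hSK i j ⟨t, γ, γ', hγ, hγ', rfl⟩
      refine ⟨k * c, K.mul_mem hk hc, ?_⟩
      have : ψ j t q γ' = c * ψ i t q γ := by
        rw [FundamentalGroup.mul_def]
        show (q.trans (Path.Homotopic.Quotient.mk γ')).trans (T j).symm
          = ((q.trans (Path.Homotopic.Quotient.mk γ)).trans (T i).symm).trans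
            ((T i).trans ((Path.Homotopic.Quotient.mk γ.symm).trans
        ((Path.Homotopic.Quotient.mk γ').trans (T j).symm)))
        rw [Path.Homotopic.Quotient.mk_symm γ]
        simp only [Path.Homotopic.Quotient.trans_assoc, f4c_symm_trans_cancel,
          f4c_trans_symm_cancel]
      rw [this, mul_assoc]
    · rintro ⟨k, hk, rfl⟩
      exact ⟨i, γ, hγ, k, hk, rfl⟩
  have hconst := path_space_const D hD hcov y₀ Φ (by
    intro i t t' q γ hγ
    have ht : t ∈ D i := by simpa using hγ 0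
    have ht' : t' ∈ D i := by simpa using hγ 1
    have hdi : d i ∈ D i := hd i t q ht
    obtain ⟨δ, hδ⟩ := hint i i t' ⟨ht', ht'⟩ (d i) ⟨hdi, hdi⟩
    rw [hΦA i t' _ δ (fun τ => (hδ τ).1), hΦA i t _ (γ.trans δ)
      (f4c_trans_mem _ _ hγ (fun τ => (hδ τ).1))]
    have : ψ i t' (q.trans (Path.Homotopic.Quotient.mk γ)) δ = ψ i t q (γ.trans δ) := by
      show ((q.trans (Path.Homotopic.Quotient.mk γ)).trans (Path.Homotopic.Quotient.mk δ)).trans
        (T i).symm = (q.trans (Path.Homotopic.Quotient.mk (γ.trans δ))).trans (T i).symm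
      rw [Path.Homotopic.Quotient.mk_trans]
      simp only [Path.Homotopic.Quotient.trans_assoc]
    rw [this])
  rw [Group.fg_iff]
  refine ⟨A, ?_, hA⟩
  rw [eq_top_iff]
  intro q _
  have h1 := hconst y₀ q
  rw [hΦA i₀ y₀ q γ₀ (fun τ => (hγ₀ τ).1), hΦA i₀ y₀ _ γ₀ (fun τ => (hγ₀ τ).1)] at h1
  have h2 : ψ i₀ y₀ q γ₀ = g₀ * q := by
    rw [FundamentalGroup.mul_def]
    show (Path.Homotopic.Quotient.trans q (Path.Homotopic.Quotient.mk γ₀)).trans (T i₀).symm =
      Path.Homotopic.Quotient.trans q ((Path.Homotopic.Quotient.mk γ₀).trans (T i₀).symm)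
    rw [Path.Homotopic.Quotient.trans_assoc]
  have h3 : ψ i₀ y₀ (.refl y₀) γ₀ = g₀ := by
    show (Path.Homotopic.Quotient.trans (.refl y₀) (Path.Homotopic.Quotient.mk γ₀)).trans
      (T i₀).symm = (Path.Homotopic.Quotient.mk γ₀).trans (T i₀).symm
    rw [Path.Homotopic.Quotient.refl_trans]
  rw [h2, h3] at h1
  have h4 : g₀ * q ∈ {g | ∃ k ∈ K, g = k * g₀} := by
    rw [← h1]
    exact ⟨1, K.one_mem, (one_mul _).symm⟩
  obtain ⟨k, hk, hkq⟩ := h4
  have h5 : g₀ * q ∈ K := by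
    rw [hkq]
    exact K.mul_mem hk hgK
  exact (Subgroup.mul_mem_cancel_left K hgK).mp h5

end Pool.Agent.W378.F4C
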