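import Pool.Agent.W785.DF.Stubs2
import Pool.Agent.H459R3.NS.Phys2

/-! # DF2-INIT: Fourier coefficients of smooth fields; a decay lemma -/

open MeasureTheory Set Filter Topology
open scoped ContDiff

namespace Pool.Agent.W378.DFI

open Pool.Agent.W785.DF
open H459R3.NS

/-! ## coefficients -/

theorem sp_comp {u0 : V → V} (hu : ContDiff ℝ ∞ u0) (hp : Per u0) (i : Fin 3) :
    SP (fun x => u0 x i) where
  smooth := (contDiff_pi.1 hu) i
  per := fun j x => by
    show u0 (x + Pi.single j 1) i = u0 x i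
    rw [hp j x]

theorem norm_frv_sq (u0 : V → V) (k : K3) :
    ‖frv u0 k‖ ^ 2 = ∑ i, ‖fr (fun x => u0 x i) k‖ ^ 2 := by
  rw [EuclideanSpace.norm_sq_eq]
  rfl

theorem norm_pd_sq {f : V → ℝ} (hf : SP f) (j : Fin 3) (k : K3) :
    (k j : ℝ) ^ 2 * ‖fr f k‖ ^ 2 ≤ ‖fr (pd j f) k‖ ^ 2 := by
  rw [fr_pd hf j]
  unfold D
  rw [norm_mul, norm_mul, norm_mul, norm_mul, Complex.norm_I, Complex.norm_real, Complex.norm_ofNat,
    Complex.norm_intCast, mul_one, mul_pow, mul_pow, sq_abs]
  have h1 : (1 : ℝ) ≤ (2 * ‖Real.pi‖) ^ 2 := by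
    rw [Real.norm_eq_abs, abs_of_pos Real.pi_pos]
    nlinarith [Real.pi_gt_three]
  have h2 : 0 ≤ (k j : ℝ) ^ 2 * ‖fr f k‖ ^ 2 := by positivity
  nlinarith

theorem fr_neg_freq (f : V → ℝ) (k : K3) : fr f (-k) = star (fr f k) := by
  unfold fr fc
  rw [neg_neg]
  have h1 : star (∫ x in cube, ee (-k) x * (f x : ℂ)) =
      ∫ x in cube, (starRingEnd ℂ) (ee (-k) x * (f x : ℂ)) := integral_conj.symm
  rw [h1]
  congr 1
  funext x
  rw [map_mul, Complex.conj_ofReal, ee_neg, Complex.conj_conj]

theorem fr_sum {f : Fin 3 → V → ℝ} (hf : ∀ i, Continuous (f i)) (k : K3) :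
    fr (fun x => ∑ i, f i x) k = ∑ i, fr (f i) k := by
  unfold fr fc
  have h1 : ∀ x, ee (-k) x * ((∑ i, f i x : ℝ) : ℂ) = ∑ i, ee (-k) x * (f i x : ℂ) := by
    intro x
    push_cast
    rw [Finset.mul_sum]
  simp only [h1]
  refine integral_finsetSum _ fun i _ => ?_
  exact integrableOn_cube ((ee_continuous _).mul (Complex.continuous_ofReal.comp (hf i)))

theorem init : S_init := by
  intro u0 hu hp
  have hi := sp_comp hu hp
  have s1 : ∀ i, Summable fun k => ‖fr (fun x => u0 x i) k‖ ^ 2 := fun i =>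
    summable_sq (rap_fr (hi i)).summable
  have s2 : ∀ i j, Summable fun k => ‖fr (pd j fun x => u0 x i) k‖ ^ 2 := fun i j =>
    summable_sq (rap_fr ((hi i).pd j)).summable
  have p1 : 0 ≤ ∑ i, ∑' k, ‖fr (fun x => u0 x i) k‖ ^ 2 :=
    Finset.sum_nonneg fun i _ => tsum_nonneg fun k => by positivity
  have p2 : 0 ≤ ∑ i, ∑ j, ∑' k, ‖fr (pd j fun x => u0 x i) k‖ ^ 2 :=
    Finset.sum_nonneg fun i _ => Finset.sum_nonneg fun j _ => tsum_nonneg fun k => by positivity
  refine ⟨∑ i, ∑' k, ‖fr (fun x => u0 x i) k‖ ^ 2 +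
    ∑ i, ∑ j, ∑' k, ‖fr (pd j fun x => u0 x i) k‖ ^ 2 + 1, by linarith, ?_, ?_, ?_⟩
  · intro S
    constructor
    · have h1 : ∑ k ∈ S, ‖frv u0 k‖ ^ 2 ≤ ∑ i, ∑' k, ‖fr (fun x => u0 x i) k‖ ^ 2 := by
        simp only [norm_frv_sq]
        rw [Finset.sum_comm]
        refine Finset.sum_le_sum fun i _ => ?_
        exact (s1 i).sum_le_tsum S fun k _ => by positivity
      linarith
    · have h1 : ∑ k ∈ S, Pool.Agent.W785.DF.sq k * ‖frv u0 k‖ ^ 2 ≤
          ∑ i, ∑ j, ∑' k, ‖fr (pd j fun x => u0 x i) k‖ ^ 2 := by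
        have h2 : ∀ k, Pool.Agent.W785.DF.sq k * ‖frv u0 k‖ ^ 2 ≤
            ∑ i, ∑ j, ‖fr (pd j fun x => u0 x i) k‖ ^ 2 := by
          intro k
          rw [norm_frv_sq, Finset.mul_sum]
          refine Finset.sum_le_sum fun i _ => ?_
          unfold Pool.Agent.W785.DF.sq
          rw [Finset.sum_mul]
          exact Finset.sum_le_sum fun j _ => norm_pd_sq (hi i) j k
        refine (Finset.sum_le_sum fun k _ => h2 k).trans ?_
        rw [Finset.sum_comm]
        refine Finset.sum_le_sum fun i _ => ?_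
        rw [Finset.sum_comm]
        refine Finset.sum_le_sum fun j _ => ?_
        exact (s2 i j).sum_le_tsum S fun k _ => by positivity
      linarith
  · intro k
    unfold frv cj
    congr 1
    funext i
    exact fr_neg_freq _ k
  · intro hdiv k
    have h1 : fr (fun x => ∑ i, pd i (fun y => u0 y i) x) k = 0 := by
      have : (fun x => ∑ i, pd i (fun y => u0 y i) x) = fun _ => (0 : ℝ) := funext hdiv
      rw [this]
      unfold fr fc
      simp
    rw [fr_sum (f := fun i x => pd i (fun y => u0 y i) x)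
      (fun i => ((hi i).pd i).smooth.continuous) k] at h1
    have h2 : ∀ i, fr (fun x => pd i (fun y => u0 y i) x) k =
        (2 * Real.pi * Complex.I * (k i : ℂ)) * fr (fun x => u0 x i) k := by
      intro i
      have := congrFun (fr_pd (hi i) i) k
      unfold D at this
      exact this
    simp only [h2] at h1
    have h3 : (2 * Real.pi * Complex.I) * dk k (frv u0 k) = 0 := by
      rw [← h1]
      unfold dk frv
      rw [Finset.mul_sum]
      refine Finset.sum_congr rfl fun i _ => ?_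
      show _ * ((k i : ℂ) * fr (fun x => u0 x i) k) = _
      ring
    have h4 : (2 * Real.pi * Complex.I : ℂ) ≠ 0 := Complex.two_pi_I_ne_zero
    exact (mul_eq_zero.1 h3).resolve_left h4

/-! ## decay -/

theorem cont_sq {C a b s : ℝ} (ha : 0 ≤ a) (hs : s ∈ Icc a b) :
    ContinuousAt (fun s : ℝ => C / (1 + s) ^ 2) s := by
  have h1 : (0 : ℝ) < 1 + s := by linarith [hs.1]
  have h2 : (1 + s) ^ 2 ≠ 0 := by positivity
  have h3 : Continuous fun s : ℝ => (1 + s) ^ 2 := by fun_prop
  exact continuousAt_const.div h3.continuousAt h2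

theorem int_sq {C a b : ℝ} (ha : 0 ≤ a) (hab : a ≤ b) :
    ∫ s in a..b, C / (1 + s) ^ 2 = C / (1 + a) - C / (1 + b) := by
  have h1 : ∀ s ∈ uIcc a b, HasDerivAt (fun s => -(C / (1 + s))) (C / (1 + s) ^ 2) s := by
    intro s hs
    rw [uIcc_of_le hab] at hs
    have h2 : (1 : ℝ) + s ≠ 0 := by
      have := hs.1
      linarith
    have h3 : HasDerivAt (fun s : ℝ => 1 + s) 1 s := (hasDerivAt_id s).const_add 1
    have h4 := ((hasDerivAt_const s C).div h3 h2).neg
    refine h4.congr_deriv ?_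
    ring
  have h5 : IntervalIntegrable (fun s => C / (1 + s) ^ 2) volume a b := by
    apply ContinuousOn.intervalIntegrable
    intro s hs
    rw [uIcc_of_le hab] at hs
    exact (cont_sq ha hs).continuousWithinAt
  rw [intervalIntegral.integral_eq_sub_of_hasDerivAt h1 h5]
  ring

theorem decay_bound {lam C t : ℝ} (hl : 0 < lam) (hC : 0 < C) (ht : 0 ≤ t) :
    ∫ s in (0 : ℝ)..t, Real.exp (-(lam * (t - s))) * (C / (1 + s) ^ 2) ≤
      Real.exp (-(lam * (t / 2))) * C + C / (1 + t / 2) := by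
  have hc : ∀ a b : ℝ, 0 ≤ a → a ≤ b →
      IntervalIntegrable (fun s => Real.exp (-(lam * (t - s))) * (C / (1 + s) ^ 2)) volume a b := by
    intro a b ha hab
    apply ContinuousOn.intervalIntegrable
    intro s hs
    rw [uIcc_of_le hab] at hs
    have h3 : Continuous fun s : ℝ => Real.exp (-(lam * (t - s))) := by fun_prop
    exact (h3.continuousAt.mul (cont_sq ha hs)).continuousWithinAt
  have hd : ∀ a b : ℝ, 0 ≤ a → a ≤ b →
      IntervalIntegrable (fun s => C / (1 + s) ^ 2) volume a b := by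
    intro a b ha hab
    apply ContinuousOn.intervalIntegrable
    intro s hs
    rw [uIcc_of_le hab] at hs
    exact (cont_sq ha hs).continuousWithinAt
  rw [← intervalIntegral.integral_add_adjacent_intervals (hc 0 (t / 2) le_rfl (by linarith))
    (hc (t / 2) t (by linarith) (by linarith))]
  refine add_le_add ?_ ?_
  · have h1 : ∫ s in (0 : ℝ)..(t / 2), Real.exp (-(lam * (t - s))) * (C / (1 + s) ^ 2) ≤
        ∫ s in (0 : ℝ)..(t / 2), Real.exp (-(lam * (t / 2))) * (C / (1 + s) ^ 2) := by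
      refine intervalIntegral.integral_mono_on (by linarith) (hc 0 (t / 2) le_rfl (by linarith))
        ((hd 0 (t / 2) le_rfl (by linarith)).const_mul _) ?_
      intro s hs
      have h2 : 0 ≤ C / (1 + s) ^ 2 := by positivity
      refine mul_le_mul_of_nonneg_right (Real.exp_le_exp.2 ?_) h2
      have := hs.2
      nlinarith
    refine h1.trans ?_
    rw [intervalIntegral.integral_const_mul, int_sq le_rfl (by linarith : (0 : ℝ) ≤ t / 2)]
    refine mul_le_mul_of_nonneg_left ?_ (Real.exp_nonneg _)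
    have h3 : 0 ≤ C / (1 + t / 2) := by positivity
    have h4 : C / (1 + 0) = C := by ring
    linarith
  · have h1 : ∫ s in (t / 2)..t, Real.exp (-(lam * (t - s))) * (C / (1 + s) ^ 2) ≤
        ∫ s in (t / 2)..t, C / (1 + s) ^ 2 := by
      refine intervalIntegral.integral_mono_on (by linarith) (hc (t / 2) t (by linarith)
        (by linarith)) (hd (t / 2) t (by linarith) (by linarith)) ?_
      intro s hs
      have h2 : 0 ≤ C / (1 + s) ^ 2 := by positivity
      have h3 : Real.exp (-(lam * (t - s))) ≤ 1 := by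
        rw [Real.exp_le_one_iff]
        have := hs.2
        nlinarith
      nlinarith
    refine h1.trans ?_
    rw [int_sq (by linarith : (0 : ℝ) ≤ t / 2) (by linarith : t / 2 ≤ t)]
    have h3 : 0 ≤ C / (1 + t) := by positivity
    linarith

theorem decay : S_decay := by
  intro ν A C δ hν hA hC hδ
  have hl : 0 < 4 * Real.pi ^ 2 * ν := by positivity
  set lam := 4 * Real.pi ^ 2 * ν with hlam
  have t1 : Tendsto (fun t : ℝ => Real.exp (-(lam * t)) * A) atTop (𝓝 0) := by
    have h1 : Tendsto (fun t : ℝ => Real.exp (-(lam * t))) atTop (𝓝 0) := by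
      refine Real.tendsto_exp_neg_atTop_nhds_zero.comp ?_
      exact tendsto_id.const_mul_atTop hl
    simpa using h1.mul_const A
  have t2 : Tendsto (fun t : ℝ => Real.exp (-(lam * (t / 2))) * C) atTop (𝓝 0) := by
    have h1 : Tendsto (fun t : ℝ => Real.exp (-(lam * (t / 2)))) atTop (𝓝 0) := by
      refine Real.tendsto_exp_neg_atTop_nhds_zero.comp ?_
      exact (tendsto_id.atTop_div_const (by norm_num)).const_mul_atTop hl
    simpa using h1.mul_const C
  have t3 : Tendsto (fun t : ℝ => C / (1 + t / 2)) atTop (𝓝 0) := by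
    refine Tendsto.const_div_atTop ?_ C
    exact tendsto_atTop_add_const_left _ _ (tendsto_id.atTop_div_const (by norm_num))
  have t4 := (t1.add (t2.add t3))
  simp only [add_zero] at t4
  have h5 := t4.eventually_lt_const hδ
  obtain ⟨T, hT⟩ := eventually_atTop.1 h5
  refine ⟨max T 1, by positivity, fun t ht => ?_⟩
  have h6 := hT t ((le_max_left _ _).trans ht)
  have h7 : 0 ≤ t := by
    have := (le_max_right T 1).trans ht
    linarith
  have h8 := decay_bound hl hC h7
  linarith

theorem main : S_init ∧ S_decay := ⟨init, decay⟩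

end Pool.Agent.W378.DFI
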