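import Pool.Agent.W429.ABG.Stmts
set_option autoImplicit false

/-! The multigrading of the free alternative algebra (leaf F of the disproof of Shang's conjecture). -/

namespace Pool.Agent.W378.ABGF
open Module
open Pool.Agent.Helper805.Nuc.Tens (IsAlt)
open Pool.Agent.Helper805.Nuc.Free
open Pool.Agent.W429.ABG

section
variable {n : ℕ}

/-- content of a nonassociative monomial -/
def ct : FreeMagma (Fin n) → (Fin n → ℕ)
  | .of j => Pi.single j 1
  | .mul a b => ct a + ct b

lemma ct_of (j : Fin n) : ct (FreeMagma.of j) = Pi.single j 1 := rfl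
lemma ct_mul (a b : FreeMagma (Fin n)) : ct (a * b) = ct a + ct b := rfl

lemma len_pos (t : FreeMagma (Fin n)) : 1 ≤ ∑ i, ct t i := by
  induction t with
  | ih1 j => rw [ct_of]; simp
  | ih2 a b ha hb =>
    rw [ct_mul]
    simp only [Pi.add_apply, Finset.sum_add_distrib]
    omega

lemma ct_ne (t : FreeMagma (Fin n)) : ct t ≠ 0 := by
  intro h
  have := len_pos t
  rw [h] at this
  simp at this

/-- monomials of a given length form a finite set -/
lemma fin_len (m : ℕ) : {t : FreeMagma (Fin n) | ∑ i, ct t i ≤ m}.Finite := by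
  induction m with
  | zero =>
    convert Set.finite_empty
    ext t
    have := len_pos t
    simp only [Set.mem_ofPred_eq, Set.mem_empty_iff_false, iff_false]
    omega
  | succ m ih =>
    have h1 : {t : FreeMagma (Fin n) | ∑ i, ct t i ≤ m + 1} ⊆
        Set.range (FreeMagma.of : Fin n → FreeMagma (Fin n)) ∪
        Set.image2 (fun a b => a * b) {t : FreeMagma (Fin n) | ∑ i, ct t i ≤ m}
          {t : FreeMagma (Fin n) | ∑ i, ct t i ≤ m} := by
      intro t ht
      induction t with
      | ih1 j => exact Or.inl ⟨j, rfl⟩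
      | ih2 a b _ _ =>
        right
        have h : ∑ i, ct (a * b) i ≤ m + 1 := ht
        rw [ct_mul] at h
        simp only [Pi.add_apply, Finset.sum_add_distrib] at h
        have ha := len_pos a
        have hb := len_pos b
        exact ⟨a, by simp only [Set.mem_ofPred_eq]; omega, b, by simp only [Set.mem_ofPred_eq]; omega, rfl⟩
    exact Set.Finite.subset ((Set.finite_range _).union (Set.Finite.image2 _ ih ih)) h1

lemma fin_ct (γ : Fin n → ℕ) : {t : FreeMagma (Fin n) | ct t = γ}.Finite := by
  refine Set.Finite.subset (fin_len (∑ i, γ i)) ?_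
  intro t ht
  have h : ct t = γ := ht
  simp only [Set.mem_ofPred_eq, h, le_refl]

lemma ct_single {t : FreeMagma (Fin n)} {i : Fin n} (h : ct t = Pi.single i 1) : t = FreeMagma.of i := by
  induction t with
  | ih1 j =>
    rw [ct_of] at h
    have := congrFun h i
    by_cases hij : i = j
    · rw [hij]
    · exfalso
      rw [Pi.single_eq_of_ne hij, Pi.single_eq_same] at this
      exact absurd this (by norm_num)
  | ih2 a b _ _ =>
    exfalso
    rw [ct_mul] at h
    have h2 := congrArg (fun f : Fin n → ℕ => ∑ i, f i) h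
    simp only [Pi.add_apply, Finset.sum_add_distrib] at h2
    have h3 : ∑ j, (Pi.single i 1 : Fin n → ℕ) j = 1 := by simp
    rw [h3] at h2
    have ha := len_pos a
    have hb := len_pos b
    omega

variable (k : Type) [Field k]

/-- the `i`-th degree derivation of the free nonassociative algebra -/
noncomputable def D (i : Fin n) : FN k (Fin n) →ₗ[k] FN k (Fin n) :=
  (MonoidAlgebra.basis (FreeMagma (Fin n)) k).constr k (fun t => (ct t i : k) • MonoidAlgebra.single t 1)

variable {k}

lemma D_one (i : Fin n) (t : FreeMagma (Fin n)) :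
    D k i (MonoidAlgebra.single t 1) = (ct t i : k) • MonoidAlgebra.single t 1 := by
  have h := (MonoidAlgebra.basis (FreeMagma (Fin n)) k).constr_basis k
    (fun t => (ct t i : k) • (MonoidAlgebra.single t 1 : FN k (Fin n))) t
  rw [MonoidAlgebra.basis_apply] at h
  exact h

lemma single_eq (t : FreeMagma (Fin n)) (r : k) :
    (MonoidAlgebra.single t r : FN k (Fin n)) = r • MonoidAlgebra.single t 1 := by
  rw [MonoidAlgebra.smul_single, smul_eq_mul, mul_one]

lemma D_single (i : Fin n) (t : FreeMagma (Fin n)) (r : k) :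
    D k i (MonoidAlgebra.single t r) = (ct t i : k) • MonoidAlgebra.single t r := by
  rw [single_eq t r, map_smul, D_one, smul_comm]

lemma D_mul (i : Fin n) (x y : FN k (Fin n)) : D k i (x * y) = D k i x * y + x * D k i y := by
  induction x using MonoidAlgebra.induction_linear with
  | zero => simp
  | add x x' hx hx' => rw [add_mul, map_add, hx, hx', map_add, add_mul, add_mul]; abel
  | single t r =>
    induction y using MonoidAlgebra.induction_linear with
    | zero => simp
    | add y y' hy hy' => rw [mul_add, map_add, hy, hy', map_add, mul_add, mul_add]; abel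
    | single s q =>
      rw [MonoidAlgebra.single_mul_single, D_single, D_single, D_single, ct_mul, smul_mul_assoc,
        mul_smul_comm, MonoidAlgebra.single_mul_single, Pi.add_apply, Nat.cast_add, add_smul]

lemma D_alt (i : Fin n) : altIdeal k (Fin n) ≤ (altIdeal k (Fin n)).comap (D k i) := by
  have h : altIdeal k (Fin n) ≤ altIdeal k (Fin n) ⊓ (altIdeal k (Fin n)).comap (D k i) := by
    conv_lhs => unfold altIdeal
    apply sInf_le
    refine ⟨fun a t ht => ?_, fun a b => ?_⟩
    · obtain ⟨h1, h2⟩ := Submodule.mem_inf.mp ht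
      rw [Submodule.mem_comap] at h2
      refine ⟨Submodule.mem_inf.mpr ⟨(altIdeal_mul a h1).1, ?_⟩, Submodule.mem_inf.mpr ⟨(altIdeal_mul a h1).2, ?_⟩⟩
      · rw [Submodule.mem_comap, D_mul]
        exact Submodule.add_mem _ (altIdeal_mul _ h1).1 (altIdeal_mul _ h2).1
      · rw [Submodule.mem_comap, D_mul]
        exact Submodule.add_mem _ (altIdeal_mul _ h2).2 (altIdeal_mul _ h1).2
    · refine ⟨Submodule.mem_inf.mpr ⟨(altIdeal_alt a b).1, ?_⟩, Submodule.mem_inf.mpr ⟨(altIdeal_alt a b).2, ?_⟩⟩
      · rw [Submodule.mem_comap]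
        have e : D k i (a * a * b - a * (a * b)) =
            (((a + D k i a) * (a + D k i a)) * b - (a + D k i a) * ((a + D k i a) * b))
            - (a * a * b - a * (a * b)) - (D k i a * D k i a * b - D k i a * (D k i a * b))
            + (a * a * D k i b - a * (a * D k i b)) := by
          simp only [map_sub, D_mul, add_mul, mul_add]
          abel
        rw [e]
        exact Submodule.add_mem _ (Submodule.sub_mem _ (Submodule.sub_mem _ (altIdeal_alt _ b).1 (altIdeal_alt _ b).1)
          (altIdeal_alt _ b).1) (altIdeal_alt _ _).1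
      · rw [Submodule.mem_comap]
        have e : D k i (b * a * a - b * (a * a)) =
            ((b * (a + D k i a)) * (a + D k i a) - b * ((a + D k i a) * (a + D k i a)))
            - (b * a * a - b * (a * a)) - (b * D k i a * D k i a - b * (D k i a * D k i a))
            + (D k i b * a * a - D k i b * (a * a)) := by
          simp only [map_sub, D_mul, add_mul, mul_add]
          abel
        rw [e]
        exact Submodule.add_mem _ (Submodule.sub_mem _ (Submodule.sub_mem _ (altIdeal_alt _ b).2 (altIdeal_alt _ b).2)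
          (altIdeal_alt _ b).2) (altIdeal_alt _ _).2
  exact h.trans inf_le_right

variable (k)

/-- the derivation on the free alternative algebra -/
noncomputable def dl (i : Fin n) : Module.End k (FreeAlt k (Fin n)) :=
  (altIdeal k (Fin n)).liftQ ((FreeAlt.mk : FN k (Fin n) →ₗ[k] FreeAlt k (Fin n)) ∘ₗ D k i) (by
    intro x hx
    have h1 : D k i x ∈ altIdeal k (Fin n) := D_alt i hx
    have h2 : (FreeAlt.mk (D k i x) : FreeAlt k (Fin n)) = FreeAlt.mk 0 := FreeAlt.mk_eq.mpr (by rwa [sub_zero])
    rw [LinearMap.mem_ker, LinearMap.comp_apply, h2, map_zero])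

variable {k}

lemma dl_mk (i : Fin n) (x : FN k (Fin n)) : dl k i (FreeAlt.mk x) = FreeAlt.mk (D k i x) := rfl

lemma dl_mul (i : Fin n) (a b : FreeAlt k (Fin n)) : dl k i (a * b) = dl k i a * b + a * dl k i b := by
  obtain ⟨a, rfl⟩ := FreeAlt.mk_surj a
  obtain ⟨b, rfl⟩ := FreeAlt.mk_surj b
  rw [← FreeAlt.mk_mul, dl_mk, dl_mk, dl_mk, D_mul, map_add, FreeAlt.mk_mul, FreeAlt.mk_mul]

lemma of_eq (j : Fin n) : FreeNonUnitalNonAssocAlgebra.of k j = MonoidAlgebra.single (FreeMagma.of j) 1 := rfl

/-- image of a monomial -/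
noncomputable def mo (t : FreeMagma (Fin n)) : FreeAlt k (Fin n) := FreeAlt.mk (MonoidAlgebra.single t 1)

lemma mo_of (j : Fin n) : (mo (FreeMagma.of j) : FreeAlt k (Fin n)) = FreeAlt.gen j := rfl

lemma mo_mul (a b : FreeMagma (Fin n)) : (mo (a * b) : FreeAlt k (Fin n)) = mo a * mo b := by
  unfold mo
  rw [← FreeAlt.mk_mul, MonoidAlgebra.single_mul_single, mul_one]

lemma dl_mo (i : Fin n) (t : FreeMagma (Fin n)) : dl k i (mo t) = (ct t i : k) • mo t := by
  unfold mo
  rw [dl_mk, D_one, map_smul]

lemma mo_mem (t : FreeMagma (Fin n)) : (mo t : FreeAlt k (Fin n)) ∈ homog (dl k) (ct t) := by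
  unfold homog
  rw [Submodule.mem_iInf]
  intro i
  rw [Module.End.mem_eigenspace_iff, dl_mo]

lemma mk_single_mem (t : FreeMagma (Fin n)) (r : k) :
    (FreeAlt.mk (MonoidAlgebra.single t r) : FreeAlt k (Fin n)) ∈ Submodule.span k {(mo t : FreeAlt k (Fin n))} := by
  rw [single_eq t r, map_smul]
  exact Submodule.smul_mem _ _ (Submodule.mem_span_singleton_self _)

lemma dl_gen (i j : Fin n) : dl k i (FreeAlt.gen j) = if i = j then FreeAlt.gen j else 0 := by
  rw [← mo_of, dl_mo, ct_of]
  split_ifs with h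
  · subst h
    rw [Pi.single_eq_same, Nat.cast_one, one_smul]
  · rw [Pi.single_eq_of_ne h, Nat.cast_zero, zero_smul]

/-- for every set of contents the part with these contents and its complement -/
lemma split (P : (Fin n → ℕ) → Prop) (x : FreeAlt k (Fin n)) :
    ∃ y z, x = y + z ∧ y ∈ Submodule.span k ((mo : FreeMagma (Fin n) → FreeAlt k (Fin n)) '' {t | P (ct t)}) ∧
      z ∈ Submodule.span k ((mo : FreeMagma (Fin n) → FreeAlt k (Fin n)) '' {t | ¬ P (ct t)}) := by
  obtain ⟨x, rfl⟩ := FreeAlt.mk_surj x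
  induction x using MonoidAlgebra.induction_linear with
  | zero => exact ⟨0, 0, by rw [map_zero, add_zero], Submodule.zero_mem _, Submodule.zero_mem _⟩
  | add x x' hx hx' =>
    obtain ⟨y, z, h1, h2, h3⟩ := hx
    obtain ⟨y', z', h1', h2', h3'⟩ := hx'
    exact ⟨y + y', z + z', by rw [map_add, h1, h1']; abel, Submodule.add_mem _ h2 h2', Submodule.add_mem _ h3 h3'⟩
  | single t r =>
    by_cases h : P (ct t)
    · refine ⟨_, 0, (add_zero _).symm, ?_, Submodule.zero_mem _⟩
      have hh : (mo t : FreeAlt k (Fin n)) ∈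
          ((mo : FreeMagma (Fin n) → FreeAlt k (Fin n)) '' {t | P (ct t)}) := ⟨t, h, rfl⟩
      exact Submodule.span_mono (Set.singleton_subset_iff.mpr hh) (mk_single_mem t r)
    · refine ⟨0, _, (zero_add _).symm, Submodule.zero_mem _, ?_⟩
      have hh : (mo t : FreeAlt k (Fin n)) ∈
          ((mo : FreeMagma (Fin n) → FreeAlt k (Fin n)) '' {t | ¬ P (ct t)}) := ⟨t, h, rfl⟩
      exact Submodule.span_mono (Set.singleton_subset_iff.mpr hh) (mk_single_mem t r)

lemma top_eq : (⨆ γ ∈ {γ : Fin n → ℕ | γ ≠ 0}, homog (dl k) γ) = (⊤ : Submodule k (FreeAlt k (Fin n))) := by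
  rw [eq_top_iff]
  intro x _
  obtain ⟨y, z, h1, h2, h3⟩ := split (fun _ => True) x
  have hz : z = 0 := by
    have h4 : {t : FreeMagma (Fin n) | ¬ True} = ∅ := by ext; simp
    rw [h4, Set.image_empty, Submodule.span_empty] at h3
    exact (Submodule.mem_bot _).mp h3
  rw [h1, hz, add_zero]
  refine Submodule.span_le.mpr ?_ h2
  rintro _ ⟨t, _, rfl⟩
  exact Submodule.mem_iSup_of_mem (ct t) (Submodule.mem_iSup_of_mem (ct_ne t) (mo_mem t))

variable [CharZero k]

omit [CharZero k] in
lemma dl_comm (i j : Fin n) : Commute (dl k i) (dl k j) := by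
  refine LinearMap.ext fun x => ?_
  obtain ⟨y, z, h1, h2, h3⟩ := split (fun _ => True) x
  have hz : z = 0 := by
    have h4 : {t : FreeMagma (Fin n) | ¬ True} = ∅ := by ext; simp
    rw [h4, Set.image_empty, Submodule.span_empty] at h3
    exact (Submodule.mem_bot _).mp h3
  rw [h1, hz, add_zero]
  have h5 : Submodule.span k ((mo : FreeMagma (Fin n) → FreeAlt k (Fin n)) '' {t | True}) ≤
      LinearMap.eqLocus (dl k i * dl k j) (dl k j * dl k i) := by
    rw [Submodule.span_le]
    rintro _ ⟨t, _, rfl⟩
    show dl k i (dl k j (mo t)) = dl k j (dl k i (mo t))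
    rw [dl_mo, dl_mo, map_smul, map_smul, dl_mo, dl_mo, smul_comm]
  exact h5 h2

lemma indep : iSupIndep (fun γ : Fin n → ℕ => homog (dl k) γ) := by
  have h1 := Module.End.independent_iInf_maxGenEigenspace_of_forall_mapsTo (dl k : Fin n → Module.End k (FreeAlt k (Fin n)))
    (fun i j φ => Module.End.mapsTo_maxGenEigenspace_of_comm (dl_comm j i) φ)
  have h2 : Function.Injective (fun (γ : Fin n → ℕ) (i : Fin n) => ((γ i : ℕ) : k)) := by
    intro γ γ' h
    ext i
    have h' : ((γ i : ℕ) : k) = ((γ' i : ℕ) : k) := congrFun h i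
    exact Nat.cast_injective h'
  have h3 := h1.comp h2
  refine h3.mono ?_
  intro γ
  show homog (dl k) γ ≤ ⨅ i, (dl k i).maxGenEigenspace ((γ i : ℕ) : k)
  unfold homog
  exact iInf_mono fun i => Module.End.genEigenspace_le_maximal _ _ 1

lemma homog_le (γ : Fin n → ℕ) : homog (dl k) γ ≤
    Submodule.span k ((mo : FreeMagma (Fin n) → FreeAlt k (Fin n)) '' {t | ct t = γ}) := by
  intro x hx
  obtain ⟨y, z, h1, h2, h3⟩ := split (fun δ => δ = γ) x
  have hy : y ∈ homog (dl k) γ := by
    refine Submodule.span_le.mpr ?_ h2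
    rintro _ ⟨t, ht, rfl⟩
    have : ct t = γ := ht
    rw [← this]
    exact mo_mem t
  have hz : z ∈ ⨆ (γ') (_ : γ' ≠ γ), homog (dl k) γ' := by
    refine Submodule.span_le.mpr ?_ h3
    rintro _ ⟨t, ht, rfl⟩
    exact Submodule.mem_iSup_of_mem (ct t) (Submodule.mem_iSup_of_mem ht (mo_mem t))
  have hd := (indep (k := k) (n := n)) γ
  have hz' : z ∈ homog (dl k) γ := by
    have : z = x - y := by rw [h1]; abel
    rw [this]
    exact Submodule.sub_mem _ hx hy
  have : z = 0 := by
    have := Submodule.disjoint_def.mp hd z hz' hz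
    exact this
  rw [h1, this, add_zero]
  exact h2

instance fd (γ : Fin n → ℕ) : FiniteDimensional k (homog (dl k) γ) := by
  have h1 : FiniteDimensional k (Submodule.span k ((mo : FreeMagma (Fin n) → FreeAlt k (Fin n)) '' {t | ct t = γ})) :=
    FiniteDimensional.span_of_finite k ((fin_ct γ).image _)
  exact Submodule.finiteDimensional_of_le (homog_le γ)

lemma isAlt_of_assoc {A : Type} [NonUnitalRing A] : IsAlt A :=
  ⟨fun _ _ => mul_assoc _ _ _, fun _ _ => mul_assoc _ _ _⟩

lemma gen_ne (i : Fin n) : (FreeAlt.gen i : FreeAlt k (Fin n)) ≠ 0 := by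
  intro h
  have h1 := FreeAlt.lift_gen (Φ := k) (X := Fin n) (B := k) isAlt_of_assoc (fun _ => 1) i
  rw [h, map_zero] at h1
  exact zero_ne_one h1

lemma finrank_one (i : Fin n) : finrank k (homog (dl k : Fin n → Module.End k (FreeAlt k (Fin n))) (Pi.single i 1)) = 1 := by
  have h : homog (dl k) (Pi.single i 1) = Submodule.span k {(FreeAlt.gen i : FreeAlt k (Fin n))} := by
    apply le_antisymm
    · refine (homog_le _).trans (Submodule.span_mono ?_)
      rintro _ ⟨t, ht, rfl⟩
      rw [ct_single ht]
      rfl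
    · rw [Submodule.span_singleton_le_iff_mem]
      exact mo_mem (FreeMagma.of i)
  rw [h]
  exact finrank_span_singleton (gen_ne i)

/-- left-normed monomials -/
def lm : FreeMagma (Fin n) → List (Fin n) → FreeMagma (Fin n)
  | a, [] => a
  | a, j :: l => lm (a * FreeMagma.of j) l

lemma ct_lm (l : List (Fin n)) (a : FreeMagma (Fin n)) : ct (lm a l) = ct a + fun i => l.count i := by
  induction l generalizing a with
  | nil =>
    unfold lm
    ext i
    simp
  | cons j l ih =>
    unfold lm
    rw [ih, ct_mul, ct_of]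
    ext i
    simp only [Pi.add_apply, List.count_cons]
    by_cases h : j = i
    · subst h
      simp
      ring
    · rw [Pi.single_eq_of_ne (Ne.symm h)]
      simp [h]

/-- homomorphism to the free associative algebra -/
noncomputable def ph : FreeAlt k (Fin n) →ₙₐ[k] MonoidAlgebra k (FreeMonoid (Fin n)) :=
  FreeAlt.lift (B := MonoidAlgebra k (FreeMonoid (Fin n))) isAlt_of_assoc
    (fun i => MonoidAlgebra.single (FreeMonoid.of i) 1)

omit [CharZero k] in
lemma ph_of (i : Fin n) : ph (mo (FreeMagma.of i) : FreeAlt k (Fin n)) = MonoidAlgebra.single (FreeMonoid.of i) 1 :=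
  FreeAlt.lift_gen _ _ i

omit [CharZero k] in
lemma ph_lm (l : List (Fin n)) (a : FreeMagma (Fin n)) (w : FreeMonoid (Fin n))
    (h : ph (mo a : FreeAlt k (Fin n)) = MonoidAlgebra.single w 1) :
    ph (mo (lm a l) : FreeAlt k (Fin n)) = MonoidAlgebra.single (w * FreeMonoid.ofList l) 1 := by
  induction l generalizing a w with
  | nil =>
    unfold lm
    rw [h, FreeMonoid.ofList_nil, mul_one]
  | cons j l ih =>
    unfold lm
    rw [ih (a * FreeMagma.of j) (w * FreeMonoid.of j) ?_, FreeMonoid.ofList_cons, mul_assoc]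
    rw [mo_mul, map_mul, h, ph_of, MonoidAlgebra.single_mul_single, mul_one]

lemma fact_le (hn : 1 ≤ n) :
    n.factorial ≤ finrank k (homog (dl k : Fin n → Module.End k (FreeAlt k (Fin n))) (fun _ => 1)) := by
  obtain ⟨m, rfl⟩ : ∃ m, n = m + 1 := ⟨n - 1, by omega⟩
  let ls : Equiv.Perm (Fin (m + 1)) → FreeMagma (Fin (m + 1)) := fun σ =>
    lm (FreeMagma.of (σ 0)) (List.ofFn fun i : Fin m => σ i.succ)
  have hcons : ∀ σ : Equiv.Perm (Fin (m + 1)), σ 0 :: (List.ofFn fun i : Fin m => σ i.succ) = List.ofFn σ := by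
    intro σ
    rw [List.ofFn_succ]
  have hct : ∀ σ, ct (ls σ) = fun _ => 1 := by
    intro σ
    show ct (lm (FreeMagma.of (σ 0)) (List.ofFn fun i : Fin m => σ i.succ)) = _
    rw [ct_lm, ct_of]
    ext j
    have h1 : (List.ofFn σ).count j = 1 := by
      apply List.count_eq_one_of_mem
      · rw [List.nodup_ofFn]
        exact σ.injective
      · rw [List.mem_ofFn]
        exact σ.surjective j
    rw [← hcons, List.count_cons] at h1
    simp only [Pi.add_apply]
    by_cases h : σ 0 = j
    · subst h
      simp at h1 ⊢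
      exact h1
    · rw [Pi.single_eq_of_ne (Ne.symm h)]
      simp [h] at h1 ⊢
      exact h1
  have hph : ∀ σ, ph (mo (ls σ) : FreeAlt k (Fin (m + 1))) = MonoidAlgebra.single (FreeMonoid.ofList (List.ofFn σ)) 1 := by
    intro σ
    rw [← hcons, FreeMonoid.ofList_cons]
    exact ph_lm _ _ _ (ph_of _)
  let v : Equiv.Perm (Fin (m + 1)) → homog (dl k : Fin (m + 1) → Module.End k (FreeAlt k (Fin (m + 1)))) (fun _ => 1) :=
    fun σ => ⟨mo (ls σ), by rw [← hct σ]; exact mo_mem _⟩
  have hli : LinearIndependent k v := by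
    let φ : homog (dl k : Fin (m + 1) → Module.End k (FreeAlt k (Fin (m + 1)))) (fun _ => 1) →ₗ[k]
        MonoidAlgebra k (FreeMonoid (Fin (m + 1))) :=
      { toFun := fun x => ph x.1
        map_add' := fun x y => map_add ph x.1 y.1
        map_smul' := fun r x => map_smul ph r x.1 }
    apply LinearIndependent.of_comp φ
    have h1 : (φ ∘ v) = (MonoidAlgebra.basis (FreeMonoid (Fin (m + 1))) k) ∘
        (fun σ : Equiv.Perm (Fin (m + 1)) => FreeMonoid.ofList (List.ofFn σ)) := by
      funext σ
      rw [Function.comp_apply, Function.comp_apply, MonoidAlgebra.basis_apply]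
      exact hph σ
    rw [h1]
    apply (MonoidAlgebra.basis (FreeMonoid (Fin (m + 1))) k).linearIndependent.comp
    intro σ τ h
    have h2 : List.ofFn (σ : Fin (m + 1) → Fin (m + 1)) = List.ofFn τ := FreeMonoid.ofList.injective h
    exact Equiv.coe_fn_injective (List.ofFn_injective h2)
  have h3 := hli.fintype_card_le_finrank
  rwa [Fintype.card_perm, Fintype.card_fin] at h3

end

theorem f : S_F := by
  intro k _ _ n
  exact ⟨dl k, dl_mul, dl_gen, top_eq, fd, finrank_one, fact_le⟩

end Pool.Agent.W378.ABGF
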