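import Pool.Agent.W429.ABG.Stmts2
import Pool.Agent.W378.AbgF
set_option autoImplicit false

/-! Homogeneous bases of the free alternative algebra and of `B(A)` (leaf Bas). -/

namespace Pool.Agent.W378.ABGF
open Module TensorProduct
open Pool.Agent.Helper805.Nuc.Free
open Pool.Agent.W429.ABG

section
variable {n : ℕ} {k : Type} [Field k] [CharZero k]

omit [CharZero k] in
lemma span_mo : Submodule.span k (Set.range (mo : FreeMagma (Fin n) → FreeAlt k (Fin n))) = ⊤ := by
  rw [eq_top_iff]
  intro x _
  obtain ⟨y, z, h1, h2, h3⟩ := split (fun _ => True) x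
  have hz : z = 0 := by
    have h4 : {t : FreeMagma (Fin n) | ¬ True} = ∅ := by ext; simp
    rw [h4, Set.image_empty, Submodule.span_empty] at h3
    exact (Submodule.mem_bot _).mp h3
  rw [h1, hz, add_zero]
  exact Submodule.span_mono (Set.image_subset_range _ _) h2

lemma homog_eq {J : Type} (b : Basis J k (FreeAlt k (Fin n))) (d : J → Fin n → ℕ)
    (hd : ∀ i j, dl k i (b j) = ((d j i : ℕ) : k) • b j) (γ : Fin n → ℕ) :
    homog (dl k) γ = Submodule.span k (Set.range (fun j : {j // d j = γ} => b j.1)) := by
  apply le_antisymm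
  · intro x hx
    have hrep : ∀ i j, b.repr (dl k i x) j = ((d j i : ℕ) : k) * b.repr x j := by
      intro i j
      have h1 : (Finsupp.lapply j ∘ₗ b.repr.toLinearMap ∘ₗ dl k i : FreeAlt k (Fin n) →ₗ[k] k) =
          ((d j i : ℕ) : k) • (Finsupp.lapply j ∘ₗ b.repr.toLinearMap) := by
        apply b.ext
        intro j'
        simp only [LinearMap.comp_apply, hd, LinearMap.smul_apply, map_smul, LinearEquiv.coe_coe,
          Basis.repr_self, Finsupp.lapply_apply, smul_eq_mul]
        by_cases h : j' = j
        · rw [h]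
        · rw [Finsupp.single_eq_of_ne (Ne.symm h), mul_zero, mul_zero]
      exact congrArg (fun f : FreeAlt k (Fin n) →ₗ[k] k => f x) h1
    have hx' : ∀ i, dl k i x = ((γ i : ℕ) : k) • x := by
      unfold homog at hx
      rw [Submodule.mem_iInf] at hx
      intro i
      exact Module.End.mem_eigenspace_iff.mp (hx i)
    have hz : ∀ j, d j ≠ γ → b.repr x j = 0 := by
      intro j hj
      obtain ⟨i, hi⟩ := Function.ne_iff.mp hj
      have h1 := hrep i j
      rw [hx' i, map_smul, Finsupp.smul_apply, smul_eq_mul] at h1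
      have h2 : (((γ i : ℕ) : k) - ((d j i : ℕ) : k)) * b.repr x j = 0 := by rw [sub_mul, h1, sub_self]
      rcases mul_eq_zero.mp h2 with h3 | h3
      · exact absurd (Nat.cast_injective (sub_eq_zero.mp h3)).symm hi
      · exact h3
    rw [← b.linearCombination_repr x, Finsupp.linearCombination_apply]
    apply Submodule.finsuppSum_mem
    intro j hj
    apply Submodule.smul_mem
    have hdj : d j = γ := by
      by_contra h
      exact hj (hz j h)
    exact Submodule.subset_span ⟨⟨j, hdj⟩, rfl⟩
  · rw [Submodule.span_le]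
    rintro _ ⟨⟨j, hj⟩, rfl⟩
    unfold homog
    rw [SetLike.mem_coe, Submodule.mem_iInf]
    intro i
    rw [Module.End.mem_eigenspace_iff, hd, hj]

lemma finrank_homog {J : Type} (b : Basis J k (FreeAlt k (Fin n))) (d : J → Fin n → ℕ)
    (hd : ∀ i j, dl k i (b j) = ((d j i : ℕ) : k) • b j) (γ : Fin n → ℕ) (hfin : {j | d j = γ}.Finite) :
    finrank k (homog (dl k) γ) = {j | d j = γ}.ncard := by
  rw [homog_eq b d hd γ]
  have : Fintype {j // d j = γ} := hfin.fintype
  rw [finrank_span_eq_card (b := fun j : {j // d j = γ} => b j.1)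
    (b.linearIndependent.comp _ Subtype.val_injective), ← Nat.card_eq_fintype_card]
  exact Nat.card_coe_set_eq _

omit [Field k] [CharZero k] in
lemma sum_of (i : Fin n) : ∑ j, ct (FreeMagma.of i) j = 1 := by
  rw [ct_of]
  simp

end

theorem bas : S_Bas := by
  intro k _ _ n
  refine ⟨dl k, dl_mul, ?_⟩
  obtain ⟨JA, a, ha, hsp, hli⟩ := exists_linearIndependent' k (mo : FreeMagma (Fin n) → FreeAlt k (Fin n))
  rw [span_mo] at hsp
  let bA : Basis JA k (FreeAlt k (Fin n)) := Basis.mk hli (le_of_eq hsp.symm)
  have hbA : ∀ j, bA j = mo (a j) := fun j => by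
    show Basis.mk hli (le_of_eq hsp.symm) j = mo (a j)
    rw [Basis.mk_apply]
    rfl
  -- spanning family of BA
  obtain ⟨JB, p, hp, hspB, hliB⟩ := exists_linearIndependent' k
    (fun x : JA × JA => wdg k (bA x.1) (bA x.2))
  have hspan : Submodule.span k (Set.range (fun x : JA × JA => wdg k (bA x.1) (bA x.2))) = ⊤ := by
    rw [eq_top_iff]
    intro x _
    induction x using BA_induction with
    | h0 u v =>
      have hu : u ∈ Submodule.span k (Set.range bA) := by rw [bA.span_eq]; trivial
      have hv : v ∈ Submodule.span k (Set.range bA) := by rw [bA.span_eq]; trivial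
      rw [← wdgB_apply]
      induction hu using Submodule.span_induction with
      | mem u hu =>
        obtain ⟨j, rfl⟩ := hu
        induction hv using Submodule.span_induction with
        | mem v hv =>
          obtain ⟨j', rfl⟩ := hv
          exact Submodule.subset_span ⟨(j, j'), rfl⟩
        | zero => rw [map_zero]; exact Submodule.zero_mem _
        | add x y _ _ hx hy => rw [map_add]; exact Submodule.add_mem _ (hx trivial) (hy trivial)
        | smul c x _ hx => rw [map_smul]; exact Submodule.smul_mem _ _ (hx trivial)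
      | zero => rw [map_zero, LinearMap.zero_apply]; exact Submodule.zero_mem _
      | add x y _ _ hx hy => rw [map_add, LinearMap.add_apply]; exact Submodule.add_mem _ (hx trivial) (hy trivial)
      | smul c x _ hx => rw [map_smul, LinearMap.smul_apply]; exact Submodule.smul_mem _ _ (hx trivial)
    | hadd x y hx hy => exact Submodule.add_mem _ (hx trivial) (hy trivial)
  rw [hspan] at hspB
  let bB : Basis JB k (BA k (FreeAlt k (Fin n))) := Basis.mk hliB (le_of_eq hspB.symm)
  have hbB : ∀ j, bB j = wdg k (bA (p j).1) (bA (p j).2) := fun j => by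
    show Basis.mk hliB (le_of_eq hspB.symm) j = _
    rw [Basis.mk_apply]
    rfl
  have hfin : ∀ γ, {j | ct (a j) = γ}.Finite := fun γ =>
    Set.Finite.preimage (ha.injOn) (fin_ct γ)
  have hdl : ∀ i j, dl k i (bA j) = ((ct (a j) i : ℕ) : k) • bA j := fun i j => by
    rw [hbA, dl_mo]
  -- number of basis elements of a given degree
  have hcard : ∀ γ : Fin n → ℕ, finrank k (homog (dl k : Fin n → Module.End k (FreeAlt k (Fin n))) γ) =
      {j | ct (a j) = γ}.ncard := fun γ => finrank_homog bA (fun j => ct (a j)) hdl γ (hfin γ)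
  refine ⟨JA, bA, fun j => ct (a j), JB, bB, p, hdl, fun j => ct_ne _, hfin, ?_, ?_, ?_, hbB, hp⟩
  · intro i
    rw [← hcard, finrank_one]
  · intro hn
    rw [← hcard]
    exact fact_le hn
  · intro j hj
    rw [hbA]
    have : ∀ t : FreeMagma (Fin n), 2 ≤ ∑ i, ct t i →
        (mo t : FreeAlt k (Fin n)) ∈ Submodule.span k {x | ∃ a b : FreeAlt k (Fin n), x = a * b} := by
      intro t ht
      induction t with
      | ih1 i => rw [sum_of] at ht; omega
      | ih2 u v _ _ => exact Submodule.subset_span ⟨mo u, mo v, mo_mul u v⟩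
    exact this _ hj

end Pool.Agent.W378.ABGF
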