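import Pool.Agent.W576.Defs2

/-!
# Lorentz linear algebra over a field (part of the bellows theorem, step S13)
-/

namespace Pool.Agent.W378.B13

open Pool.Agent.W576 MeasureTheory Matrix

section basic
variable {R : Type*} [CommRing R] {d : ℕ}

lemma eta_mul_self (i : Fin d) : (eta i : R) * eta i = 1 := by
  unfold eta; split_ifs <;> simp

lemma lor_comm (x y : Fin d → R) : lor x y = lor y x := by
  unfold lor; exact Finset.sum_congr rfl (fun i _ => by ring)

lemma lor_add_left (x y z : Fin d → R) : lor (x + y) z = lor x z + lor y z := by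
  unfold lor
  rw [← Finset.sum_add_distrib]
  exact Finset.sum_congr rfl (fun i _ => by simp; ring)

lemma lor_smul_left (c : R) (x z : Fin d → R) : lor (c • x) z = c * lor x z := by
  unfold lor
  rw [Finset.mul_sum]
  exact Finset.sum_congr rfl (fun i _ => by simp; ring)

lemma lor_sub_left (x y z : Fin d → R) : lor (x - y) z = lor x z - lor y z := by
  unfold lor
  rw [← Finset.sum_sub_distrib]
  exact Finset.sum_congr rfl (fun i _ => by simp; ring)

lemma lor_neg_left (x z : Fin d → R) : lor (-x) z = - lor x z := by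
  unfold lor
  rw [← Finset.sum_neg_distrib]
  exact Finset.sum_congr rfl (fun i _ => by simp)

lemma lor_sum_left {ι : Type*} (s : Finset ι) (c : ι → R) (u : ι → Fin d → R) (z : Fin d → R) :
    lor (∑ i ∈ s, c i • u i) z = ∑ i ∈ s, c i * lor (u i) z := by
  classical
  induction s using Finset.induction_on with
  | empty => simp [lor]
  | insert a s ha ih => rw [Finset.sum_insert ha, Finset.sum_insert ha, lor_add_left,
      lor_smul_left, ih]

/-- the diagonal matrix of the Lorentz form -/
def E (R : Type*) [Ring R] (d : ℕ) : Matrix (Fin d) (Fin d) R := Matrix.diagonal eta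

lemma E_mul_E : E R d * E R d = 1 := by
  unfold E
  rw [Matrix.diagonal_mul_diagonal, ← Matrix.diagonal_one]
  congr 1
  funext i
  exact eta_mul_self i

lemma det_E (r : ℕ) : (E R (r+1)).det = -1 := by
  unfold E
  rw [Matrix.det_diagonal, Fin.prod_univ_succ]
  simp [eta]

lemma gram_eq {ι : Type*} (v : ι → Fin d → R) :
    W576.gram v = (Matrix.of v) * E R d * (Matrix.of v)ᵀ := by
  ext i j
  rw [Matrix.mul_apply]
  unfold W576.gram lor E
  exact Finset.sum_congr rfl (fun k _ => by
    rw [Matrix.mul_diagonal, Matrix.transpose_apply, Matrix.of_apply, Matrix.of_apply]; ring)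

lemma det_gram {r : ℕ} (v : Fin (r+1) → Fin (r+1) → R) :
    (W576.gram v).det = - (Matrix.of v).det ^ 2 := by
  rw [gram_eq, Matrix.det_mul, Matrix.det_mul, Matrix.det_transpose, det_E]
  ring

/-- mixed Gram matrices -/
lemma mixed_gram {r : ℕ} (v w : Fin (r+1) → Fin (r+1) → R) :
    (Matrix.of (fun i j => lor (v i) (w j))).det = - ((Matrix.of v).det * (Matrix.of w).det) := by
  have : Matrix.of (fun i j => lor (v i) (w j)) = (Matrix.of v) * E R (r+1) * (Matrix.of w)ᵀ := by
    ext i j
    rw [Matrix.mul_apply, Matrix.of_apply]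
    unfold lor E
    exact Finset.sum_congr rfl (fun k _ => by
      rw [Matrix.mul_diagonal, Matrix.transpose_apply, Matrix.of_apply, Matrix.of_apply]; ring)
  rw [this, Matrix.det_mul, Matrix.det_mul, Matrix.det_transpose, det_E]
  ring

/-- the normal vector of `r` vectors in dimension `r+1` -/
noncomputable def nrm {r : ℕ} (u : Fin r → Fin (r+1) → R) : Fin (r+1) → R :=
  fun c => eta c * (Matrix.of (Fin.cons (Pi.single c 1) u : Fin (r+1) → Fin (r+1) → R)).det

/-- the determinant as a linear function of the first row -/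
noncomputable def detCons {r : ℕ} (u : Fin r → Fin (r+1) → R) : (Fin (r+1) → R) →ₗ[R] R :=
  (Matrix.detRowAlternating (n := Fin (r+1)) (R := R)).toMultilinearMap.toLinearMap
    (Fin.cons 0 u : Fin (r+1) → Fin (r+1) → R) 0

lemma detCons_apply {r : ℕ} (u : Fin r → Fin (r+1) → R) (z : Fin (r+1) → R) :
    detCons u z = (Matrix.of (Fin.cons z u : Fin (r+1) → Fin (r+1) → R)).det := by
  unfold detCons
  rw [MultilinearMap.toLinearMap_apply, Fin.update_cons_zero]
  rfl

lemma lor_nrm {r : ℕ} (u : Fin r → Fin (r+1) → R) (z : Fin (r+1) → R) :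
    lor (nrm u) z = (Matrix.of (Fin.cons z u : Fin (r+1) → Fin (r+1) → R)).det := by
  rw [← detCons_apply]
  conv_rhs => rw [← Finset.univ_sum_single z]
  rw [map_sum]
  unfold lor
  refine Finset.sum_congr rfl (fun c _ => ?_)
  have : (Pi.single c (z c) : Fin (r+1) → R) = z c • Pi.single c 1 := by
    rw [← Pi.single_smul]; simp
  rw [this, map_smul, detCons_apply]
  unfold nrm
  have := eta_mul_self (R := R) c
  rw [smul_eq_mul]
  linear_combination (Matrix.of (Fin.cons (Pi.single c 1) u : Fin (r+1) → Fin (r+1) → R)).det * z c * this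

lemma lor_nrm_self {r : ℕ} (u : Fin r → Fin (r+1) → R) (i : Fin r) : lor (nrm u) (u i) = 0 := by
  rw [lor_nrm]
  refine Matrix.det_zero_of_row_eq (i := 0) (j := i.succ) (Fin.succ_ne_zero i).symm ?_
  funext j
  simp [Matrix.of_apply]

end basic

section field
variable {K : Type*} [Field K]

lemma linInd_of_gram {ι : Type*} [Fintype ι] [DecidableEq ι] {d : ℕ} (u : ι → Fin d → K)
    (h : (W576.gram u).det ≠ 0) : LinearIndependent K u := by
  rw [Fintype.linearIndependent_iff]
  intro g hg
  by_contra hne
  push Not at hne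
  have : ∃ v, v ≠ 0 ∧ (W576.gram u) *ᵥ v = 0 := by
    refine ⟨g, ?_, ?_⟩
    · intro h0
      obtain ⟨i, hi⟩ := hne
      exact hi (by rw [h0]; rfl)
    · funext i
      have h2 : lor (∑ j, g j • u j) (u i) = 0 := by
        rw [hg]; simp [lor]
      rw [lor_sum_left] at h2
      rw [Matrix.mulVec, dotProduct, Pi.zero_apply, ← h2]
      refine Finset.sum_congr rfl (fun j _ => ?_)
      change lor (u i) (u j) * g j = _
      rw [lor_comm (u i) (u j)]; ring
  exact h ((Matrix.exists_mulVec_eq_zero_iff).1 this)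

lemma exists_det_ne {r : ℕ} (u : Fin r → Fin (r+1) → K) (h : LinearIndependent K u) :
    ∃ z : Fin (r+1) → K, (Matrix.of (Fin.cons z u : Fin (r+1) → Fin (r+1) → K)).det ≠ 0 := by
  have h1 : ∃ z : Fin (r+1) → K, z ∉ Submodule.span K (Set.range u) := by
    by_contra hcon
    push Not at hcon
    have htop : Submodule.span K (Set.range u) = ⊤ := by
      rw [eq_top_iff]; intro z _; exact hcon z
    have h2 := finrank_range_le_card (R := K) u
    rw [Set.finrank, htop, finrank_top, Module.finrank_fin_fun, Fintype.card_fin] at h2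
    omega
  obtain ⟨z, hz⟩ := h1
  refine ⟨z, ?_⟩
  have h3 : LinearIndependent K (Fin.cons z u : Fin (r+1) → Fin (r+1) → K) :=
    (linearIndependent_finCons).2 ⟨h, hz⟩
  have h4 : LinearIndependent K (Matrix.of (Fin.cons z u : Fin (r+1) → Fin (r+1) → K)).row := h3
  have := (Matrix.linearIndependent_rows_iff_isUnit).1 h4
  rw [Matrix.isUnit_iff_isUnit_det] at this
  exact this.ne_zero

lemma det_nrm {r : ℕ} (u : Fin r → Fin (r+1) → K) (h : LinearIndependent K u) :
    (Matrix.of (Fin.cons (nrm u) u : Fin (r+1) → Fin (r+1) → K)).det = - (W576.gram u).det := by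
  obtain ⟨z, hz⟩ := exists_det_ne u h
  have h1 := mixed_gram (Fin.cons (nrm u) u : Fin (r+1) → Fin (r+1) → K) (Fin.cons z u)
  have h2 : (Matrix.of (fun i j => lor ((Fin.cons (nrm u) u : Fin (r+1) → Fin (r+1) → K) i)
      ((Fin.cons z u : Fin (r+1) → Fin (r+1) → K) j))).det
      = (Matrix.of (Fin.cons z u : Fin (r+1) → Fin (r+1) → K)).det * (W576.gram u).det := by
    rw [Matrix.det_succ_row_zero, Fin.sum_univ_succ]
    have h3 : ∀ j : Fin r, (Matrix.of (fun i j => lor ((Fin.cons (nrm u) u : Fin (r+1) → Fin (r+1) → K) i)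
      ((Fin.cons z u : Fin (r+1) → Fin (r+1) → K) j))) 0 j.succ = 0 := by
      intro j
      simp [lor_nrm_self]
    simp only [h3]
    simp [lor_nrm]
    left
    congr 1
  rw [h2] at h1
  have h4 := mul_left_cancel₀ hz (h1.trans (by ring : _ = (Matrix.of (Fin.cons z u : Fin (r+1) → Fin (r+1) → K)).det * (-(Matrix.of (Fin.cons (nrm u) u : Fin (r+1) → Fin (r+1) → K)).det)))
  rw [h4]; ring

end field

end Pool.Agent.W378.B13
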