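import Pool.Agent.W378.B13a

/-!
# Real Lorentz geometry and transport to a field (part of the bellows theorem, step S13)
-/

namespace Pool.Agent.W378.B13

open Pool.Agent.W576 MeasureTheory Matrix

section real
variable {d : ℕ}

lemma lor_succ (x y : Fin (d+1) → ℝ) : lor x y = -(x 0 * y 0) + ∑ i : Fin d, x i.succ * y i.succ := by
  unfold lor
  rw [Fin.sum_univ_succ]
  simp [eta]

lemma cs (x y : Fin (d+1) → ℝ) :
    (∑ i : Fin d, x i.succ * y i.succ)^2 ≤ (∑ i : Fin d, x i.succ ^ 2) * (∑ i : Fin d, y i.succ ^ 2) :=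
  Finset.sum_mul_sq_le_sq_mul_sq _ _ _

lemma fut_iff (x : Fin (d+1) → ℝ) : Fut x ↔ 0 < x 0 ∧ ∑ i : Fin d, x i.succ ^ 2 < x 0 ^ 2 := by
  unfold Fut
  rw [lor_succ]
  have : ∑ i : Fin d, x i.succ * x i.succ = ∑ i : Fin d, x i.succ ^ 2 :=
    Finset.sum_congr rfl (fun i _ => by ring)
  rw [this]
  constructor
  · rintro ⟨h1, h2⟩; exact ⟨h1, by nlinarith⟩
  · rintro ⟨h1, h2⟩; exact ⟨h1, by nlinarith⟩

lemma lor_neg_of_fut {x y : Fin (d+1) → ℝ} (hx : Fut x) (hy : Fut y) : lor x y < 0 := by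
  rw [fut_iff] at hx hy
  rw [lor_succ]
  have h := cs x y
  obtain ⟨hx0, hx1⟩ := hx
  obtain ⟨hy0, hy1⟩ := hy
  have h1 : (∑ i : Fin d, x i.succ * y i.succ)^2 < (x 0 * y 0)^2 := by
    have hA : 0 ≤ ∑ i : Fin d, x i.succ ^ 2 := Finset.sum_nonneg (fun i _ => sq_nonneg _)
    have hB : 0 ≤ ∑ i : Fin d, y i.succ ^ 2 := Finset.sum_nonneg (fun i _ => sq_nonneg _)
    calc _ ≤ _ := h
      _ ≤ x 0 ^ 2 * (∑ i : Fin d, y i.succ ^ 2) := by gcongr
      _ < x 0 ^ 2 * y 0 ^ 2 := by
          have : 0 < x 0 ^ 2 := by positivity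
          exact mul_lt_mul_of_pos_left hy1 this
      _ = _ := by ring
  have h2 := abs_lt_of_sq_lt_sq h1 (by positivity)
  have := (abs_lt.1 h2).2
  linarith

lemma eq_zero_of_orth {x y : Fin (d+1) → ℝ} (hx : Fut x) (h1 : lor y x = 0) (h2 : lor y y ≤ 0) :
    y = 0 := by
  rw [fut_iff] at hx
  rw [lor_succ] at h1 h2
  have h := cs y x
  obtain ⟨hx0, hx1⟩ := hx
  have e1 : ∑ i : Fin d, y i.succ * x i.succ = y 0 * x 0 := by linarith
  have e2 : ∑ i : Fin d, y i.succ * y i.succ = ∑ i : Fin d, y i.succ ^ 2 :=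
    Finset.sum_congr rfl (fun i _ => by ring)
  rw [e2] at h2
  rw [e1] at h
  have hB : 0 ≤ ∑ i : Fin d, x i.succ ^ 2 := Finset.sum_nonneg (fun i _ => sq_nonneg _)
  have h3 : (∑ i : Fin d, y i.succ ^ 2) ≤ y 0 ^ 2 := by nlinarith
  have h4 : y 0 = 0 := by
    by_contra hne
    have : 0 < y 0 ^ 2 := by positivity
    nlinarith [mul_le_mul_of_nonneg_right h3 hB, mul_lt_mul_of_pos_left hx1 this]
  have h5 : ∑ i : Fin d, y i.succ ^ 2 = 0 := by
    apply le_antisymm
    · rw [h4] at h3; simpa using h3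
    · exact Finset.sum_nonneg (fun i _ => sq_nonneg _)
  have h6 := (Finset.sum_eq_zero_iff_of_nonneg (fun i _ => sq_nonneg _)).1 h5
  funext i
  refine Fin.cases h4 (fun i => ?_) i
  have := h6 i (Finset.mem_univ _)
  simpa using this

lemma fut_of_lor {x y : Fin (d+1) → ℝ} (hx : Fut x) (h1 : lor y x < 0) (h2 : lor y y < 0) :
    Fut y := by
  refine ⟨?_, h2⟩
  by_contra hneg
  push Not at hneg
  have hne : y 0 ≠ 0 := by
    intro h0
    rw [lor_succ, h0] at h2
    have : 0 ≤ ∑ i : Fin d, y i.succ * y i.succ := Finset.sum_nonneg (fun i _ => mul_self_nonneg _)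
    linarith
  have hy : Fut (-y) := by
    refine ⟨?_, ?_⟩
    · have := lt_of_le_of_ne hneg hne
      simpa using this
    · rw [lor_neg_left, lor_comm, lor_neg_left]; linarith
  have := lor_neg_of_fut hy hx
  rw [lor_neg_left] at this
  linarith

lemma linInd_iff_gram {ι : Type*} [Fintype ι] [DecidableEq ι] [Nonempty ι]
    (u : ι → Fin (d+1) → ℝ) (hu : ∀ i, Fut (u i)) :
    LinearIndependent ℝ u ↔ (W576.gram u).det ≠ 0 := by
  refine ⟨fun h h0 => ?_, linInd_of_gram u⟩
  obtain ⟨c, hc, hc2⟩ := (Matrix.exists_mulVec_eq_zero_iff).2 h0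
  rw [Fintype.linearIndependent_iff] at h
  set y := ∑ i, c i • u i with hy
  have hyu : ∀ i, lor y (u i) = 0 := by
    intro i
    rw [hy, lor_sum_left]
    have := congrFun hc2 i
    rw [Matrix.mulVec, dotProduct, Pi.zero_apply] at this
    rw [← this]
    refine Finset.sum_congr rfl (fun j _ => ?_)
    change _ = lor (u i) (u j) * c j
    rw [lor_comm (u i) (u j)]; ring
  have hyy : lor y y = 0 := by
    conv_lhs => rw [hy]
    rw [lor_sum_left]
    refine Finset.sum_eq_zero (fun i _ => ?_)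
    rw [lor_comm, hyu, mul_zero]
  have hy0 : y = 0 := eq_zero_of_orth (hu (Classical.arbitrary ι)) (hyu _) hyy.le
  exact hc (funext (h c hy0))

end real

section transport
variable {κ : Type*} [Field κ] (ρ : ℝ →+* κ)

lemma map_eta {d : ℕ} (i : Fin d) : ρ (eta i) = eta i := by
  unfold eta; split_ifs <;> simp

lemma map_lor {d : ℕ} (x y : Fin d → ℝ) : lor (ρ ∘ x) (ρ ∘ y) = ρ (lor x y) := by
  unfold lor
  rw [map_sum]
  exact Finset.sum_congr rfl (fun i _ => by simp [map_eta])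

lemma map_det {r : ℕ} (x : Fin r → Fin r → ℝ) :
    (Matrix.of (fun i => ρ ∘ x i)).det = ρ (Matrix.of x).det := by
  rw [RingHom.map_det]
  congr 1

lemma gram_map {ι : Type*} {d : ℕ} (x : ι → Fin d → ℝ) :
    W576.gram (fun i => ρ ∘ x i) = (W576.gram x).map ρ := by
  ext i j
  exact map_lor ρ _ _

lemma cons_map {r : ℕ} (y : Fin (r+1) → ℝ) (x : Fin r → Fin (r+1) → ℝ) :
    (Fin.cons (ρ ∘ y) (fun i => ρ ∘ x i) : Fin (r+1) → Fin (r+1) → κ)
      = fun i => ρ ∘ ((Fin.cons y x : Fin (r+1) → Fin (r+1) → ℝ) i) := by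
  funext i
  refine Fin.cases ?_ (fun i => ?_) i <;> simp

/-- isometries and determinants -/
lemma det_mulVec {r : ℕ} {P : Matrix (Fin r) (Fin r) κ} (hP : IsSO P) (z : Fin r → Fin r → κ) :
    (Matrix.of (fun i => P.mulVec (z i))).det = (Matrix.of z).det := by
  have : Matrix.of (fun i => P.mulVec (z i)) = (Matrix.of z) * Pᵀ := by
    ext i j
    simp only [Matrix.of_apply, Matrix.mulVec, dotProduct, Matrix.mul_apply, Matrix.transpose_apply]
    exact Finset.sum_congr rfl (fun k _ => by ring)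
  rw [this, Matrix.det_mul, Matrix.det_transpose, hP.2, mul_one]

lemma isSO_inv {r : ℕ} {P : Matrix (Fin r) (Fin r) κ} (hP : IsSO P) :
    IsSO P⁻¹ ∧ (∀ z, P.mulVec (P⁻¹.mulVec z) = z) ∧ (∀ z, P⁻¹.mulVec (P.mulVec z) = z) := by
  have hu : IsUnit P.det := by rw [hP.2]; exact isUnit_one
  have h1 : ∀ z, P.mulVec (P⁻¹.mulVec z) = z := by
    intro z; rw [Matrix.mulVec_mulVec, Matrix.mul_nonsing_inv _ hu, Matrix.one_mulVec]
  have h2 : ∀ z, P⁻¹.mulVec (P.mulVec z) = z := by
    intro z; rw [Matrix.mulVec_mulVec, Matrix.nonsing_inv_mul _ hu, Matrix.one_mulVec]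
  refine ⟨⟨fun x y => ?_, ?_⟩, h1, h2⟩
  · rw [← hP.1, h1, h1]
  · rw [Matrix.det_nonsing_inv, hP.2]; simp

/-- The future cone spanned by a set of vectors, described intrinsically. -/
def CC {r : ℕ} (u : Fin r → Fin (r+1) → κ) : Set (Fin (r+1) → κ) :=
  {z | (∀ i, ∃ a : ℝ, a < 0 ∧ lor z (u i) = ρ a) ∧
    (∃ e : ℝ, (Matrix.of (Fin.cons z u : Fin (r+1) → Fin (r+1) → κ)).det = ρ e) ∧
    ∃ b : ℝ, b < 0 ∧ lor z z = ρ b}

lemma cons_mulVec {r : ℕ} (P : Matrix (Fin (r+1)) (Fin (r+1)) κ) (z : Fin (r+1) → κ)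
    (u : Fin r → Fin (r+1) → κ) :
    (Fin.cons (P.mulVec z) (fun i => P.mulVec (u i)) : Fin (r+1) → Fin (r+1) → κ)
      = fun i => P.mulVec ((Fin.cons z u : Fin (r+1) → Fin (r+1) → κ) i) := by
  funext i
  refine Fin.cases ?_ (fun i => ?_) i <;> simp

lemma CC_real {r : ℕ} (hr : 1 ≤ r) (x : Fin r → Fin (r+1) → ℝ) (hx : ∀ i, Fut (x i))
    (hli : LinearIndependent ℝ x) :
    CC ρ (fun i => ρ ∘ x i) = {z | ∃ y, Fut y ∧ z = ρ ∘ y} := by
  have hne : Nonempty (Fin r) := ⟨⟨0, hr⟩⟩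
  ext z
  constructor
  · rintro ⟨h1, ⟨e, he⟩, b, hb, hbz⟩
    choose a ha ha' using h1
    -- the matrix of functionals
    set M : Matrix (Fin (r+1)) (Fin (r+1)) ℝ :=
      Matrix.of (fun i j => (Fin.cons (nrm x) x : Fin (r+1) → Fin (r+1) → ℝ) i j * eta j) with hM
    have hMv : ∀ y : Fin (r+1) → ℝ, M.mulVec y
        = fun i => lor ((Fin.cons (nrm x) x : Fin (r+1) → Fin (r+1) → ℝ) i) y := by
      intro y; funext i
      rw [Matrix.mulVec, dotProduct]
      unfold lor
      exact Finset.sum_congr rfl (fun j _ => by rw [hM, Matrix.of_apply]; ring)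
    have hMdet : M.det ≠ 0 := by
      intro h0
      obtain ⟨y, hy, hy0⟩ := (Matrix.exists_mulVec_eq_zero_iff).2 h0
      rw [hMv] at hy0
      have g0 : lor (nrm x) y = 0 := by simpa using congrFun hy0 0
      have gi : ∀ i, lor (x i) y = 0 := fun i => by simpa using congrFun hy0 i.succ
      rw [lor_nrm] at g0
      -- y in the span of x
      have hyspan : y ∈ Submodule.span ℝ (Set.range x) := by
        by_contra hns
        have h3 : LinearIndependent ℝ (Fin.cons y x : Fin (r+1) → Fin (r+1) → ℝ) :=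
          (linearIndependent_finCons).2 ⟨hli, hns⟩
        have h4 : LinearIndependent ℝ
            (Matrix.of (Fin.cons y x : Fin (r+1) → Fin (r+1) → ℝ)).row := h3
        have := (Matrix.linearIndependent_rows_iff_isUnit).1 h4
        rw [Matrix.isUnit_iff_isUnit_det] at this
        exact this.ne_zero g0
      obtain ⟨c, hc⟩ := (Submodule.mem_span_range_iff_exists_fun ℝ).1 hyspan
      have hyy : lor y y = 0 := by
        have e0 : lor y y = lor (∑ i, c i • x i) y := by rw [hc]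
        rw [e0, lor_sum_left]
        exact Finset.sum_eq_zero (fun i _ => by rw [gi, mul_zero])
      exact hy (eq_zero_of_orth (hx (Classical.arbitrary _)) (by rw [lor_comm]; exact gi _) hyy.le)
    set bvec : Fin (r+1) → ℝ := Fin.cons e a with hbvec
    set y := M⁻¹.mulVec bvec with hy
    have hu : IsUnit M.det := isUnit_iff_ne_zero.2 hMdet
    have hMy : M.mulVec y = bvec := by
      rw [hy, Matrix.mulVec_mulVec, Matrix.mul_nonsing_inv _ hu, Matrix.one_mulVec]
    -- z = ρ y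
    have hMz : (M.map ρ).mulVec z = ρ ∘ bvec := by
      funext i
      have e1 : (M.map ρ).mulVec z i
          = lor ((Fin.cons (nrm (fun i => ρ ∘ x i)) (fun i => ρ ∘ x i) :
              Fin (r+1) → Fin (r+1) → κ) i) z := by
        rw [Matrix.mulVec, dotProduct]
        unfold lor
        refine Finset.sum_congr rfl (fun j _ => ?_)
        rw [Matrix.map_apply, hM, Matrix.of_apply, map_mul, map_eta]
        have : ρ ((Fin.cons (nrm x) x : Fin (r+1) → Fin (r+1) → ℝ) i j)
            = (Fin.cons (nrm (fun i => ρ ∘ x i)) (fun i => ρ ∘ x i) :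
              Fin (r+1) → Fin (r+1) → κ) i j := by
          refine Fin.cases ?_ (fun i => ?_) i
          · simp only [Fin.cons_zero]
            unfold nrm
            have hs : (Pi.single j 1 : Fin (r+1) → κ) = ρ ∘ (Pi.single j 1 : Fin (r+1) → ℝ) := by
              funext k
              simp only [Function.comp, Pi.single_apply]
              split_ifs <;> simp
            rw [map_mul, map_eta, ← map_det, ← cons_map, hs]
          · simp
        rw [this]; ring
      rw [e1]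
      refine Fin.cases ?_ (fun i => ?_) i
      · simp only [Fin.cons_zero, hbvec, Function.comp]
        rw [lor_nrm, he]
      · simp only [Fin.cons_succ, hbvec, Function.comp]
        rw [lor_comm]
        exact ha' i
    have hzy : z = ρ ∘ y := by
      have h5 : (M.map ρ).mulVec (ρ ∘ y) = ρ ∘ bvec := by
        rw [← hMy]
        funext i
        simp [Matrix.mulVec, dotProduct, map_sum]
      have h6 : (M.map ρ).det ≠ 0 := by
        have : (M.map ρ).det = ρ M.det := by rw [RingHom.map_det]; rfl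
        rw [this]
        exact fun h => hMdet ((map_eq_zero ρ).1 h)
      have h7 : (M.map ρ).mulVec (z - ρ ∘ y) = 0 := by
        rw [Matrix.mulVec_sub, hMz, h5, sub_self]
      have := Matrix.eq_zero_of_mulVec_eq_zero h6 h7
      exact sub_eq_zero.1 this
    refine ⟨y, ?_, hzy⟩
    have hyx : ∀ i, lor y (x i) = a i := by
      intro i
      have := ha' i
      rw [hzy, map_lor] at this
      exact ρ.injective this
    have hyy : lor y y = b := by
      rw [hzy, map_lor] at hbz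
      exact ρ.injective hbz
    exact fut_of_lor (hx ⟨0, hr⟩) (by rw [hyx]; exact ha _) (by rw [hyy]; exact hb)
  · rintro ⟨y, hy, rfl⟩
    refine ⟨fun i => ⟨lor y (x i), lor_neg_of_fut hy (hx i), map_lor ρ _ _⟩,
      ⟨(Matrix.of (Fin.cons y x : Fin (r+1) → Fin (r+1) → ℝ)).det, ?_⟩,
      ⟨lor y y, hy.2, map_lor ρ _ _⟩⟩
    rw [cons_map, map_det]

lemma CC_eq {r : ℕ} (hr : 1 ≤ r) {P : Matrix (Fin (r+1)) (Fin (r+1)) κ} (hP : IsSO P)
    (x : Fin r → Fin (r+1) → ℝ) (hx : ∀ i, Fut (x i)) (hli : LinearIndependent ℝ x) :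
    CC ρ (fun i => P.mulVec (ρ ∘ x i)) = {z | ∃ y, Fut y ∧ z = P.mulVec (ρ ∘ y)} := by
  obtain ⟨hQ, h1, h2⟩ := isSO_inv hP
  have key : ∀ z, P.mulVec z ∈ CC ρ (fun i => P.mulVec (ρ ∘ x i)) ↔ z ∈ CC ρ (fun i => ρ ∘ x i) := by
    intro z
    unfold CC
    simp only [Set.mem_ofPred_eq]
    rw [cons_mulVec, det_mulVec hP]
    simp only [hP.1]
  ext z
  rw [← h1 z, key, CC_real ρ hr x hx hli]
  constructor
  · rintro ⟨y, hy, e⟩; exact ⟨y, hy, by rw [e]⟩
  · rintro ⟨y, hy, e⟩
    refine ⟨y, hy, ?_⟩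
    rw [h1] at e
    rw [e, h2]

/-- the existence of the transporting isometry -/
lemma exists_P {r : ℕ} (hr : 1 ≤ r) (x : Fin (r+1) → Fin (r+1) → ℝ) (hx : ∀ i, Fut (x i))
    (w : Fin (r+1) → Fin (r+1) → κ) (hg : ∀ i j, lor (w i) (w j) = ρ (lor (x i) (x j)))
    (hd : (Matrix.of w).det = ρ (Matrix.of x).det)
    (hli : LinearIndependent ℝ (fun i : Fin r => x i.succ)) :
    ∃ P : Matrix (Fin (r+1)) (Fin (r+1)) κ, IsSO P ∧ ∀ i, w i = P.mulVec (ρ ∘ x i) := by
  have hne : Nonempty (Fin r) := ⟨⟨0, hr⟩⟩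
  set x' : Fin r → Fin (r+1) → κ := fun i => ρ ∘ x i.succ with hx'
  set w' : Fin r → Fin (r+1) → κ := fun i => w i.succ with hw'
  have hgram : W576.gram w' = W576.gram x' := by
    ext i j
    change lor (w i.succ) (w j.succ) = lor (ρ ∘ x i.succ) (ρ ∘ x j.succ)
    rw [hg, map_lor]
  have hgr : (W576.gram x').det ≠ 0 := by
    have h1 : W576.gram x' = (W576.gram (fun i : Fin r => x i.succ)).map ρ :=
      gram_map ρ (fun i : Fin r => x i.succ)
    have h2 := (linInd_iff_gram (fun i : Fin r => x i.succ) (fun i => hx _)).1 hli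
    rw [h1]
    have : ((W576.gram (fun i : Fin r => x i.succ)).map ρ).det
        = ρ (W576.gram (fun i : Fin r => x i.succ)).det := by rw [RingHom.map_det]; rfl
    rw [this]
    exact fun h => h2 ((map_eq_zero ρ).1 h)
  set A : Matrix (Fin (r+1)) (Fin (r+1)) κ := Matrix.of (Fin.cons (nrm x') x') with hA
  set B : Matrix (Fin (r+1)) (Fin (r+1)) κ := Matrix.of (Fin.cons (nrm w') w') with hB
  have hAd : A.det = - (W576.gram x').det := det_nrm x' (linInd_of_gram x' hgr)
  have hBd : B.det = - (W576.gram x').det := by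
    rw [← hgram]; exact det_nrm w' (linInd_of_gram w' (by rw [hgram]; exact hgr))
  have hA0 : A.det ≠ 0 := by rw [hAd]; exact neg_ne_zero.2 hgr
  have hB0 : B.det ≠ 0 := by rw [hBd]; exact neg_ne_zero.2 hgr
  have hAu : IsUnit A.det := isUnit_iff_ne_zero.2 hA0
  have hATu : IsUnit (Aᵀ).det := by rw [Matrix.det_transpose]; exact hAu
  set P : Matrix (Fin (r+1)) (Fin (r+1)) κ := Bᵀ * (Aᵀ)⁻¹ with hP
  have hPA : P * Aᵀ = Bᵀ := by
    rw [hP, Matrix.mul_assoc, Matrix.nonsing_inv_mul _ hATu, Matrix.mul_one]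
  clear_value P
  have hPdet : P.det = 1 := by
    have := congrArg Matrix.det hPA
    rw [Matrix.det_mul, Matrix.det_transpose, Matrix.det_transpose, hBd, ← hAd] at this
    exact mul_right_cancel₀ hA0 (by rw [this, one_mul])
  -- Gram matrices of A and B agree
  have hnn : lor (nrm w') (nrm w') = lor (nrm x') (nrm x') := by
    rw [lor_nrm, lor_nrm]
    exact hBd.trans hAd.symm
  have hGAB : B * E κ (r+1) * Bᵀ = A * E κ (r+1) * Aᵀ := by
    have e1 : W576.gram (Fin.cons (nrm w') w' : Fin (r+1) → Fin (r+1) → κ)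
        = W576.gram (Fin.cons (nrm x') x' : Fin (r+1) → Fin (r+1) → κ) := by
      ext i j
      change lor ((Fin.cons (nrm w') w' : Fin (r+1) → Fin (r+1) → κ) i)
        ((Fin.cons (nrm w') w' : Fin (r+1) → Fin (r+1) → κ) j) = _
      change _ = lor ((Fin.cons (nrm x') x' : Fin (r+1) → Fin (r+1) → κ) i)
        ((Fin.cons (nrm x') x' : Fin (r+1) → Fin (r+1) → κ) j)
      refine Fin.cases ?_ (fun i => ?_) i <;> refine Fin.cases ?_ (fun j => ?_) j
      · simpa using hnn
      · simp only [Fin.cons_zero, Fin.cons_succ]; rw [lor_nrm_self, lor_nrm_self]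
      · simp only [Fin.cons_zero, Fin.cons_succ]
        rw [lor_comm, lor_nrm_self, lor_comm, lor_nrm_self]
      · simp only [Fin.cons_succ]
        exact congrFun (congrFun hgram i) j
    rw [gram_eq, gram_eq] at e1
    exact e1
  have hPE : Pᵀ * E κ (r+1) * P = E κ (r+1) := by
    have h1 : A * (Pᵀ * E κ (r+1) * P) * Aᵀ = A * E κ (r+1) * Aᵀ := by
      rw [← hGAB]
      have h2 : A * Pᵀ = B := by
        have := congrArg Matrix.transpose hPA
        rwa [Matrix.transpose_mul, Matrix.transpose_transpose, Matrix.transpose_transpose] at this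
      calc A * (Pᵀ * E κ (r+1) * P) * Aᵀ = (A * Pᵀ) * E κ (r+1) * (P * Aᵀ) := by
            simp only [Matrix.mul_assoc]
        _ = _ := by rw [h2, hPA]
    have h3 : A * (Pᵀ * E κ (r+1) * P) = A * E κ (r+1) := by
      have := congrArg (· * (Aᵀ)⁻¹) h1
      simpa [Matrix.mul_assoc, Matrix.mul_nonsing_inv _ hATu] using this
    have := congrArg (A⁻¹ * ·) h3
    simpa [← Matrix.mul_assoc, Matrix.nonsing_inv_mul _ hAu] using this
  have hlorE : ∀ a b : Fin (r+1) → κ, lor a b = a ⬝ᵥ (E κ (r+1) *ᵥ b) := by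
    intro a b
    unfold lor E
    rw [dotProduct]
    refine Finset.sum_congr rfl (fun i _ => ?_)
    rw [Matrix.mulVec_diagonal]; ring
  have hSO : IsSO P := by
    refine ⟨fun a b => ?_, hPdet⟩
    have e0 : ∀ a c : Fin (r+1) → κ, (P *ᵥ a) ⬝ᵥ c = a ⬝ᵥ (Pᵀ *ᵥ c) := by
      intro a c
      rw [Matrix.dotProduct_mulVec, Matrix.vecMul_transpose]
    rw [hlorE, hlorE, e0, Matrix.mulVec_mulVec, Matrix.mulVec_mulVec, hPE]
  have hrow : ∀ j, P.mulVec (A j) = B j := by
    intro j
    have := congrFun (congrArg Matrix.col hPA) j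
    have h1 : (P * Aᵀ).col j = P.mulVec (A j) := by
      funext i; simp [Matrix.col, Matrix.mul_apply, Matrix.mulVec, dotProduct]
    have h2 : (Bᵀ).col j = B j := by
      funext i; simp [Matrix.col]
    rw [← h1, ← h2]; exact this
  have hsucc : ∀ i : Fin r, w i.succ = P.mulVec (ρ ∘ x i.succ) := by
    intro i
    have := hrow i.succ
    exact this.symm
  refine ⟨P, hSO, fun i => ?_⟩
  refine Fin.cases ?_ hsucc i
  -- the last vertex
  set z := w 0 - P.mulVec (ρ ∘ x 0) with hz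
  have hz1 : ∀ i, lor z (w' i) = 0 := by
    intro i
    rw [hz, lor_sub_left, hw']
    change lor (w 0) (w i.succ) - lor (P *ᵥ (ρ ∘ x 0)) (w i.succ) = 0
    rw [hg]
    rw [hsucc i, hSO.1, map_lor, sub_self]
  have hz2 : lor (nrm w') z = 0 := by
    rw [lor_nrm, ← detCons_apply, hz, map_sub, detCons_apply, detCons_apply]
    have e1 : (Fin.cons (w 0) w' : Fin (r+1) → Fin (r+1) → κ) = w := by
      rw [hw']; funext i; refine Fin.cases ?_ (fun i => ?_) i <;> simp
    have e2 : (Fin.cons (P.mulVec (ρ ∘ x 0)) w' : Fin (r+1) → Fin (r+1) → κ)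
        = fun i => P.mulVec (ρ ∘ x i) := by
      funext i; refine Fin.cases ?_ (fun i => ?_) i
      · simp
      · simp only [Fin.cons_succ, hw']; exact hsucc i
    rw [e1, e2, det_mulVec hSO (fun i => ρ ∘ x i), map_det, hd, sub_self]
  have hz3 : (B * E κ (r+1)).mulVec z = 0 := by
    rw [← Matrix.mulVec_mulVec]
    funext i
    change (B i) ⬝ᵥ (E κ (r+1) *ᵥ z) = 0
    rw [← hlorE]
    refine Fin.cases ?_ (fun i => ?_) i
    · exact hz2
    · rw [lor_comm]; exact hz1 i
  have hBE : (B * E κ (r+1)).det ≠ 0 := by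
    rw [Matrix.det_mul, det_E]
    simpa using hB0
  have := Matrix.eq_zero_of_mulVec_eq_zero hBE hz3
  exact sub_eq_zero.1 this

end transport

end Pool.Agent.W378.B13
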