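import Pool.Agent.W85.RQINJ
import Pool.Agent.W40.RQAF
import Pool.Agent.W757.Q2.St

set_option autoImplicit false

open Topology Filter Metric Set Polynomial MeasureTheory

namespace Pool.Agent.W378.Q2INJ

open Pool.Agent.W757.QR
open Pool.Agent.W757.Q2 (Ginf)
open Pool.Agent.W85.RQINJ
open Pool.Agent.H713R5.QJ.INJ (exists_lower exists_upper vol_annulus biUnion_le small)

/-- upper bound of a polynomial -/
lemma poly_le (P : ℂ[X]) (d : ℕ) (h : P.natDegree ≤ d) :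
    ∃ C : ℝ, 0 < C ∧ ∀ ζ : ℂ, ‖P.eval ζ‖ ≤ C * (1 + ‖ζ‖) ^ d := by
  refine ⟨1 + ∑ i ∈ Finset.range (d + 1), ‖P.coeff i‖, by positivity, fun ζ => ?_⟩
  rw [eval_eq_sum_range' (show P.natDegree < d + 1 by omega)]
  refine (norm_sum_le _ _).trans ?_
  have h1 : ∀ i ∈ Finset.range (d + 1), ‖P.coeff i * ζ ^ i‖ ≤ ‖P.coeff i‖ * (1 + ‖ζ‖) ^ d := by
    intro i hi
    rw [norm_mul, norm_pow]
    refine mul_le_mul_of_nonneg_left ?_ (norm_nonneg _)
    have h2 : ‖ζ‖ ^ i ≤ (1 + ‖ζ‖) ^ i := pow_le_pow_left₀ (norm_nonneg _) (by linarith) _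
    refine h2.trans (pow_le_pow_right₀ (by linarith [norm_nonneg ζ]) ?_)
    have := Finset.mem_range.1 hi
    omega
  refine (Finset.sum_le_sum h1).trans ?_
  rw [← Finset.sum_mul]
  refine mul_le_mul_of_nonneg_right (by linarith) (by positivity)

/-- lower bound of a product of differences -/
lemma prod_ge (s : Multiset ℂ) (e : ℝ) (he : 0 < e) :
    ∃ C : ℝ, 0 < C ∧ ∀ ζ : ℂ, (∀ z ∈ s, e ≤ ‖ζ - z‖) →
      (1 + ‖ζ‖) ^ (Multiset.card s) ≤ C * ‖(s.map fun z => ζ - z).prod‖ := by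
  induction s using Multiset.induction_on with
  | empty => exact ⟨1, one_pos, fun ζ _ => by simp⟩
  | cons w s ih =>
    obtain ⟨C, hC, h⟩ := ih
    refine ⟨(1 + (1 + ‖w‖) / e) * C, by positivity, fun ζ hζ => ?_⟩
    have h1 := h ζ fun z hz => hζ z (Multiset.mem_cons_of_mem hz)
    have h2 := hζ w (Multiset.mem_cons_self w s)
    rw [Multiset.card_cons, pow_succ, Multiset.map_cons, Multiset.prod_cons, norm_mul]
    have h3 : 1 + ‖ζ‖ ≤ (1 + (1 + ‖w‖) / e) * ‖ζ - w‖ := by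
      have h4 : ‖ζ‖ ≤ ‖ζ - w‖ + ‖w‖ := by
        have := norm_add_le (ζ - w) w
        rwa [sub_add_cancel] at this
      have h5 : 1 + ‖w‖ ≤ (1 + ‖w‖) / e * ‖ζ - w‖ := by
        rw [div_mul_eq_mul_div, le_div_iff₀ he]
        exact mul_le_mul_of_nonneg_left h2 (by positivity)
      nlinarith
    calc (1 + ‖ζ‖) ^ (Multiset.card s) * (1 + ‖ζ‖)
        ≤ (C * ‖(s.map fun z => ζ - z).prod‖) * ((1 + (1 + ‖w‖) / e) * ‖ζ - w‖) :=
          mul_le_mul h1 h3 (by positivity) (by positivity)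
      _ = _ := by ring

/-- `P / Q` is bounded away from the poles -/
lemma quot_bound {d : ℕ} {P Q : ℂ[X]} (hP : P.natDegree ≤ d) (hQ : Q.natDegree = d) (hQ0 : Q ≠ 0)
    (e : ℝ) (he : 0 < e) : ∃ M : ℝ, 0 < M ∧ ∀ ζ : ℂ, (∀ z ∈ Q.roots, e ≤ ‖ζ - z‖) →
      ‖P.eval ζ‖ ≤ M * ‖Q.eval ζ‖ := by
  obtain ⟨C, hC, h⟩ := poly_le P d hP
  obtain ⟨C₁, hC₁, h1⟩ := prod_ge Q.roots e he
  have hl : 0 < ‖Q.leadingCoeff‖ := norm_pos_iff.2 (leadingCoeff_ne_zero.2 hQ0)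
  refine ⟨C * C₁ / ‖Q.leadingCoeff‖, by positivity, fun ζ hζ => ?_⟩
  have hs : Q.Splits := IsAlgClosed.splits Q
  have h2 := h1 ζ hζ
  rw [← hs.natDegree_eq_card_roots, hQ] at h2
  rw [hs.eval_eq_prod_roots ζ, norm_mul]
  refine (h ζ).trans ?_
  calc C * (1 + ‖ζ‖) ^ d ≤ C * (C₁ * ‖(Q.roots.map fun z => ζ - z).prod‖) :=
        mul_le_mul_of_nonneg_left h2 hC.le
    _ = _ := by field_simp

lemma pre_card_le {d : ℕ} {P Q : ℂ[X]} {y : ℂ} (h : Gv d P Q y) : (pre P Q y).card ≤ d := by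
  rw [← h.1]
  exact (Multiset.toFinset_card_le _).trans (card_roots' _)

lemma fr_eq {P Q : ℂ[X]} (hco : IsCoprime P Q) {w ζ : ℂ} (h : ζ ∈ pre P Q w) :
    Q.eval ζ ≠ 0 ∧ fr P Q ζ = w := by
  have h4 := mem_pre h
  have h5 : Q.eval ζ ≠ 0 := by
    intro h5
    rw [h5, mul_zero] at h4
    exact coprime_ne hco ζ h4 h5
  exact ⟨h5, by rw [fr, div_eq_iff h5, h4]⟩

/-- decay at infinity -/
lemma inf_bound {d : ℕ} {P Q : ℂ[X]} {Z : Finset ℂ} {a b : ℂ → ℂ} (hT : RM d P Q)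
    (hc : ∀ z ∈ Z, Q.eval z ≠ 0) (hG : Ginf d P Q)
    (hinv : ∀ y : ℂ, y ∉ Z → Gv d P Q y →
      ∑ ζ ∈ pre P Q y, qd Z a b ζ / d1 P Q ζ ^ 2 = qd Z a b y) :
    ∃ M K : ℝ, 1 ≤ M ∧ 0 < K ∧ ∀ y : ℂ, M ≤ ‖y‖ → y ∉ Z → Gv d P Q y →
      ‖qd Z a b y‖ ≤ K / ‖y‖ ^ 4 := by
  obtain ⟨hd, hco, hmax⟩ := hT
  obtain ⟨hQd, -, hpole⟩ := hG
  have hQ0 : Q ≠ 0 := by
    rintro rfl
    simp at hQd
    omega
  have hP : P.natDegree ≤ d := by
    rw [← hmax]; exact le_max_left _ _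
  set h : ℂ → ℂ := fun ζ => qd Z a b ζ * P.eval ζ ^ 4 / (wn P Q).eval ζ ^ 2 with hh
  have hloc : ∀ z : ℂ, ∃ e K : ℝ, z ∈ Q.roots.toFinset → 0 < e ∧ 0 < K ∧
      ∀ ζ : ℂ, ‖ζ - z‖ < e → ‖h ζ‖ ≤ K := by
    intro z
    by_cases hz : z ∈ Q.roots.toFinset
    · have hz0 : Q.eval z = 0 := by
        rw [Multiset.mem_toFinset, mem_roots hQ0] at hz
        exact hz
      have hw := hpole z hz0
      have hcont : ContinuousAt h z := by
        refine ContinuousAt.div ?_ ((wn P Q).continuous.continuousAt.pow 2) (pow_ne_zero 2 hw)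
        refine ContinuousAt.mul ?_ (P.continuous.continuousAt.pow 4)
        unfold qd
        refine tendsto_finsetSum _ fun z' hz' => ?_
        have hne : z - z' ≠ 0 := by
          intro h0
          rw [sub_eq_zero] at h0
          exact hc z' hz' (h0 ▸ hz0)
        have h1 : ContinuousAt (fun ζ : ℂ => ζ - z') z := by fun_prop
        exact (continuousAt_const.div (h1.pow 2) (pow_ne_zero 2 hne)).add
          (continuousAt_const.div h1 hne)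
      obtain ⟨e, he, hb⟩ := Metric.eventually_nhds_iff.1
        (hcont.norm.eventually_lt_const (show ‖h z‖ < ‖h z‖ + 1 by linarith))
      refine ⟨e, ‖h z‖ + 1, fun _ => ⟨he, by positivity, fun ζ hζ => ?_⟩⟩
      exact (hb (by rw [dist_eq_norm]; exact hζ)).le
    · exact ⟨1, 1, fun h => absurd h hz⟩
  choose e' K' hloc using hloc
  obtain ⟨e, he, he'⟩ := exists_lower Q.roots.toFinset e' fun z hz => (hloc z hz).1
  obtain ⟨K, hK, hK'⟩ := exists_upper Q.roots.toFinset K'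
  obtain ⟨M, hM, hMb⟩ := quot_bound hP hQd hQ0 e he
  refine ⟨M + 1, d * K, by linarith, ?_, fun y hy hyZ hyG => ?_⟩
  · have : (0 : ℝ) < d := by exact_mod_cast (by omega : 0 < d)
    positivity
  have hy0 : 0 < ‖y‖ := by linarith
  have hyn : y ≠ 0 := norm_pos_iff.1 hy0
  rw [← hinv y hyZ hyG]
  have h1 : ∀ ζ ∈ pre P Q y, ‖qd Z a b ζ / d1 P Q ζ ^ 2‖ ≤ K / ‖y‖ ^ 4 := by
    intro ζ hζ
    obtain ⟨hQζ, hf⟩ := fr_eq hco hζ
    have hPy := mem_pre hζ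
    have hwζ := hyG.2 ζ hζ
    have h2 : ∃ z ∈ Q.roots, ‖ζ - z‖ < e := by
      by_contra hcon
      push Not at hcon
      have h3 := hMb ζ hcon
      rw [hPy, norm_mul] at h3
      have h4 : 0 < ‖Q.eval ζ‖ := norm_pos_iff.2 hQζ
      nlinarith
    obtain ⟨z, hz, hzζ⟩ := h2
    have hz' : z ∈ Q.roots.toFinset := Multiset.mem_toFinset.2 hz
    have h5 := (hloc z hz').2.2 ζ (lt_of_lt_of_le hzζ (he' z hz'))
    have h6 : qd Z a b ζ / d1 P Q ζ ^ 2 = h ζ / y ^ 4 := by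
      simp only [hh, d1, hPy]
      field_simp
    rw [h6, norm_div, norm_pow]
    exact div_le_div_of_nonneg_right (h5.trans (hK' z hz')) (by positivity)
  refine (norm_sum_le _ _).trans ((Finset.sum_le_sum h1).trans ?_)
  rw [Finset.sum_const, nsmul_eq_mul, mul_div_assoc]
  refine mul_le_mul_of_nonneg_right ?_ (by positivity)
  exact_mod_cast pre_card_le hyG

/-- complement of small discs about the points of `Z` -/
def Er (Z : Finset ℂ) (wt : ℂ → ℝ) (r : ℝ) : Set ℂ := (⋃ z ∈ Z, closedBall z (r * wt z))ᶜ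

/-- the sum over the preimages -/
noncomputable def Gs (P Q : ℂ[X]) (Z : Finset ℂ) (a b : ℂ → ℂ) (w : ℂ) : ENNReal :=
  ∑ ζ ∈ pre P Q w, ENNReal.ofReal (‖qd Z a b ζ‖ / ‖d1 P Q ζ‖ ^ 2)

lemma Er_meas (Z : Finset ℂ) (wt : ℂ → ℝ) (r : ℝ) : MeasurableSet (Er Z wt r) :=
  (Z.measurableSet_biUnion fun _ _ => measurableSet_closedBall).compl

lemma mem_Er {Z : Finset ℂ} {wt : ℂ → ℝ} {r : ℝ} {ζ : ℂ} :
    ζ ∈ Er Z wt r ↔ ∀ z ∈ Z, r * wt z < ‖ζ - z‖ := by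
  unfold Er
  simp only [mem_compl_iff, mem_iUnion, mem_closedBall, dist_eq_norm, not_exists, not_le]

/-- area formula -/
lemma mass_eq (hAF : StAF) {d : ℕ} (P Q : ℂ[X]) (Z : Finset ℂ) (a b : ℂ → ℂ) (hT : RM d P Q)
    (E : Set ℂ) (hE : MeasurableSet E) :
    ∫⁻ w in E, Gs P Q Z a b w ≤
      ∫⁻ z in {z : ℂ | Q.eval z ≠ 0 ∧ fr P Q z ∈ E}, ENNReal.ofReal ‖qd Z a b z‖ := by
  classical
  have hqm : Measurable (qd Z a b) := Pool.Agent.H713R5.QJ.INJ.qd_measurable Z a b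
  have hdm : Measurable fun z : ℂ => d1 P Q z := by
    unfold d1
    exact (wn P Q).continuous.measurable.div (Q.continuous.measurable.pow_const 2)
  have hgm : Measurable fun z : ℂ => ENNReal.ofReal (‖qd Z a b z‖ / ‖d1 P Q z‖ ^ 2) := by
    fun_prop
  unfold Gs
  rw [hAF d P Q _ E hT hgm hE]
  refine lintegral_mono fun z => ?_
  rw [← ENNReal.ofReal_mul (by positivity)]
  refine ENNReal.ofReal_le_ofReal ?_
  by_cases h0 : ‖d1 P Q z‖ ^ 2 = 0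
  · rw [h0]; simp
  · rw [div_mul_cancel₀ _ h0]

/-- comparison of the masses off small discs -/
lemma compare (hAF : StAF) {d : ℕ} {P Q : ℂ[X]} {Z : Finset ℂ} {a b : ℂ → ℂ} {wt : ℂ → ℝ}
    (hT : RM d P Q) (hcyc : Cyc P Q Z)
    (hwt : ∀ z ∈ Z, 0 < wt z ∧ wt (fr P Q z) = ‖d1 P Q z‖ * wt z) :
    ∃ C : ℝ, 0 ≤ C ∧ ∀ᶠ r : ℝ in 𝓝[>] (0 : ℝ), ∫⁻ w in Er Z wt r, Gs P Q Z a b w ≤
      (∫⁻ w in Er Z wt r, ENNReal.ofReal ‖qd Z a b w‖) + ENNReal.ofReal (C * r) := by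
  classical
  obtain ⟨hc, hc2⟩ := hcyc
  obtain ⟨c, hc0, hcc⟩ := exists_lower Z (fun z => wt z / 2) (fun z hz => by
    have := (hwt z hz).1; positivity)
  obtain ⟨W, hW0, hW⟩ := exists_upper Z wt
  have htay : ∀ z : ℂ, ∃ ρ L : ℝ, z ∈ Z → 0 < ρ ∧ 0 ≤ L ∧ ∀ ζ : ℂ, ‖ζ - z‖ ≤ ρ →
      ‖fr P Q ζ - fr P Q z‖ ≤ ‖d1 P Q z‖ * ‖ζ - z‖ + L * ‖ζ - z‖ ^ 2 := by
    intro z
    by_cases hz : z ∈ Z
    · obtain ⟨ρ, L, h1, h2, h3⟩ := taylor2 P Q z (hc z hz).1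
      exact ⟨ρ, L, fun _ => ⟨h1, h2, h3⟩⟩
    · exact ⟨1, 0, fun h => absurd h hz⟩
  choose ρ' L' htay using htay
  obtain ⟨ρ, hρ0, hρ⟩ := exists_lower Z ρ' (fun z hz => (htay z hz).1)
  obtain ⟨L, hL0, hL⟩ := exists_upper Z L'
  obtain ⟨m, hm0, hm⟩ := exists_lower Z (fun z => ‖d1 P Q z‖)
    (fun z hz => norm_pos_iff.2 (div_ne_zero (hc z hz).2.1 (pow_ne_zero 2 (hc z hz).1)))
  -- separation
  obtain ⟨d, hd0, hd⟩ : ∃ d : ℝ, 0 < d ∧ ∀ z ∈ Z, ∀ z' ∈ Z, z ≠ z' → d ≤ ‖z - z'‖ := by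
    have h1 : ∀ z : ℂ, ∃ e : ℝ, 0 < e ∧ ∀ z' ∈ Z, z ≠ z' → e ≤ ‖z - z'‖ := by
      intro z
      obtain ⟨e, he0, he⟩ := exists_lower (Z.erase z) (fun z' => ‖z - z'‖) (fun z' hz' =>
        norm_pos_iff.2 (sub_ne_zero.2 (Finset.mem_erase.1 hz').1.symm))
      exact ⟨e, he0, fun z' hz' hne => he z' (Finset.mem_erase.2 ⟨hne.symm, hz'⟩)⟩
    choose e he0 he using h1
    obtain ⟨d, hd0, hd⟩ := exists_lower Z e (fun z _ => he0 z)
    exact ⟨d, hd0, fun z hz z' hz' hne => (hd z hz).trans (he z z' hz' hne)⟩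
  obtain ⟨K, hK0, hK⟩ : ∃ K : ℝ, 0 < K ∧ ∀ (ζ : ℂ) (s : ℝ), 0 < s → s ≤ 1 →
      (∀ z ∈ Z, s ≤ ‖ζ - z‖) → ‖qd Z a b ζ‖ ≤ K / s ^ 2 :=
    Pool.Agent.H713R5.QJ.INJ.qd_bound Z a b
  set C' : ℝ := L * W ^ 2 / m with hC'
  have hC'0 : 0 < C' := by positivity
  set φ : ℂ → ENNReal := fun ζ => ENNReal.ofReal ‖qd Z a b ζ‖ with hφ
  refine ⟨∑ _z ∈ Z, (K / c ^ 2 * (Real.pi * (2 * W * C'))),
    Finset.sum_nonneg fun _ _ => by positivity, ?_⟩
  filter_upwards [self_mem_nhdsWithin, small W ρ hρ0, small C' c hc0,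
    small (W + c) d hd0, small c 1 one_pos] with r hr0 hr1 hr3 hr4 hr5
  have hr0 : 0 < r := hr0
  have hrw : ∀ z ∈ Z, r * wt z ≤ W * r := fun z hz => by
    have := mul_le_mul_of_nonneg_left (hW z hz) hr0.le
    linarith
  -- annuli
  set An : ℂ → Set ℂ := fun z => closedBall z (r * wt z) \ ball z (r * wt z - C' * r ^ 2) with hAn
  have hlow : ∀ z ∈ Z, r * c ≤ r * wt z - C' * r ^ 2 := by
    intro z hz
    have h1 := hcc z hz
    have h2 : C' * r * r ≤ c * r := mul_le_mul_of_nonneg_right hr3.le hr0.le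
    nlinarith
  have hAnin : ∀ ζ : ℂ, ζ ∉ Er Z wt r → fr P Q ζ ∈ Er Z wt r → ∃ z ∈ Z, ζ ∈ An z := by
    intro ζ hζ hTζ
    rw [mem_Er] at hζ hTζ
    push Not at hζ
    obtain ⟨z, hz, hζ⟩ := hζ
    refine ⟨z, hz, ?_, ?_⟩
    · rw [mem_closedBall, dist_eq_norm]
      exact hζ
    have h1 : r * wt (fr P Q z) < ‖fr P Q ζ - fr P Q z‖ := hTζ _ (hc z hz).2.2
    rw [(hwt z hz).2] at h1
    have h3 := hrw z hz
    have h2 := (htay z hz).2.2 ζ (by have := hρ z hz; linarith)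
    have h4 : L' z * ‖ζ - z‖ ^ 2 ≤ L * (W * r) ^ 2 := by
      refine mul_le_mul (hL z hz) (pow_le_pow_left₀ (norm_nonneg _) (hζ.trans h3) 2)
        (by positivity) hL0.le
    rw [mem_ball, dist_eq_norm, not_lt]
    have hmz := hm z hz
    set D := ‖d1 P Q z‖ with hD
    have hDpos : 0 < D := lt_of_lt_of_le hm0 hmz
    have h5 : D * (r * wt z - ‖ζ - z‖) < L * (W * r) ^ 2 := by
      nlinarith
    by_contra hcon
    push Not at hcon
    have h6 : C' * r ^ 2 < r * wt z - ‖ζ - z‖ := by linarith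
    have h7 : m * (C' * r ^ 2) = L * (W * r) ^ 2 := by
      rw [hC']; field_simp
    have h8 : m * (C' * r ^ 2) ≤ D * (C' * r ^ 2) :=
      mul_le_mul_of_nonneg_right hmz (by positivity)
    have h9 : D * (C' * r ^ 2) < D * (r * wt z - ‖ζ - z‖) := mul_lt_mul_of_pos_left h6 hDpos
    linarith
  -- integral over one annulus
  have hAnint : ∀ z ∈ Z, ∫⁻ ζ in An z, φ ζ ≤
      ENNReal.ofReal (K / c ^ 2 * (Real.pi * (2 * W * C')) * r) := by
    intro z hz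
    have h1 : ∀ ζ ∈ An z, φ ζ ≤ ENNReal.ofReal (K / (r * c) ^ 2) := by
      intro ζ hζ
      refine ENNReal.ofReal_le_ofReal (hK ζ (r * c) (by positivity) (by linarith) ?_)
      intro z' hz'
      obtain ⟨hζ1, hζ2⟩ := hζ
      rw [mem_ball, dist_eq_norm, not_lt] at hζ2
      rw [mem_closedBall, dist_eq_norm] at hζ1
      by_cases hzz : z = z'
      · rw [← hzz]; exact (hlow z hz).trans hζ2
      · have h2 := hd z hz z' hz' hzz
        have h3 : ‖z - z'‖ ≤ ‖ζ - z'‖ + ‖ζ - z‖ := by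
          have := norm_sub_le (ζ - z') (ζ - z)
          simpa using this
        have h4 := hrw z hz
        linarith
    have h2 : ∫⁻ ζ in An z, φ ζ ≤ ∫⁻ _ζ in An z, ENNReal.ofReal (K / (r * c) ^ 2) :=
      setLIntegral_mono measurable_const h1
    rw [setLIntegral_const] at h2
    refine h2.trans ?_
    have h3 := vol_annulus z (r * wt z - C' * r ^ 2) (r * wt z)
      (le_trans (by positivity) (hlow z hz)) (by nlinarith [sq_nonneg r])
    refine (mul_le_mul_right h3 _).trans ?_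
    rw [← ENNReal.ofReal_mul (by positivity)]
    refine ENNReal.ofReal_le_ofReal ?_
    have h4 : (r * wt z) ^ 2 - (r * wt z - C' * r ^ 2) ^ 2 ≤ 2 * W * C' * r ^ 3 := by
      have h5 := mul_le_mul_of_nonneg_left (hW z hz) (show 0 ≤ C' * r ^ 3 by positivity)
      nlinarith [sq_nonneg (C' * r ^ 2)]
    calc K / (r * c) ^ 2 * (Real.pi * ((r * wt z) ^ 2 - (r * wt z - C' * r ^ 2) ^ 2))
        ≤ K / (r * c) ^ 2 * (Real.pi * (2 * W * C' * r ^ 3)) := by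
          gcongr
      _ = K / c ^ 2 * (Real.pi * (2 * W * C')) * r := by
          field_simp
  -- comparison
  have hmass := mass_eq hAF P Q Z a b hT (Er Z wt r) (Er_meas Z wt r)
  have hsub : {z : ℂ | Q.eval z ≠ 0 ∧ fr P Q z ∈ Er Z wt r} ⊆ Er Z wt r ∪ ⋃ z ∈ Z, An z := by
    intro x hx
    by_cases hxU : x ∈ Er Z wt r
    · exact Or.inl hxU
    · right
      obtain ⟨z, hz, hxz⟩ := hAnin x hxU hx.2
      simp only [mem_iUnion, exists_prop]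
      exact ⟨z, hz, hxz⟩
  refine hmass.trans ((lintegral_mono_set hsub).trans ((lintegral_union_le _ _ _).trans ?_))
  refine add_le_add_right ?_ _
  refine (biUnion_le Z An φ).trans ((Finset.sum_le_sum hAnint).trans (le_of_eq ?_))
  rw [← ENNReal.ofReal_sum_of_nonneg (fun _ _ => by positivity), Finset.sum_mul]

/-- finiteness of the mass off small discs -/
lemma finite_mass {d : ℕ} {P Q : ℂ[X]} {Z : Finset ℂ} {a b : ℂ → ℂ} {wt : ℂ → ℝ}
    (hT : RM d P Q) (hc : ∀ z ∈ Z, Q.eval z ≠ 0) (hG : Ginf d P Q) (hwt : ∀ z ∈ Z, 0 < wt z)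
    (hinv : ∀ y : ℂ, y ∉ Z → Gv d P Q y →
      ∑ ζ ∈ pre P Q y, qd Z a b ζ / d1 P Q ζ ^ 2 = qd Z a b y) {r : ℝ} (hr : 0 < r) :
    ∫⁻ w in Er Z wt r, ENNReal.ofReal ‖qd Z a b w‖ ≠ ⊤ := by
  obtain ⟨M, K, hM, hK, hb⟩ := inf_bound hT hc hG hinv
  obtain ⟨c, hc0, hcc⟩ := exists_lower Z wt hwt
  obtain ⟨K₁, hK₁, hK₁b⟩ : ∃ K : ℝ, 0 < K ∧ ∀ (ζ : ℂ) (s : ℝ), 0 < s → s ≤ 1 →
      (∀ z ∈ Z, s ≤ ‖ζ - z‖) → ‖qd Z a b ζ‖ ≤ K / s ^ 2 :=
    Pool.Agent.H713R5.QJ.INJ.qd_bound Z a b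
  set s : ℝ := min 1 (r * c) with hs
  have hs0 : 0 < s := by
    rw [hs]; positivity
  set K₂ : ℝ := K₁ / s ^ 2 * (1 + M) ^ 4 + K * 2 ^ 4 with hK₂
  have hK₂0 : 0 ≤ K₂ := by positivity
  have hint : Integrable (fun y : ℂ => K₂ * (1 + ‖y‖) ^ (-(4 : ℝ))) := by
    apply Integrable.const_mul
    apply integrable_one_add_norm
    rw [Complex.finrank_real_complex]
    norm_num
  have hfin : ∫⁻ w, ENNReal.ofReal (K₂ * (1 + ‖w‖) ^ (-(4 : ℝ))) ≠ ⊤ :=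
    hint.lintegral_lt_top.ne
  refine ne_top_of_le_ne_top hfin ?_
  have hae : ∀ᵐ w : ℂ, w ∉ Z ∧ Gv d P Q w := by
    rw [ae_iff]
    have : {w : ℂ | ¬ (w ∉ Z ∧ Gv d P Q w)} ⊆ (Z : Set ℂ) ∪ {w : ℂ | ¬ Gv d P Q w} := by
      intro w hw
      simp only [mem_ofPred_eq, not_and_or, not_not] at hw
      exact hw
    exact ((Z.finite_toSet.union (gv_finite hT)).subset this).measure_zero _
  calc ∫⁻ w in Er Z wt r, ENNReal.ofReal ‖qd Z a b w‖
      ≤ ∫⁻ w in Er Z wt r, ENNReal.ofReal (K₂ * (1 + ‖w‖) ^ (-(4 : ℝ))) := by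
        refine setLIntegral_mono_ae (by fun_prop) ?_
        filter_upwards [hae] with w hw hwE
        refine ENNReal.ofReal_le_ofReal ?_
        rw [mem_Er] at hwE
        have h1 : (1 + ‖w‖) ^ (-(4 : ℝ)) = ((1 + ‖w‖) ^ 4)⁻¹ := by
          rw [Real.rpow_neg (by positivity), show (4 : ℝ) = ((4 : ℕ) : ℝ) by norm_num,
            Real.rpow_natCast]
        rw [h1, ← div_eq_mul_inv, le_div_iff₀ (by positivity)]
        by_cases hwM : M ≤ ‖w‖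
        · have h2 := hb w hwM hw.1 hw.2
          have hw0 : 0 < ‖w‖ := by linarith
          rw [le_div_iff₀ (by positivity)] at h2
          have h3 : (1 + ‖w‖) ^ 4 ≤ (2 * ‖w‖) ^ 4 :=
            pow_le_pow_left₀ (by positivity) (by linarith) 4
          calc ‖qd Z a b w‖ * (1 + ‖w‖) ^ 4 ≤ ‖qd Z a b w‖ * (2 * ‖w‖) ^ 4 :=
                mul_le_mul_of_nonneg_left h3 (norm_nonneg _)
            _ = ‖qd Z a b w‖ * ‖w‖ ^ 4 * 2 ^ 4 := by ring
            _ ≤ K * 2 ^ 4 := mul_le_mul_of_nonneg_right h2 (by norm_num)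
            _ ≤ K₂ := by
                rw [hK₂]
                have : 0 ≤ K₁ / s ^ 2 * (1 + M) ^ 4 := by positivity
                linarith
        · push Not at hwM
          have h2 : ‖qd Z a b w‖ ≤ K₁ / s ^ 2 := by
            refine hK₁b w s hs0 (min_le_left _ _) fun z hz => ?_
            have h3 := hwE z hz
            have h4 := hcc z hz
            have h5 : s ≤ r * c := min_le_right _ _
            nlinarith
          have h3 : (1 + ‖w‖) ^ 4 ≤ (1 + M) ^ 4 :=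
            pow_le_pow_left₀ (by positivity) (by linarith) 4
          calc ‖qd Z a b w‖ * (1 + ‖w‖) ^ 4 ≤ K₁ / s ^ 2 * (1 + M) ^ 4 :=
                mul_le_mul h2 h3 (by positivity) (by positivity)
            _ ≤ K₂ := by
                rw [hK₂]
                have : 0 ≤ K * 2 ^ 4 := by positivity
                linarith
    _ ≤ ∫⁻ w, ENNReal.ofReal (K₂ * (1 + ‖w‖) ^ (-(4 : ℝ))) := setLIntegral_le_lintegral _ _

end Pool.Agent.W378.Q2INJ
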