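import Pool.Agent.W378.REQ2A

set_option autoImplicit false

open Topology Filter Metric Set Polynomial MeasureTheory

namespace Pool.Agent.W378.Q2INJ

open Pool.Agent.W757.QR
open Pool.Agent.W757.Q2 (Ginf)
open Pool.Agent.W85.RQINJ
open Pool.Agent.W40.RQAF (af_mem af_ne has_deriv)
open Pool.Agent.H713R5.QJ.INJ (exists_lower exists_upper vol_annulus biUnion_le small)

/-- real version of the sum over the preimages -/
noncomputable def Gr (P Q : ℂ[X]) (Z : Finset ℂ) (a b : ℂ → ℂ) (w : ℂ) : ℝ :=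
  ∑ ζ ∈ pre P Q w, ‖qd Z a b ζ‖ / ‖d1 P Q ζ‖ ^ 2

lemma Gs_eq (P Q : ℂ[X]) (Z : Finset ℂ) (a b : ℂ → ℂ) (w : ℂ) :
    Gs P Q Z a b w = ENNReal.ofReal (Gr P Q Z a b w) := by
  unfold Gs Gr
  rw [ENNReal.ofReal_sum_of_nonneg fun _ _ => by positivity]

lemma qd_contAt {Z : Finset ℂ} {a b : ℂ → ℂ} {z : ℂ} (hz : z ∉ Z) :
    ContinuousAt (qd Z a b) z := by
  unfold qd
  refine tendsto_finsetSum _ fun z' hz' => ?_
  have hne : z - z' ≠ 0 := by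
    intro h0
    rw [sub_eq_zero] at h0
    exact hz (h0 ▸ hz')
  have h1 : ContinuousAt (fun ζ : ℂ => ζ - z') z := by fun_prop
  exact (continuousAt_const.div (h1.pow 2) (pow_ne_zero 2 hne)).add
    (continuousAt_const.div h1 hne)

lemma d1_contAt {P Q : ℂ[X]} {z : ℂ} (hz : Q.eval z ≠ 0) : ContinuousAt (d1 P Q) z := by
  unfold d1
  exact (wn P Q).continuous.continuousAt.div (Q.continuous.continuousAt.pow 2) (pow_ne_zero 2 hz)

/-- lower semicontinuity of the sum over the preimages at generic points -/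
lemma lsc {d : ℕ} {P Q : ℂ[X]} {Z : Finset ℂ} {a b : ℂ → ℂ} (hT : RM d P Q)
    (hc : ∀ z ∈ Z, fr P Q z ∈ Z) {y₁ : ℂ} (hy : y₁ ∉ Z) (hG : Gv d P Q y₁) {t : ℝ}
    (ht : t < Gr P Q Z a b y₁) : ∀ᶠ y in 𝓝 y₁, t ≤ Gr P Q Z a b y := by
  classical
  set g : ℂ → ℝ := fun ζ => ‖qd Z a b ζ‖ / ‖d1 P Q ζ‖ ^ 2 with hg
  set S := pre P Q y₁ with hS
  have hprop : ∀ ζ ∈ S, Q.eval ζ ≠ 0 ∧ fr P Q ζ = y₁ ∧ ζ ∉ Z ∧ d1 P Q ζ ≠ 0 := by
    intro ζ hζ
    obtain ⟨h1, h2⟩ := (af_mem hT y₁ ζ).1 hζ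
    refine ⟨h1, h2, fun h3 => hy (h2 ▸ hc ζ h3), ?_⟩
    exact div_ne_zero (hG.2 ζ hζ) (pow_ne_zero 2 h1)
  set ε : ℝ := (Gr P Q Z a b y₁ - t) / (S.card + 1) with hε
  have hε0 : 0 < ε := by
    have : 0 < Gr P Q Z a b y₁ - t := by linarith
    positivity
  -- radius of continuity
  have hrad : ∀ ζ : ℂ, ∃ e : ℝ, ζ ∈ S → 0 < e ∧ ∀ ζ' : ℂ, ‖ζ' - ζ‖ < e → g ζ - ε < g ζ' := by
    intro ζ
    by_cases hζ : ζ ∈ S
    · obtain ⟨h1, h2, h3, h4⟩ := hprop ζ hζ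
      have hcont : ContinuousAt g ζ :=
        (qd_contAt h3).norm.div ((d1_contAt h1).norm.pow 2) (pow_ne_zero 2 (norm_ne_zero_iff.2 h4))
      obtain ⟨e, he, hb⟩ := Metric.eventually_nhds_iff.1
        (hcont.eventually_const_lt (show g ζ - ε < g ζ by linarith))
      exact ⟨e, fun _ => ⟨he, fun ζ' hζ' => hb (by rw [dist_eq_norm]; exact hζ')⟩⟩
    · exact ⟨1, fun h => absurd h hζ⟩
  choose e' he' using hrad
  obtain ⟨e₁, he₁, he₁b⟩ := exists_lower S e' fun ζ hζ => (he' ζ hζ).1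
  -- separation
  obtain ⟨s, hs0, hs⟩ : ∃ d : ℝ, 0 < d ∧ ∀ z ∈ S, ∀ z' ∈ S, z ≠ z' → d ≤ ‖z - z'‖ := by
    have h1 : ∀ z : ℂ, ∃ e : ℝ, 0 < e ∧ ∀ z' ∈ S, z ≠ z' → e ≤ ‖z - z'‖ := by
      intro z
      obtain ⟨e, he0, he⟩ := exists_lower (S.erase z) (fun z' => ‖z - z'‖) (fun z' hz' =>
        norm_pos_iff.2 (sub_ne_zero.2 (Finset.mem_erase.1 hz').1.symm))
      exact ⟨e, he0, fun z' hz' hne => he z' (Finset.mem_erase.2 ⟨hne.symm, hz'⟩)⟩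
    choose e he0 he using h1
    obtain ⟨d, hd0, hd⟩ := exists_lower S e (fun z _ => he0 z)
    exact ⟨d, hd0, fun z hz z' hz' hne => (hd z hz).trans (he z z' hz' hne)⟩
  set e : ℝ := min e₁ (s / 2) with he
  have he0 : 0 < e := by
    rw [he]; positivity
  have hcov : ∀ ζ ∈ S, ∀ᶠ y in 𝓝 y₁, ∃ ζ' : ℂ, ‖ζ' - ζ‖ < e ∧ Q.eval ζ' ≠ 0 ∧ fr P Q ζ' = y := by
    intro ζ hζ
    obtain ⟨h1, h2, h3, h4⟩ := hprop ζ hζ
    have hmap := (has_deriv (P := P) h1).map_nhds_eq h4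
    rw [h2] at hmap
    have hV : ball ζ e ∩ {z : ℂ | Q.eval z ≠ 0} ∈ 𝓝 ζ :=
      Filter.inter_mem (ball_mem_nhds ζ he0) ((isOpen_ne Q).mem_nhds h1)
    have h5 := Filter.image_mem_map (m := fr P Q) hV
    rw [hmap] at h5
    filter_upwards [h5] with y hy
    obtain ⟨ζ', ⟨h6, h7⟩, h8⟩ := hy
    rw [mem_ball, dist_eq_norm] at h6
    exact ⟨ζ', h6, h7, h8⟩
  have hall : ∀ᶠ y in 𝓝 y₁, ∀ ζ ∈ S, ∃ ζ' : ℂ, ‖ζ' - ζ‖ < e ∧ Q.eval ζ' ≠ 0 ∧ fr P Q ζ' = y :=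
    (Finset.eventually_all S).2 hcov
  filter_upwards [hall] with y hyy
  choose! σ hσ using hyy
  have hinj : Set.InjOn σ S := by
    intro ζ₁ h1 ζ₂ h2 h12
    by_contra hne
    have h3 := hs ζ₁ h1 ζ₂ h2 hne
    have h4 := (hσ ζ₁ h1).1
    have h5 := (hσ ζ₂ h2).1
    rw [← h12] at h5
    have h6 : ‖ζ₁ - ζ₂‖ ≤ ‖σ ζ₁ - ζ₂‖ + ‖σ ζ₁ - ζ₁‖ := by
      have := norm_sub_le (σ ζ₁ - ζ₂) (σ ζ₁ - ζ₁)
      simpa using this
    have h7 : e ≤ s / 2 := min_le_right _ _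
    linarith
  have hsub : S.image σ ⊆ pre P Q y := by
    intro ζ' hζ'
    obtain ⟨ζ, hζ, rfl⟩ := Finset.mem_image.1 hζ'
    exact (af_mem hT y _).2 (hσ ζ hζ).2
  have h1 : ∑ ζ ∈ S, g (σ ζ) ≤ Gr P Q Z a b y := by
    rw [← Finset.sum_image (f := g) hinj]
    exact Finset.sum_le_sum_of_subset_of_nonneg hsub fun _ _ _ => by positivity
  have h2 : ∑ ζ ∈ S, (g ζ - ε) ≤ ∑ ζ ∈ S, g (σ ζ) := by
    refine Finset.sum_le_sum fun ζ hζ => ?_
    have h3 := (hσ ζ hζ).1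
    have h4 := he₁b ζ hζ
    have h5 : e ≤ e₁ := min_le_left _ _
    exact ((he' ζ hζ).2 _ (by linarith)).le
  rw [Finset.sum_sub_distrib, Finset.sum_const, nsmul_eq_mul] at h2
  have h3 : (S.card : ℝ) * ε ≤ Gr P Q Z a b y₁ - t := by
    rw [hε, ← mul_div_assoc, div_le_iff₀ (by positivity)]
    have : 0 ≤ Gr P Q Z a b y₁ - t := by linarith
    nlinarith
  have h4 : ∑ ζ ∈ S, g ζ = Gr P Q Z a b y₁ := rfl
  linarith

/-- triangle inequality -/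
lemma tri {d : ℕ} {P Q : ℂ[X]} {Z : Finset ℂ} {a b : ℂ → ℂ}
    (hinv : ∀ y : ℂ, y ∉ Z → Gv d P Q y →
      ∑ ζ ∈ pre P Q y, qd Z a b ζ / d1 P Q ζ ^ 2 = qd Z a b y) {y : ℂ} (hy : y ∉ Z)
    (hG : Gv d P Q y) : ‖qd Z a b y‖ ≤ Gr P Q Z a b y := by
  rw [← hinv y hy hG]
  refine (norm_sum_le _ _).trans (le_of_eq ?_)
  refine Finset.sum_congr rfl fun ζ _ => ?_
  rw [norm_div, norm_pow]

/-- equality in the triangle inequality -/
lemma tri_eq (hAF : StAF) {d : ℕ} {P Q : ℂ[X]} {Z : Finset ℂ} {a b : ℂ → ℂ} {wt : ℂ → ℝ}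
    (hT : RM d P Q) (hcyc : Cyc P Q Z) (hGi : Ginf d P Q)
    (hwt : ∀ z ∈ Z, 0 < wt z ∧ wt (fr P Q z) = ‖d1 P Q z‖ * wt z)
    (hinv : ∀ y : ℂ, y ∉ Z → Gv d P Q y →
      ∑ ζ ∈ pre P Q y, qd Z a b ζ / d1 P Q ζ ^ 2 = qd Z a b y) {y : ℂ} (hy : y ∉ Z)
    (hG : Gv d P Q y) : Gr P Q Z a b y = ‖qd Z a b y‖ := by
  refine le_antisymm ?_ (tri hinv hy hG)
  by_contra hcon
  push Not at hcon
  set ε : ℝ := (Gr P Q Z a b y - ‖qd Z a b y‖) / 2 with hε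
  have hε0 : 0 < ε := by rw [hε]; linarith
  have h1 : ∀ᶠ w in 𝓝 y, Gr P Q Z a b y - ε / 2 ≤ Gr P Q Z a b w :=
    lsc hT (fun z hz => (hcyc.1 z hz).2.2) hy hG (by linarith)
  have h2 : ∀ᶠ w in 𝓝 y, ‖qd Z a b w‖ < ‖qd Z a b y‖ + ε / 2 :=
    (qd_contAt hy).norm.eventually_lt_const (by linarith)
  -- a radius for the discs
  obtain ⟨W, hW0, hW⟩ := exists_upper Z wt
  obtain ⟨s, hs0, hs⟩ := exists_lower Z (fun z => ‖y - z‖) fun z hz =>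
    norm_pos_iff.2 (sub_ne_zero.2 fun h => hy (h ▸ hz))
  obtain ⟨δ, hδ0, hδ⟩ := Metric.eventually_nhds_iff.1 (h1.and h2)
  set δ' : ℝ := min δ (s / 2) with hδ'
  have hδ'0 : 0 < δ' := by rw [hδ']; positivity
  set N : Set ℂ := ball y δ' with hN
  have hNm : MeasurableSet N := measurableSet_ball
  have hNlow : ∀ w ∈ N, ENNReal.ofReal ‖qd Z a b w‖ + ENNReal.ofReal ε ≤ Gs P Q Z a b w := by
    intro w hw
    have hwd : dist w y < δ := lt_of_lt_of_le (mem_ball.1 hw) (min_le_left _ _)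
    obtain ⟨h3, h4⟩ := hδ hwd
    rw [Gs_eq, ← ENNReal.ofReal_add (norm_nonneg _) hε0.le]
    refine ENNReal.ofReal_le_ofReal ?_
    have : Gr P Q Z a b y - ‖qd Z a b y‖ = 2 * ε := by rw [hε]; ring
    linarith
  obtain ⟨C, hC0, hC⟩ := compare (a := a) (b := b) hAF hT hcyc hwt
  set φ : ℂ → ENNReal := fun ζ => ENNReal.ofReal ‖qd Z a b ζ‖ with hφ
  have hqm : Measurable (qd Z a b) := Pool.Agent.H713R5.QJ.INJ.qd_measurable Z a b
  have hφm : Measurable φ := by fun_prop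
  have hae : ∀ᵐ w : ℂ, φ w ≤ Gs P Q Z a b w := by
    have hae : ∀ᵐ w : ℂ, w ∉ Z ∧ Gv d P Q w := by
      rw [ae_iff]
      have : {w : ℂ | ¬ (w ∉ Z ∧ Gv d P Q w)} ⊆ (Z : Set ℂ) ∪ {w : ℂ | ¬ Gv d P Q w} := by
        intro w hw
        simp only [mem_ofPred_eq, not_and_or, not_not] at hw
        exact hw
      exact ((Z.finite_toSet.union (gv_finite hT)).subset this).measure_zero _
    filter_upwards [hae] with w hw
    rw [Gs_eq]
    exact ENNReal.ofReal_le_ofReal (tri hinv hw.1 hw.2)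
  have hmain : ∀ᶠ r : ℝ in 𝓝[>] (0 : ℝ), ENNReal.ofReal ε * volume N ≤ ENNReal.ofReal (C * r) := by
    filter_upwards [hC, self_mem_nhdsWithin, small W (s / 2) (by positivity)] with r hr hr0 hr1
    have hr0 : 0 < r := hr0
    have hNE : N ⊆ Er Z wt r := by
      intro w hw
      rw [mem_Er]
      intro z hz
      have h3 := hs z hz
      have h4 : dist w y < s / 2 := lt_of_lt_of_le (mem_ball.1 hw) (min_le_right _ _)
      rw [dist_eq_norm] at h4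
      have h5 : ‖y - z‖ ≤ ‖w - z‖ + ‖w - y‖ := by
        have := norm_sub_le (w - z) (w - y)
        simpa using this
      have h6 := mul_le_mul_of_nonneg_left (hW z hz) hr0.le
      linarith
    have hfin := finite_mass (wt := wt) hT (fun z hz => (hcyc.1 z hz).1) hGi
      (fun z hz => (hwt z hz).1) hinv hr0
    have h3 : (∫⁻ w in Er Z wt r, φ w) + ENNReal.ofReal ε * volume N ≤
        ∫⁻ w in Er Z wt r, Gs P Q Z a b w := by
      rw [← lintegral_inter_add_sdiff (Gs P Q Z a b) (Er Z wt r) hNm,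
        ← lintegral_inter_add_sdiff φ (Er Z wt r) hNm]
      have h4 : Er Z wt r ∩ N = N := inter_eq_right.2 hNE
      rw [h4]
      have h5 : (∫⁻ w in N, φ w) + ENNReal.ofReal ε * volume N ≤ ∫⁻ w in N, Gs P Q Z a b w := by
        rw [← setLIntegral_const, ← lintegral_add_left hφm]
        refine setLIntegral_mono' hNm fun w hw => hNlow w hw
      have h6 : ∫⁻ w in Er Z wt r \ N, φ w ≤ ∫⁻ w in Er Z wt r \ N, Gs P Q Z a b w :=
        lintegral_mono_ae (ae_restrict_of_ae hae)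
      calc (∫⁻ w in N, φ w) + (∫⁻ w in Er Z wt r \ N, φ w) + ENNReal.ofReal ε * volume N
          = ((∫⁻ w in N, φ w) + ENNReal.ofReal ε * volume N) + ∫⁻ w in Er Z wt r \ N, φ w := by
            ring
        _ ≤ _ := add_le_add h5 h6
    have h4 := h3.trans hr
    exact (ENNReal.add_le_add_iff_left hfin).1 h4
  have hlim : Tendsto (fun r : ℝ => ENNReal.ofReal (C * r)) (𝓝[>] (0 : ℝ)) (𝓝 0) := by
    have h2 : Tendsto (fun r : ℝ => C * r) (𝓝[>] (0 : ℝ)) (𝓝 (C * 0)) :=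
      ((continuous_const.mul continuous_id).tendsto 0).mono_left nhdsWithin_le_nhds
    rw [mul_zero] at h2
    simpa using ENNReal.tendsto_ofReal h2
  have h0 : ENNReal.ofReal ε * volume N ≤ 0 := ge_of_tendsto hlim hmain
  have h3 : 0 < volume N := isOpen_ball.measure_pos volume ⟨y, mem_ball_self hδ'0⟩
  have h4 : ENNReal.ofReal ε ≠ 0 := (ENNReal.ofReal_pos.2 hε0).ne'
  have h5 := le_antisymm h0 zero_le
  rcases mul_eq_zero.1 h5 with h6 | h6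
  · exact h4 h6
  · exact h3.ne' h6

end Pool.Agent.W378.Q2INJ
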